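import Mathlib

set_option autoImplicit false
set_option linter.unusedSimpArgs false

namespace Pool.Agent.H.MP_afa6c5_al

def ones : List Bool → Bool
  | [] => true
  | c :: w => c && ones w

def swp : List Bool → List Bool → List Bool
  | [], [] => []
  | [], c :: w => (!c) :: w
  | _ :: _, [] => []
  | b :: p, c :: w => if b = c then c :: swp p w else c :: w

def sgn : List Bool → List Bool → Bool
  | [], [] => false
  | [], c :: w => !c && ones w
  | _ :: _, [] => false
  | b :: p, c :: w => (b == c) && sgn p w

def iv : List Bool → List Bool → Bool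
  | [], [] => false
  | [], _ :: w => ones w
  | _ :: _, [] => false
  | b :: p, c :: w => (b == c) && iv p w

lemma length_swp (p w : List Bool) : (swp p w).length = w.length := by
  induction p generalizing w with
  | nil => cases w <;> simp [swp]
  | cons b p ih => cases w with
    | nil => simp [swp]
    | cons c w => simp only [swp]; split_ifs <;> simp [ih]

lemma swp_swp (p w : List Bool) : swp p (swp p w) = w := by
  induction p generalizing w with
  | nil => cases w <;> simp [swp]
  | cons b p ih => cases w with
    | nil => simp [swp]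
    | cons c w => cases b <;> cases c <;> simp [swp, ih]

lemma swp_of_le {p w : List Bool} (h : w.length ≤ p.length) : swp p w = w := by
  induction p generalizing w with
  | nil => cases w <;> simp_all [swp]
  | cons b p ih => cases w with
    | nil => simp [swp]
    | cons c w => cases b <;> cases c <;> simp_all [swp]

lemma sgn_of_le {p w : List Bool} (h : w.length ≤ p.length) : sgn p w = false := by
  induction p generalizing w with
  | nil => cases w <;> simp_all [sgn]
  | cons b p ih => cases w with
    | nil => simp [sgn]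
    | cons c w => cases b <;> cases c <;> simp_all [sgn]

lemma L1 {y x : List Bool} (h : y.length ≤ x.length) (w : List Bool) :
    swp y (swp x w) = swp (swp y x) (swp y w) := by
  induction y generalizing x w with
  | nil =>
    cases x with
    | nil => simp [swp]
    | cons c x => cases w with
      | nil => simp [swp]
      | cons d w => cases c <;> cases d <;> simp [swp]
  | cons b y ih =>
    cases x with
    | nil => simp at h
    | cons c x => cases w with
      | nil => cases b <;> cases c <;> simp [swp]
      | cons d w =>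
        have := ih (x := x) (by simpa using h) w
        cases b <;> cases c <;> cases d <;> simp [swp, this]

lemma L3 (x w : List Bool) : xor (ones w) (sgn x w) =
    xor (if ones x then sgn x (swp x w) else sgn x w) (ones (swp x w)) := by
  induction x generalizing w with
  | nil => cases w with
    | nil => simp [swp, sgn, ones]
    | cons d w => cases d <;> simp [swp, sgn, ones]
  | cons c x ih => cases w with
    | nil => simp [swp, sgn, ones]
    | cons d w =>
      have := ih w
      cases c <;> cases d <;> simp_all [swp, sgn, ones]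

lemma L2 {y x : List Bool} (h : y.length ≤ x.length) (w : List Bool) :
    xor (sgn y w) (sgn x (swp y w)) =
    xor (if sgn y (swp y x) then sgn (swp y x) (swp (swp y x) w) else sgn (swp y x) w)
      (sgn y (swp (swp y x) w)) := by
  induction y generalizing x w with
  | nil =>
    cases x with
    | nil => cases w <;> simp [swp, sgn, Bool.xor_comm]
    | cons c x => cases w with
      | nil => simp [swp, sgn]
      | cons d w =>
        have := L3 x w
        cases c <;> cases d <;> simp_all [swp, sgn]
  | cons b y ih =>
    cases x with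
    | nil => simp at h
    | cons c x => cases w with
      | nil => cases b <;> cases c <;> simp [swp, sgn]
      | cons d w =>
        have := ih (x := x) (by simpa using h) w
        cases b <;> cases c <;> cases d <;> simp_all [swp, sgn]

lemma iv_eq (p w : List Bool) : xor (sgn p w) (sgn p (swp p w)) = iv p w := by
  induction p generalizing w with
  | nil => cases w with
    | nil => simp [swp, sgn, iv]
    | cons d w => cases d <;> simp [swp, sgn, iv]
  | cons b p ih => cases w with
    | nil => simp [swp, sgn, iv]
    | cons c w =>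
      have := ih w
      cases b <;> cases c <;> simp_all [swp, sgn, iv]

lemma iv_child (p : List Bool) (b : Bool) : iv p (p ++ [b]) = true := by
  induction p with
  | nil => simp [iv, ones]
  | cons c p ih => simp [iv, ih]

lemma iv_len {p w : List Bool} (h : iv p w = true) : p.length < w.length := by
  induction p generalizing w with
  | nil => cases w <;> simp_all [iv]
  | cons b p ih => cases w with
    | nil => simp [iv] at h
    | cons c w =>
      simp only [iv, Bool.and_eq_true] at h
      simpa using ih h.2

lemma iv_exact {p w : List Bool} (h : iv p w = true) (hl : w.length = p.length + 1) :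
    ∃ c, w = p ++ [c] := by
  induction p generalizing w with
  | nil =>
    match w, hl with
    | [c], _ => exact ⟨c, rfl⟩
  | cons b p ih => cases w with
    | nil => simp [iv] at h
    | cons c w =>
      simp only [iv, Bool.and_eq_true, beq_iff_eq] at h
      obtain ⟨d, hd⟩ := ih h.2 (by simpa using hl)
      exact ⟨d, by rw [hd, h.1]; rfl⟩

lemma sep_list {l l' : List Bool} (h : l ≠ l') :
    ones l ≠ ones l' ∨ ∃ p, iv p l ≠ iv p l' := by
  induction l generalizing l' with
  | nil => cases l' with
    | nil => exact absurd rfl h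
    | cons c w =>
      cases hw : ones w
      · left; simp [ones, hw]
      · right; exact ⟨[], by simp [iv, hw]⟩
  | cons c w ih => cases l' with
    | nil =>
      cases hw : ones w
      · left; simp [ones, hw]
      · right; exact ⟨[], by simp [iv, hw]⟩
    | cons c' w' =>
      by_cases hc : c = c'
      · subst hc
        rcases ih (l' := w') (by simpa using h) with h1 | ⟨p, h1⟩
        · right; exact ⟨[], by simpa [iv] using h1⟩
        · right; exact ⟨c :: p, by simpa [iv] using h1⟩
      · by_cases h1 : ones w = ones w'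
        · cases h2 : ones w
          · right
            rcases List.eq_nil_or_concat w with rfl | ⟨p, b, rfl⟩
            · simp [ones] at h2
            · refine ⟨c :: p, ?_⟩
              have := iv_child p b
              simp only [List.concat_eq_append] at *
              cases c <;> cases c' <;> simp_all [iv]
          · left
            rw [h2] at h1
            cases c <;> cases c' <;> simp_all [ones]
        · right; exact ⟨[], by simpa [iv] using h1⟩

lemma swp_child (p : List Bool) (b : Bool) (w : List Bool) :
    swp p (p ++ b :: w) = p ++ (!b) :: w := by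
  induction p with
  | nil => simp [swp]
  | cons c p ih => simp [swp, ih]

lemma sgn_child (p : List Bool) (b : Bool) : sgn p (p ++ [b]) = !b := by
  induction p with
  | nil => simp [sgn, ones]
  | cons c p ih => simp [sgn, ih]

lemma swp_append (p y w : List Bool) : swp (p ++ y) (p ++ w) = p ++ swp y w := by
  induction p with
  | nil => simp
  | cons c p ih => simp [swp, ih]

lemma sgn_append (p y w : List Bool) : sgn (p ++ y) (p ++ w) = sgn y w := by
  induction p with
  | nil => simp
  | cons c p ih => simp [sgn, ih]

/-! ### nodes and the signed affine group -/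

@[ext] structure N (s : ℕ) where
  k : ℤ
  l : List Bool
  h : l.length ≤ s

instance (s : ℕ) : DecidableEq (N s) := fun x y =>
  decidable_of_iff (x.k = y.k ∧ x.l = y.l) N.ext_iff.symm

variable {s : ℕ}

def lev (x : N s) : ℤ := x.k * (s + 1) - x.l.length

lemma lev_lt {x y : N s} (h : x.k < y.k) : lev x < lev y := by
  have h1 : (y.l.length : ℤ) ≤ s := by exact_mod_cast y.h
  have h2 : (0 : ℤ) ≤ x.l.length := by positivity
  have h3 : x.k + 1 ≤ y.k := h
  unfold lev
  nlinarith

lemma lev_le_k {x y : N s} (h : lev x ≤ lev y) : x.k ≤ y.k := by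
  by_contra hc
  exact absurd (lev_lt (not_le.mp hc)) (not_lt.mpr h)

lemma lev_len {x y : N s} (h : lev x ≤ lev y) (hk : x.k = y.k) : y.l.length ≤ x.l.length := by
  unfold lev at h
  rw [hk] at h
  omega

lemma lev_inj {x y : N s} (h : lev x = lev y) : x.k = y.k ∧ x.l.length = y.l.length := by
  have hk := le_antisymm (lev_le_k h.le) (lev_le_k h.ge)
  exact ⟨hk, le_antisymm (lev_len h.ge hk.symm) (lev_len h.le hk)⟩

def sv (b : Bool) : ℤ := if b then -1 else 1

@[simp] lemma sv_false : sv false = 1 := rfl
@[simp] lemma sv_true : sv true = -1 := rfl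
lemma sv_xor (a b : Bool) : sv (xor a b) = sv a * sv b := by cases a <;> cases b <;> rfl
lemma sv_sq (a : Bool) : sv a * sv a = 1 := by cases a <;> rfl

@[ext] structure Af (s : ℕ) where
  π : Equiv.Perm (N s)
  sg : N s → Bool
  d : N s → ℤ
  τ : ℤ

def lin (q : Af s) (u : N s → ℤ) : N s → ℤ := fun x => sv (q.sg x) * u (q.π.symm x)

instance : Mul (Af s) :=
  ⟨fun a b => ⟨a.π * b.π, fun x => xor (a.sg x) (b.sg (a.π.symm x)), a.d + lin a b.d, a.τ + b.τ⟩⟩
instance : One (Af s) := ⟨⟨1, fun _ => false, 0, 0⟩⟩
instance : Inv (Af s) :=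
  ⟨fun a => ⟨a.π⁻¹, fun x => a.sg (a.π x), fun x => -(sv (a.sg (a.π x)) * a.d (a.π x)), -a.τ⟩⟩

@[simp] lemma mul_π (a b : Af s) : (a * b).π = a.π * b.π := rfl
@[simp] lemma mul_sg (a b : Af s) (x : N s) :
    (a * b).sg x = xor (a.sg x) (b.sg (a.π.symm x)) := rfl
lemma mul_d (a b : Af s) : (a * b).d = a.d + lin a b.d := rfl
@[simp] lemma mul_d' (a b : Af s) (x : N s) :
    (a * b).d x = a.d x + sv (a.sg x) * b.d (a.π.symm x) := rfl
@[simp] lemma mul_τ (a b : Af s) : (a * b).τ = a.τ + b.τ := rfl
@[simp] lemma one_π : (1 : Af s).π = 1 := rfl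
@[simp] lemma one_sg (x : N s) : (1 : Af s).sg x = false := rfl
@[simp] lemma one_d : (1 : Af s).d = 0 := rfl
@[simp] lemma one_τ : (1 : Af s).τ = 0 := rfl
@[simp] lemma inv_π (a : Af s) : (a⁻¹).π = a.π⁻¹ := rfl
@[simp] lemma inv_sg (a : Af s) (x : N s) : (a⁻¹).sg x = a.sg (a.π x) := rfl
@[simp] lemma inv_d (a : Af s) (x : N s) :
    (a⁻¹).d x = -(sv (a.sg (a.π x)) * a.d (a.π x)) := rfl
@[simp] lemma inv_τ (a : Af s) : (a⁻¹).τ = -a.τ := rfl

lemma symm_mul (a b : Equiv.Perm (N s)) (x : N s) : (a * b).symm x = b.symm (a.symm x) := rfl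
lemma symm_inv (a : Equiv.Perm (N s)) (x : N s) : (a⁻¹).symm x = a x := rfl
lemma symm_one (x : N s) : (1 : Equiv.Perm (N s)).symm x = x := rfl

instance : Group (Af s) :=
  Group.ofLeftAxioms
    (fun a b c => by
      refine Af.ext (mul_assoc _ _ _) (funext fun x => ?_) (funext fun x => ?_) (add_assoc _ _ _)
      · simp [symm_mul]
      · simp only [mul_d', mul_sg, mul_π, symm_mul, sv_xor]; ring)
    (fun a => by
      refine Af.ext (one_mul _) (funext fun x => ?_) (funext fun x => ?_) (zero_add _)
      · simp [symm_one]
      · simp [symm_one])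
    (fun a => by
      refine Af.ext (inv_mul_cancel _) (funext fun x => ?_) (funext fun x => ?_)
        (neg_add_cancel _)
      · simp [symm_inv]
      · simp [symm_inv])

lemma lin_mul (a b : Af s) (u : N s → ℤ) : lin (a * b) u = lin a (lin b u) := by
  funext x; simp only [lin, mul_sg, mul_π, symm_mul, sv_xor]; ring

lemma lin_one (u : N s → ℤ) : lin (1 : Af s) u = u := by
  funext x; simp [lin, symm_one]

lemma lin_add (a : Af s) (u v : N s → ℤ) : lin a (u + v) = lin a u + lin a v := by
  funext x; simp [lin, mul_add]

lemma lin_smul (a : Af s) (c : ℤ) (u : N s → ℤ) : lin a (c • u) = c • lin a u := by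
  funext x; simp [lin]; ring

lemma lin_single (a : Af s) (x : N s) (c : ℤ) :
    lin a (Pi.single x c) = Pi.single (a.π x) (sv (a.sg (a.π x)) * c) := by
  funext z
  by_cases h : z = a.π x
  · subst h; simp [lin]
  · have : a.π.symm z ≠ x := fun h' => h (by rw [← h']; simp)
    simp [lin, Pi.single_apply, h, this]

def πf (y x : N s) : N s :=
  if x.k = y.k then ⟨x.k, swp y.l x.l, by rw [length_swp]; exact x.h⟩ else x

lemma πf_k (y x : N s) : (πf y x).k = x.k := by unfold πf; split_ifs <;> rfl
lemma πf_l (y x : N s) : (πf y x).l = if x.k = y.k then swp y.l x.l else x.l := by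
  unfold πf; split_ifs <;> rfl
lemma πf_len (y x : N s) : (πf y x).l.length = x.l.length := by
  rw [πf_l]; split_ifs <;> simp [length_swp]

lemma πf_πf (y x : N s) : πf y (πf y x) = x := by
  ext1
  · simp [πf_k]
  · simp only [πf_l, πf_k]; split_ifs <;> simp [swp_swp]

lemma lev_πf (y x : N s) : lev (πf y x) = lev x := by simp [lev, πf_k, πf_len]

def sgf (y x : N s) : Bool :=
  if x.k = y.k then sgn y.l x.l else
    (decide (x.k = y.k - 1) && decide (y.l.length = s) && ones x.l)

def g (y : N s) : Af s :=
  ⟨⟨πf y, πf y, πf_πf y, πf_πf y⟩, sgf y, Pi.single y 1, 0⟩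

@[simp] lemma g_π (y x : N s) : (g y).π x = πf y x := rfl
@[simp] lemma g_πs (y x : N s) : (g y).π.symm x = πf y x := rfl
@[simp] lemma g_sg (y : N s) : (g y).sg = sgf y := rfl
@[simp] lemma g_d (y : N s) : (g y).d = Pi.single y 1 := rfl
@[simp] lemma g_τ (y : N s) : (g y).τ = 0 := rfl

def sh (j : ℤ) (x : N s) : N s := ⟨x.k + j, x.l, x.h⟩

@[simp] lemma sh_k (j : ℤ) (x : N s) : (sh j x).k = x.k + j := rfl
@[simp] lemma sh_l (j : ℤ) (x : N s) : (sh j x).l = x.l := rfl
lemma sh_sh (i j : ℤ) (x : N s) : sh i (sh j x) = sh (i + j) x := by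
  ext1 <;> simp; ring
lemma sh_zero (x : N s) : sh 0 x = x := by ext1 <;> simp
lemma lev_sh (j : ℤ) (x : N s) : lev (sh j x) = lev x + (s + 1) * j := by
  simp [lev]; ring

def T (j : ℤ) : Af s :=
  ⟨⟨sh j, sh (-j), fun x => by simp [sh_sh, sh_zero], fun x => by simp [sh_sh, sh_zero]⟩,
    fun _ => false, 0, j⟩

@[simp] lemma T_π (j : ℤ) (x : N s) : (T j).π x = sh j x := rfl
@[simp] lemma T_πs (j : ℤ) (x : N s) : (T j).π.symm x = sh (-j) x := rfl
@[simp] lemma T_sg (j : ℤ) (x : N s) : (T j).sg x = false := rfl
@[simp] lemma T_d (j : ℤ) : (T j : Af s).d = 0 := rfl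
@[simp] lemma T_τ (j : ℤ) : (T j : Af s).τ = j := rfl

lemma T_add (i j : ℤ) : (T (i + j) : Af s) = T i * T j := by
  refine Af.ext (Equiv.ext fun x => ?_) (funext fun x => ?_) (funext fun x => ?_) rfl
  · simp [sh_sh]
  · simp
  · simp

lemma T_zero : (T 0 : Af s) = 1 := by
  refine Af.ext (Equiv.ext fun x => ?_) rfl rfl rfl
  simp [sh_zero]

lemma T_inv (j : ℤ) : (T j : Af s)⁻¹ = T (-j) := by
  rw [inv_eq_iff_mul_eq_one, ← T_add, add_neg_cancel, T_zero]

lemma T_g (j : ℤ) (y : N s) : T j * g y * (T j)⁻¹ = g (sh j y) := by
  rw [mul_inv_eq_iff_eq_mul]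
  refine Af.ext (Equiv.ext fun x => ?_) (funext fun x => ?_) (funext fun x => ?_) (by simp)
  · simp only [mul_π, Equiv.Perm.mul_apply, T_π, g_π]
    ext1
    · simp [πf_k]
    · simp [πf_l]
  · simp only [mul_sg, T_sg, g_sg, T_πs, sgf, sh_k, sh_l, Bool.false_xor, Bool.xor_false]
    have e1 : (x.k + -j = y.k) ↔ (x.k = y.k + j) := by omega
    have e2 : (x.k + -j = y.k - 1) ↔ (x.k = y.k + j - 1) := by omega
    simp only [e1, e2]
    rfl
  · have e1 : (sh (-j) x = y) ↔ (x = sh j y) := by
      constructor
      · rintro rfl; simp [sh_sh, sh_zero]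
      · rintro rfl; simp [sh_sh, sh_zero]
    simp [Pi.single_apply, e1]

lemma g_fix {y z : N s} (h : lev y ≤ lev z) : πf y z = z ∧ sgf y z = false := by
  have hk := lev_le_k h
  by_cases e : z.k = y.k
  · have := lev_len h e.symm
    refine ⟨N.ext (πf_k _ _) ?_, ?_⟩
    · rw [πf_l, if_pos e, swp_of_le this]
    · rw [sgf, if_pos e, sgn_of_le this]
  · refine ⟨by rw [πf, if_neg e], ?_⟩
    have : ¬ z.k = y.k - 1 := by omega
    simp [sgf, e, this]

def gs (P : N s × Bool) : Af s := if P.2 then (g P.1)⁻¹ else g P.1

lemma g_conj {y x : N s} (h : lev x ≤ lev y) :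
    g y * g x * (g y)⁻¹ = gs (πf y x, sgf y (πf y x)) := by
  rw [mul_inv_eq_iff_eq_mul]
  have hk := lev_le_k h
  have fx := g_fix (y := πf y x) (z := y) (by rwa [lev_πf])
  have p1 : ∀ z, (gs (πf y x, sgf y (πf y x))).π z = πf (πf y x) z := by
    intro z; unfold gs; split_ifs <;> rfl
  have p2 : ∀ z, (gs (πf y x, sgf y (πf y x))).π.symm z = πf (πf y x) z := by
    intro z; unfold gs; split_ifs <;> rfl
  have p3 : ∀ z, (gs (πf y x, sgf y (πf y x))).sg z =
      if sgf y (πf y x) then sgf (πf y x) (πf (πf y x) z) else sgf (πf y x) z := by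
    intro z; unfold gs; split_ifs <;> rfl
  have p4 : (gs (πf y x, sgf y (πf y x))).d = Pi.single (πf y x) (sv (sgf y (πf y x))) := by
    unfold gs
    have f2 := g_fix (y := πf y x) (z := πf y x) le_rfl
    split_ifs with h1
    · funext z
      simp only at h1
      by_cases hz : z = πf y x
      · subst hz; simp [f2.1, f2.2, h1]
      · have : πf (πf y x) z ≠ πf y x := fun h' => hz (by rw [← πf_πf (πf y x) z, h', f2.1])
        simp [Pi.single_apply, hz, this]
    · simp only [Bool.not_eq_true] at h1
      simp [h1]
  have p5 : (gs (πf y x, sgf y (πf y x))).τ = 0 := by unfold gs; split_ifs <;> simp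
  refine Af.ext (Equiv.ext fun z => ?_) (funext fun z => ?_) ?_ (by simp [p5])
  · simp only [mul_π, Equiv.Perm.mul_apply, g_π, p1]
    ext1
    · simp [πf_k]
    · simp only [πf_l, πf_k]
      by_cases e1 : x.k = y.k
      · by_cases e2 : z.k = y.k
        · simp [e1, e2, L1 (lev_len h e1)]
        · simp [e1, e2]
      · by_cases e2 : z.k = y.k
        · have : ¬ y.k = x.k := fun h => e1 h.symm
          simp [e1, e2, this]
        · simp [e1, e2]
  · rw [mul_sg, mul_sg, p2, p3]
    simp only [g_sg, g_πs, sgf, πf_l, πf_k, πf_len]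
    by_cases e1 : x.k = y.k
    · by_cases e2 : z.k = y.k
      · simp only [e1, e2, if_true]
        exact L2 (lev_len h e1) _
      · simp [e1, e2, Bool.xor_comm, length_swp]
    · by_cases e2 : z.k = y.k
      · have a1 : ¬ y.k = x.k := fun h => e1 h.symm
        have a2 : ¬ y.k = x.k - 1 := by omega
        simp [e1, e2, a1, a2]
      · by_cases e3 : z.k = x.k
        · by_cases e4 : x.k = y.k - 1 ∧ y.l.length = s
          · have := L3 x.l z.l
            have a1 : ¬ y.k - 1 = y.k := by omega
            simp only [e3, e4.1, e4.2, a1, if_true, if_false, decide_true, Bool.true_and]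
            exact this
          · have a1 : (decide (x.k = y.k - 1) && decide (y.l.length = s)) = false := by
              simpa using e4
            simp [e1, e3, a1]
        · simp [e1, e2, e3, Bool.xor_comm]
  · rw [mul_d, mul_d, p4, g_d, g_d, lin_single, lin_single, p1, p3]
    simp [fx.1, fx.2, add_comm]

end Pool.Agent.H.MP_afa6c5_al
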