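import Pool.Agent.H.MP_afa6c5_al.A

set_option autoImplicit false
set_option linter.unusedSimpArgs false

namespace Pool.Agent.H.MP_afa6c5_al

variable {s : ℕ}

def Q (s : ℕ) : Subgroup (Af s) := Subgroup.closure (Set.range g ∪ Set.range T)

lemma g_Q (y : N s) : g y ∈ Q s := Subgroup.subset_closure (Or.inl ⟨y, rfl⟩)
lemma T_Q (j : ℤ) : T j ∈ Q s := Subgroup.subset_closure (Or.inr ⟨j, rfl⟩)

lemma Q_ind (P : Subgroup (Af s)) (h1 : ∀ y, g y ∈ P) (h2 : ∀ j, T j ∈ P) : Q s ≤ P := by
  rw [Q, Subgroup.closure_le]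
  rintro _ (⟨y, rfl⟩ | ⟨j, rfl⟩)
  · exact h1 y
  · exact h2 j

lemma Q_lev {q : Af s} (hq : q ∈ Q s) (x : N s) : lev (q.π x) = lev x + (s + 1) * q.τ := by
  let P : Subgroup (Af s) :=
    { carrier := {q | ∀ x, lev (q.π x) = lev x + (s + 1) * q.τ}
      one_mem' := fun x => by simp
      mul_mem' := by
        intro a b ha hb x
        simp only [mul_π, Equiv.Perm.mul_apply, mul_τ]
        rw [ha, hb]; ring
      inv_mem' := by
        intro a ha x
        have := ha (a.π⁻¹ x)
        simp only [inv_π, inv_τ, Equiv.Perm.coe_inv, Equiv.apply_symm_apply] at this ⊢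
        rw [this]; ring }
  exact Q_ind P (fun y x => by simp [lev_πf]) (fun j x => by simp [lev_sh]) hq x

lemma Q_lev' {q : Af s} (hq : q ∈ Q s) (x : N s) :
    lev (q.π.symm x) = lev x - (s + 1) * q.τ := by
  have := Q_lev hq (q.π.symm x)
  rw [Equiv.apply_symm_apply] at this
  rw [this]; ring

lemma lin_fin (a : Af s) {u : N s → ℤ} (h : (Function.support u).Finite) :
    (Function.support (lin a u)).Finite := by
  refine (h.preimage (f := a.π.symm) a.π.symm.injective.injOn).subset fun x hx => ?_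
  intro h0
  exact hx (by simp [lin, h0])

lemma Q_fin {q : Af s} (hq : q ∈ Q s) : (Function.support q.d).Finite := by
  let P : Subgroup (Af s) :=
    { carrier := {q | (Function.support q.d).Finite}
      one_mem' := by simp
      mul_mem' := by
        intro a b ha hb
        exact (ha.union (lin_fin a hb)).subset (Function.support_add _ _)
      inv_mem' := by
        intro a ha
        refine (Set.Finite.preimage (f := a.π) a.π.injective.injOn ha).subset fun x hx => ?_
        intro h0
        exact hx (by simp [h0]) }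
  exact Q_ind P (fun y => (Set.finite_singleton y).subset Pi.support_single_subset)
    (fun j => by simp [P]) hq

def Fix (k : ℤ) : Subgroup (Af s) where
  carrier := {q | ∀ z, k ≤ lev z → q.π z = z ∧ q.sg z = false}
  one_mem' := fun z _ => ⟨rfl, rfl⟩
  mul_mem' := by
    intro a b ha hb z hz
    have h1 : a.π.symm z = z := by rw [Equiv.symm_apply_eq]; exact (ha z hz).1.symm
    simp [h1, ha z hz, hb z hz]
  inv_mem' := by
    intro a ha z hz
    have h1 : a.π.symm z = z := by rw [Equiv.symm_apply_eq]; exact (ha z hz).1.symm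
    simp [h1, ha z hz]

lemma Fix.symm {k : ℤ} {a : Af s} (ha : a ∈ Fix k) {z : N s} (hz : k ≤ lev z) :
    a.π.symm z = z := by rw [Equiv.symm_apply_eq]; exact (ha z hz).1.symm

def D' (k : ℤ) : Subgroup (Af s) := Subgroup.closure (g '' {x | lev x ≤ k})

lemma g_D' {x : N s} {k : ℤ} (h : lev x ≤ k) : g x ∈ D' k :=
  Subgroup.subset_closure ⟨x, h, rfl⟩

lemma D'_le {k : ℤ} (P : Subgroup (Af s)) (h : ∀ x, lev x ≤ k → g x ∈ P) : D' k ≤ P := by
  rw [D', Subgroup.closure_le]
  rintro _ ⟨x, hx, rfl⟩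
  exact h x hx

lemma D'_Fix (k : ℤ) : (D' k : Subgroup (Af s)) ≤ Fix k :=
  D'_le _ fun _ hx _ hz => g_fix (hx.trans hz)

lemma D'_mono {k m : ℤ} (h : k ≤ m) : (D' k : Subgroup (Af s)) ≤ D' m :=
  D'_le _ fun _ hx => g_D' (hx.trans h)

lemma D'_Q (k : ℤ) : (D' k : Subgroup (Af s)) ≤ Q s := D'_le _ fun x _ => g_Q x

lemma D'_van {k : ℤ} {q : Af s} (hq : q ∈ D' k) : q.τ = 0 ∧ ∀ z, k < lev z → q.d z = 0 := by
  let P : Subgroup (Af s) :=
    { carrier := {q | q ∈ Fix k ∧ q.τ = 0 ∧ ∀ z, k < lev z → q.d z = 0}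
      one_mem' := ⟨one_mem _, rfl, fun _ _ => rfl⟩
      mul_mem' := by
        rintro a b ⟨a1, a2, a3⟩ ⟨b1, b2, b3⟩
        refine ⟨mul_mem a1 b1, by simp [a2, b2], fun z hz => ?_⟩
        simp [Fix.symm a1 hz.le, a3 z hz, b3 z hz]
      inv_mem' := by
        rintro a ⟨a1, a2, a3⟩
        refine ⟨inv_mem a1, by simp [a2], fun z hz => ?_⟩
        simp [(a1 z hz.le).1, a3 z hz] }
  refine (D'_le P (fun x hx => ⟨D'_Fix k (g_D' hx), rfl, fun z hz => ?_⟩) hq).2
  have : z ≠ x := by rintro rfl; omega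
  simp [this]

lemma gs_mem {P : Subgroup (Af s)} {x : N s} (b : Bool) (h : g x ∈ P) : gs (x, b) ∈ P := by
  unfold gs; split_ifs
  · exact inv_mem h
  · exact h

lemma g_conj' {y x : N s} (h : lev x ≤ lev y) : ∃ b, (g y)⁻¹ * g x * g y = gs (πf y x, b) := by
  have := g_conj (y := y) (x := πf y x) (by rwa [lev_πf])
  rw [πf_πf] at this
  cases hb : sgf y x
  · refine ⟨false, ?_⟩
    rw [hb] at this
    simp only [gs, Bool.false_eq_true, if_false] at this ⊢
    rw [← this]; group
  · refine ⟨true, ?_⟩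
    rw [hb] at this
    simp only [gs, if_true] at this ⊢
    rw [← inv_inv (g x), ← this]; group

lemma conj_D' {k : ℤ} (u : Af s) (h : ∀ x, lev x ≤ k → u * g x * u⁻¹ ∈ D' k) {r : Af s}
    (hr : r ∈ D' k) : u * r * u⁻¹ ∈ D' k :=
  D'_le ((D' k).comap (MulAut.conj u).toMonoidHom) h hr

lemma g_comm {x y : N s} (h : lev x = lev y) : g y * g x = g x * g y := by
  have := g_conj (y := y) (x := x) h.le
  obtain ⟨f1, f2⟩ := g_fix (y := y) (z := x) h.ge
  rw [f1, f2, mul_inv_eq_iff_eq_mul] at this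
  exact this

lemma step {m : ℤ} {q : Af s} (hq : q ∈ D' m) (h0 : ∀ z, lev z = m → q.d z = 0) :
    q ∈ D' (m - 1) := by
  classical
  let P : Subgroup (Af s) := Subgroup.closure (g '' {x | lev x = m})
  have PD : P ≤ D' m := Subgroup.closure_mono (Set.image_mono fun x hx => le_of_eq hx)
  letI : CommGroup P := Subgroup.closureCommGroupOfComm (by
    rintro _ ⟨x, hx, rfl⟩ _ ⟨y, hy, rfl⟩
    exact g_comm (hy.trans hx.symm))
  have gP : ∀ x, lev x = m → g x ∈ P := fun x hx => Subgroup.subset_closure ⟨x, hx, rfl⟩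
  let γ : N s → P := fun x => if h : lev x = m then ⟨g x, gP x h⟩ else 1
  let ψ : (N s →₀ ℤ) →+ Additive P :=
    Finsupp.liftAddHom fun x => zmultiplesHom _ (Additive.ofMul (γ x))
  let dP : N s → Additive P →+ ℤ := fun z =>
    { toFun := fun a => if lev z = m then (Additive.toMul a).1.d z else 0
      map_zero' := by simp
      map_add' := by
        intro a b
        split_ifs with hz
        · have a1 := D'_Fix m (PD (Additive.toMul a).2)
          simp [Fix.symm a1 hz.ge, (a1 z hz.ge).2]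
        · simp }
  have c1 : ∀ z n, dP z (ψ n) = if lev z = m then n z else 0 := by
    intro z n
    induction n using Finsupp.induction_linear with
    | zero => simp
    | add f1 f2 h1 h2 => rw [map_add, map_add, h1, h2]; split_ifs <;> simp
    | single x c =>
      simp only [ψ, Finsupp.liftAddHom_apply_single, zmultiplesHom_apply, map_zsmul]
      by_cases hz : lev z = m
      · by_cases hx : lev x = m
        · simp [dP, γ, hz, hx, Pi.single_apply, Finsupp.single_apply, eq_comm]
        · have : x ≠ z := by rintro rfl; exact hx hz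
          simp [dP, γ, hz, hx, this]
      · simp [dP, hz]
  have c2 : ∀ a (ha : a ∈ P), ∃ n : N s →₀ ℤ, (∀ z, lev z ≠ m → n z = 0) ∧
      ψ n = Additive.ofMul ⟨a, ha⟩ := by
    intro a ha
    induction ha using Subgroup.closure_induction with
    | mem a ha =>
      obtain ⟨x, hx, rfl⟩ := ha
      refine ⟨Finsupp.single x 1, fun z hz => ?_, ?_⟩
      · have : x ≠ z := by rintro rfl; exact hz hx
        simp [this]
      · have hx' : lev x = m := hx
        simp [ψ, γ, hx']
    | one => exact ⟨0, by simp, by simp; rfl⟩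
    | mul a b _ _ h1 h2 =>
      obtain ⟨n1, a1, a2⟩ := h1
      obtain ⟨n2, b1, b2⟩ := h2
      exact ⟨n1 + n2, fun z hz => by simp [a1 z hz, b1 z hz], by rw [map_add, a2, b2]; rfl⟩
    | inv a _ h1 =>
      obtain ⟨n1, a1, a2⟩ := h1
      exact ⟨-n1, fun z hz => by simp [a1 z hz], by rw [map_neg, a2]; rfl⟩
  have c3 : ∀ a ∈ P, (∀ z, lev z = m → a.d z = 0) → a = 1 := by
    intro a ha h
    obtain ⟨n, n1, n2⟩ := c2 a ha
    have : n = 0 := by
      ext z
      by_cases hz : lev z = m
      · have := c1 z n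
        rw [n2] at this
        simpa [dP, hz, h z hz] using this.symm
      · exact n1 z hz
    rw [this, map_zero] at n2
    exact (congrArg (fun a => (Additive.toMul a).1) n2).symm
  have nrm : ∀ a ∈ P, (∀ r ∈ D' (m - 1), a * r * a⁻¹ ∈ D' (m - 1)) ∧
      (∀ r ∈ D' (m - 1), a⁻¹ * r * a ∈ D' (m - 1)) := by
    intro a ha
    induction ha using Subgroup.closure_induction with
    | mem a ha =>
      obtain ⟨y, hy, rfl⟩ := ha
      have hy' : lev y = m := hy
      constructor
      · intro r hr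
        refine conj_D' _ (fun x hx => ?_) hr
        rw [g_conj (by omega)]
        exact gs_mem _ (g_D' (by rwa [lev_πf]))
      · intro r hr
        have := conj_D' (g y)⁻¹ (fun x hx => ?_) hr
        · simpa using this
        · obtain ⟨b, hb⟩ := g_conj' (y := y) (x := x) (by omega)
          rw [inv_inv, hb]
          exact gs_mem _ (g_D' (by rwa [lev_πf]))
    | one => simp
    | mul a b _ _ h1 h2 =>
      constructor
      · intro r hr
        simpa [mul_assoc] using h1.1 _ (h2.1 r hr)
      · intro r hr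
        simpa [mul_assoc] using h2.2 _ (h1.2 r hr)
    | inv a _ h1 => exact ⟨by simpa using h1.2, by simpa using h1.1⟩
  let Y : Subgroup (Af s) :=
    { carrier := {q | ∃ r ∈ D' (m - 1), ∃ a ∈ P, q = r * a}
      one_mem' := ⟨1, one_mem _, 1, one_mem _, by simp⟩
      mul_mem' := by
        rintro _ _ ⟨r, hr, a, ha, rfl⟩ ⟨r', hr', a', ha', rfl⟩
        exact ⟨r * (a * r' * a⁻¹), mul_mem hr ((nrm a ha).1 _ hr'), a * a', mul_mem ha ha',
          by group⟩
      inv_mem' := by
        rintro _ ⟨r, hr, a, ha, rfl⟩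
        exact ⟨a⁻¹ * r⁻¹ * a, (nrm a ha).2 _ (inv_mem hr), a⁻¹, inv_mem ha, by group⟩ }
  obtain ⟨r, hr, a, ha, rfl⟩ := D'_le Y (fun x hx => by
    rcases hx.eq_or_lt with h | h
    · exact ⟨1, one_mem _, g x, gP x h, by simp⟩
    · exact ⟨g x, g_D' (by omega), 1, one_mem _, by simp⟩) hq
  have : a = 1 := c3 a ha fun z hz => by
    have h1 := h0 z hz
    have h2 := D'_Fix _ hr
    simpa [(D'_van hr).2 z (by omega), Fix.symm h2 (show m - 1 ≤ lev z by omega),
      (h2 z (by omega)).2] using h1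
  simpa [this] using hr

lemma T_D' (j m : ℤ) {r : Af s} (hr : r ∈ D' m) : T j * r * (T j)⁻¹ ∈ D' (m + (s + 1) * j) :=
  D'_le ((D' (m + (s + 1) * j)).comap (MulAut.conj (T j)).toMonoidHom) (fun x hx => by
    show T j * g x * (T j)⁻¹ ∈ D' _
    rw [T_g]
    exact g_D' (by rw [lev_sh]; omega)) hr

lemma ex_D' {q : Af s} (hq : q ∈ Q s) : ∃ m, q * T (-q.τ) ∈ D' m := by
  let P : Subgroup (Af s) :=
    { carrier := {q | ∃ m, q * T (-q.τ) ∈ D' m}
      one_mem' := ⟨0, by simp [T_zero]⟩
      mul_mem' := by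
        rintro a b ⟨m, ha⟩ ⟨n, hb⟩
        refine ⟨max m (n + (s + 1) * a.τ), ?_⟩
        have := mul_mem (D'_mono (le_max_left m (n + (s + 1) * a.τ)) ha)
          (D'_mono (le_max_right _ _) (T_D' a.τ n hb))
        rw [mul_τ, neg_add_rev, T_add, ← T_inv a.τ] at *
        simpa [mul_assoc] using this
      inv_mem' := by
        rintro a ⟨m, ha⟩
        refine ⟨m + (s + 1) * (-a.τ), ?_⟩
        have := T_D' (-a.τ) m (inv_mem ha)
        rw [inv_τ, neg_neg, ← T_inv a.τ] at *
        simpa [mul_assoc] using this }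
  exact Q_ind P (fun y => ⟨lev y, by simpa [T_zero] using g_D' le_rfl⟩)
    (fun j => ⟨0, by simp [← T_inv]⟩) hq

lemma ex_D'0 {q : Af s} (hq : q ∈ Q s) (h0 : q.τ = 0) : ∃ m, q ∈ D' m := by
  simpa [h0, T_zero] using ex_D' hq

lemma thmF {q : Af s} (hq : q ∈ Q s) (h0 : q.τ = 0) {k : ℤ} (hk : ∀ z, k < lev z → q.d z = 0) :
    q ∈ D' k := by
  obtain ⟨m, hm⟩ := ex_D'0 hq h0
  have key : ∀ n : ℕ, q ∈ D' (k + n) → q ∈ D' k := by
    intro n
    induction n with
    | zero => simp
    | succ n ih =>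
      intro h
      apply ih
      have := step h fun z hz => hk z (by rw [hz]; push_cast; omega)
      rwa [show k + ((n + 1 : ℕ) : ℤ) - 1 = k + n by push_cast; ring] at this
  exact key (m - k).toNat (D'_mono (by omega) hm)

lemma thmF0 {q : Af s} (hq : q ∈ Q s) (h0 : q.τ = 0) (hd : q.d = 0) : q = 1 := by
  have : ∀ z, q.π z = z ∧ q.sg z = false := fun z =>
    D'_Fix _ (thmF hq h0 (k := lev z) fun z _ => by simp [hd]) z le_rfl
  exact Af.ext (Equiv.ext fun z => (this z).1) (funext fun z => (this z).2) hd h0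

lemma H_ind (P : Subgroup (Af s)) (h : ∀ x, g x ∈ P) {q : Af s} (hq : q ∈ Q s) (h0 : q.τ = 0) :
    q ∈ P := by
  obtain ⟨m, hm⟩ := ex_D'0 hq h0
  exact D'_le P (fun x _ => h x) hm

/-! ### inverting elements -/

lemma sq_π (p : N s) : (g p * g p).π = 1 := Equiv.ext fun z => πf_πf p z

lemma sq_sg (p z : N s) : (g p * g p).sg z = (decide (z.k = p.k) && iv p.l z.l) := by
  simp only [mul_sg, g_sg, g_πs, sgf, πf_k, πf_l]
  by_cases h : z.k = p.k
  · simp [h, iv_eq]
  · simp [h]

lemma inv_child {p x : N s} (b : Bool) (hk : x.k = p.k) (hl : x.l = p.l ++ [b]) :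
    (g p * g p) * g x * (g p * g p)⁻¹ = (g x)⁻¹ := by
  have h1 : lev x ≤ lev p := by simp [lev, hk, hl]; omega
  have c1 := g_conj h1
  have c2 := g_conj (y := p) (x := πf p x) (by rwa [lev_πf])
  rw [πf_πf] at c2
  have e1 : sgf p x = !b := by rw [sgf, if_pos hk, hl, sgn_child]
  have e2 : sgf p (πf p x) = b := by
    rw [sgf, πf_k, if_pos hk, πf_l, if_pos hk, hl, swp_child, sgn_child, Bool.not_not]
  rw [e2] at c1
  rw [e1] at c2
  calc (g p * g p) * g x * (g p * g p)⁻¹ = g p * (g p * g x * (g p)⁻¹) * (g p)⁻¹ := by group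
    _ = (g x)⁻¹ := by
      rw [c1]
      cases b
      · simpa [gs] using c2
      · simp only [gs, if_true, Bool.not_true, Bool.false_eq_true, if_false] at c2 ⊢
        rw [← c2]; group

lemma inv_root {y x : N s} (hy : y.l.length = s) (hk : x.k = y.k - 1) (hl : ones x.l = true) :
    g y * g x * (g y)⁻¹ = (g x)⁻¹ := by
  have h1 : lev x ≤ lev y := (lev_lt (by omega)).le
  have e : ¬ x.k = y.k := by omega
  have e1 : πf y x = x := by rw [πf, if_neg e]
  rw [g_conj h1, e1, sgf, if_neg e]
  simp [gs, hk, hy, hl]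

def bot (s : ℕ) (k : ℤ) : N s := ⟨k, List.replicate s false, by simp⟩

lemma bot_π (k : ℤ) : (g (bot s k)).π = 1 := Equiv.ext fun z => by
  ext1
  · simp [πf_k]
  · simp only [g_π, πf_l]
    split_ifs
    · exact swp_of_le (by simpa [bot] using z.h)
    · rfl

lemma bot_sg (k : ℤ) (z : N s) : (g (bot s k)).sg z = (decide (z.k = k - 1) && ones z.l) := by
  simp only [g_sg, sgf]
  split_ifs with h
  · have : ¬ z.k = k - 1 := by simp only [bot] at h; omega
    rw [sgn_of_le (by simpa [bot] using z.h)]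
    simp [this]
  · simp [bot]; rfl

lemma ex_inv (x : N s) : ∃ h ∈ Q s, h.τ = 0 ∧ h.π = 1 ∧ h.sg x = true ∧
    (∀ z, z.k ≠ x.k → h.sg z = false) ∧ h * g x * h⁻¹ = (g x)⁻¹ := by
  rcases List.eq_nil_or_concat x.l with h | ⟨p, b, h⟩
  · refine ⟨g (bot s (x.k + 1)), g_Q _, rfl, bot_π _, ?_, fun z hz => ?_, ?_⟩
    · rw [bot_sg]; simp [h, ones]
    · rw [bot_sg]; simp [hz]
    · exact inv_root (by simp [bot]) (by simp [bot]) (by simp [h, ones])
  · rw [List.concat_eq_append] at h
    have hl : p.length ≤ s := by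
      have := x.h
      rw [h] at this
      simp at this; omega
    refine ⟨g ⟨x.k, p, hl⟩ * g ⟨x.k, p, hl⟩, mul_mem (g_Q _) (g_Q _), rfl, sq_π _, ?_,
      fun z hz => ?_, inv_child b rfl h⟩
    · rw [sq_sg]; simp [h, iv_child]
    · rw [sq_sg]; simp [hz]

lemma ex_sep {x x' : N s} (h : x ≠ x') : ∃ h ∈ Q s, h.π = 1 ∧ h.sg x ≠ h.sg x' := by
  by_cases hk : x'.k = x.k
  · rcases sep_list (l := x.l) (l' := x'.l) (fun e => h (N.ext hk.symm e)) with h1 | ⟨p, h1⟩
    · refine ⟨g (bot s (x.k + 1)), g_Q _, bot_π _, ?_⟩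
      rw [bot_sg, bot_sg]; simpa [hk] using h1
    · have hl : p.length ≤ s := by
        cases h2 : iv p x.l
        · have : iv p x'.l = true := by simpa [h2] using h1
          exact (iv_len this).le.trans x'.h
        · exact (iv_len h2).le.trans x.h
      refine ⟨g ⟨x.k, p, hl⟩ * g ⟨x.k, p, hl⟩, mul_mem (g_Q _) (g_Q _), sq_π _, ?_⟩
      rw [sq_sg, sq_sg]; simpa [hk] using h1
  · obtain ⟨h, h1, -, h2, h3, h4, -⟩ := ex_inv x
    exact ⟨h, h1, h2, by rw [h3, h4 x' hk]; simp⟩

def trans (w : N s → ℤ) : Af s := ⟨1, fun _ => false, w, 0⟩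

lemma trans_add (u w : N s → ℤ) : trans (u + w) = trans u * trans w := by
  refine Af.ext (by simp [trans]) (funext fun z => by simp [trans]) (funext fun z => ?_) rfl
  simp [trans, symm_one]

lemma trans_zero : trans (0 : N s → ℤ) = 1 := rfl

lemma trans_neg (u : N s → ℤ) : trans (-u) = (trans u)⁻¹ := by
  rw [eq_inv_iff_mul_eq_one, ← trans_add, neg_add_cancel, trans_zero]

lemma trans_zsmul (c : ℤ) (u : N s → ℤ) : trans (c • u) = trans u ^ c := by
  induction c using Int.induction_on with
  | zero => simp [trans_zero]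
  | succ k ih => rw [add_smul, trans_add, ih, one_smul, zpow_add_one]
  | pred k ih => rw [sub_smul, sub_eq_add_neg, trans_add, ih, one_smul, trans_neg, zpow_sub_one]

lemma conj_trans (a : Af s) (u : N s → ℤ) : a * trans u * a⁻¹ = trans (lin a u) := by
  rw [mul_inv_eq_iff_eq_mul]
  refine Af.ext (by simp [trans]) (funext fun z => by simp [trans, symm_one])
    (funext fun z => ?_) (by simp [trans])
  simp [trans, symm_one, lin, add_comm]

lemma g_four (y : N s) : g y ^ 4 = trans (Pi.single y 4) := by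
  have f := g_fix (y := y) (z := y) le_rfl
  have e : g y ^ 4 = (g y * g y) * (g y * g y) := by
    simp only [pow_succ, pow_zero, one_mul, mul_assoc]
  have d2 : (g y * g y).d = Pi.single y 2 := by
    rw [mul_d, g_d, lin_single, g_π, f.1, g_sg, f.2, ← Pi.single_add]; rfl
  rw [e]
  refine Af.ext (by rw [mul_π, sq_π]; rfl) (funext fun z => ?_) ?_ rfl
  · rw [mul_sg, sq_π, symm_one]; simp [trans]
  · rw [mul_d, d2, lin_single, sq_π]
    have : (g y * g y).sg y = false := by simp [f.1, f.2]
    simp only [Equiv.Perm.one_apply, this, ← Pi.single_add]; rfl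

theorem thmQ4 (L : Subgroup (Af s)) (hn : ∀ q ∈ Q s, ∀ a ∈ L, q * a * q⁻¹ ∈ L)
    (hi : ∀ q ∈ Q s, ∀ m : ℕ, 0 < m → q ^ m ∈ L → q ∈ L) {a : Af s} (haQ : a ∈ Q s)
    (ha : a ∈ L) (ha1 : a ≠ 1) (x : N s) : g x ∈ L := by
  classical
  have s1 : ∃ w : N s → ℤ, (Function.support w).Finite ∧ w ≠ 0 ∧ trans w ∈ L := by
    by_cases h : ∀ y, a.π y = y ∧ a.sg y = false
    · have h0 : a.τ = 0 := by
        have := Q_lev haQ x
        rw [(h x).1] at this
        have h2 : ((s : ℤ) + 1) * a.τ = 0 := by linarith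
        exact (mul_eq_zero.mp h2).resolve_left (by positivity)
      have e : a = trans a.d :=
        Af.ext (Equiv.ext fun z => (h z).1) (funext fun z => (h z).2) rfl h0
      refine ⟨a.d, Q_fin haQ, fun h1 => ha1 (by rw [e, h1]; rfl), e ▸ ha⟩
    · push Not at h
      obtain ⟨y, hy⟩ := h
      refine ⟨lin a (Pi.single y 4) + -Pi.single y 4, ?_, fun h1 => ?_, ?_⟩
      · refine ((lin_fin a ((Set.finite_singleton y).subset Pi.support_single_subset)).union
          ((Set.finite_singleton y).subset ?_)).subset (Function.support_add _ _)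
        rw [Function.support_neg]; exact Pi.support_single_subset
      · have := congrFun h1 y
        rw [lin_single] at this
        by_cases h2 : a.π y = y
        · have h3 : a.sg y = true := by simpa using hy h2
          simp [h2, h3] at this
        · simp [Pi.single_apply, Ne.symm h2] at this
      · rw [trans_add, trans_neg, ← conj_trans]
        have := mul_mem ha (hn _ (g_four y ▸ pow_mem (g_Q y) 4) _ (inv_mem ha))
        simpa [mul_assoc] using this
  have s2 : ∀ S : Finset (N s), ∀ w : N s → ℤ, (∀ z, w z ≠ 0 → z ∈ S) → w ≠ 0 → trans w ∈ L →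
      ∃ y, g y ∈ L := by
    intro S
    induction S using Finset.strongInduction with
    | H S ih =>
      intro w hw hw0 hL
      obtain ⟨y, hy⟩ := Function.ne_iff.mp hw0
      by_cases h : ∀ z, w z ≠ 0 → z = y
      · refine ⟨y, hi _ (g_Q y) (4 * (w y).natAbs) (by have := Int.natAbs_pos.mpr hy; omega) ?_⟩
        have e : (4 : ℤ) • w = w y • Pi.single y 4 := by
          funext z
          by_cases hz : z = y
          · subst hz; simp [mul_comm]
          · have : w z = 0 := by by_contra hc; exact hz (h z hc)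
            simp [this, hz]
        have h1 := zpow_mem hL 4
        rw [← trans_zsmul, e, trans_zsmul, ← g_four] at h1
        rw [pow_mul]
        rcases Int.natAbs_eq (w y) with h2 | h2
        · rw [h2, zpow_natCast] at h1; exact h1
        · rw [h2, zpow_neg, zpow_natCast] at h1; simpa using inv_mem h1
      · push Not at h
        obtain ⟨y', hy', hne⟩ := h
        have key : ∀ u u' : N s, w u ≠ 0 → w u' ≠ 0 → ∀ h ∈ Q s, h.π = 1 → h.sg u = true →
            h.sg u' = false → ∃ y, g y ∈ L := by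
          intro u u' h1 h2 h hQ hπ h3 h4
          refine ih (S.erase u) (Finset.erase_ssubset (hw u h1)) (w + lin h w) (fun z hz => ?_)
            (fun h5 => ?_) ?_
          · rw [Finset.mem_erase]
            constructor
            · rintro rfl; simp [lin, hπ, symm_one, h3] at hz
            · apply hw; intro h6; simp [lin, hπ, symm_one, h6] at hz
          · have := congrFun h5 u'
            simp [lin, hπ, symm_one, h4] at this
            exact h2 this
          · rw [trans_add, ← conj_trans]; exact mul_mem hL (hn _ hQ _ hL)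
        obtain ⟨h, hQ, hπ, hs⟩ := ex_sep hne
        cases h3 : h.sg y'
        · exact key y y' hy hy' h hQ hπ (by simpa [h3] using hs) h3
        · exact key y' y hy' hy h hQ hπ h3 (by simpa [h3] using hs)
  obtain ⟨w, w1, w2, w3⟩ := s1
  obtain ⟨y, hy⟩ := s2 w1.toFinset w (fun z hz => by simpa using hz) w2 w3
  have down : ∀ (h : Af s) (z : N s), h ∈ L → h * g z * h⁻¹ = (g z)⁻¹ → g z ∈ L := by
    intro h z h1 h2
    refine hi _ (g_Q z) 2 (by norm_num) ?_
    have := mul_mem (hn _ (g_Q z) _ h1) (inv_mem h1)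
    have e : g z * h * (g z)⁻¹ * h⁻¹ = g z * (h * g z * h⁻¹)⁻¹ := by group
    rwa [e, h2, inv_inv, ← pow_two] at this
  have toroot : ∀ n : ℕ, ∀ y : N s, y.l.length + n = s → g y ∈ L →
      g ⟨y.k - 1, [], by simp⟩ ∈ L := by
    intro n
    induction n with
    | zero => exact fun y h1 h2 => down _ _ h2 (inv_root h1 rfl rfl)
    | succ n ih =>
      intro y h1 h2
      exact ih ⟨y.k, y.l ++ [false], by simp; omega⟩ (by simp; omega)
        (down _ _ (mul_mem h2 h2) (inv_child false rfl rfl))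
  have r1 := toroot (s - y.l.length) y (by have := y.h; omega) hy
  have r2 := hn _ (T_Q (x.k - (y.k - 1))) _ r1
  rw [T_g] at r2
  have all : ∀ (l : List Bool) (h : l.length ≤ s), g ⟨x.k, l, h⟩ ∈ L := by
    intro l
    induction l using List.reverseRecOn with
    | nil => intro h; convert r2 using 2; ext1 <;> simp
    | append_singleton l b ih =>
      intro h
      have := ih (by simp at h; omega)
      exact down _ _ (mul_mem this this) (inv_child b rfl rfl)
  exact all x.l x.h

end Pool.Agent.H.MP_afa6c5_al
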