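import Pool.Agent.H.MP_afa6c5_al.B

set_option autoImplicit false
set_option linter.unusedSimpArgs false

namespace Pool.Agent.H.MP_afa6c5_al

open scoped commutatorElement

variable {s : ℕ}

def sa (q : Af s) (Z : N s × Bool) : N s × Bool := (q.π Z.1, xor Z.2 (q.sg (q.π Z.1)))

lemma sa_mul (a b : Af s) (Z : N s × Bool) : sa (a * b) Z = sa a (sa b Z) := by
  simp only [sa, mul_π, Equiv.Perm.mul_apply, mul_sg, Equiv.symm_apply_apply, Prod.mk.injEq,
    true_and]
  cases Z.2 <;> cases a.sg (a.π (b.π Z.1)) <;> cases b.sg (b.π Z.1) <;> rfl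

lemma sa_one (Z : N s × Bool) : sa 1 Z = Z := by simp [sa]

lemma sa_inv (a : Af s) (Z : N s × Bool) : sa a (sa a⁻¹ Z) = Z := by
  rw [← sa_mul, mul_inv_cancel, sa_one]

lemma sa_inv' (a : Af s) (Z : N s × Bool) : sa a⁻¹ (sa a Z) = Z := by
  rw [← sa_mul, inv_mul_cancel, sa_one]

lemma gs_Q (P : N s × Bool) : gs P ∈ Q s := gs_mem P.2 (g_Q P.1)

lemma gs_τ (P : N s × Bool) : (gs P).τ = 0 := by unfold gs; split_ifs <;> simp

lemma sa_fix {k : ℤ} {a : Af s} (ha : a ∈ Fix k) {Z : N s × Bool} (hz : k ≤ lev Z.1) :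
    sa a Z = Z := by
  simp [sa, ha _ hz]

lemma gs_conj {y : N s} {P : N s × Bool} (h : lev P.1 ≤ lev y) :
    g y * gs P * (g y)⁻¹ = gs (sa (g y) P) := by
  have := g_conj h
  obtain ⟨x, b⟩ := P
  cases b
  · simpa [gs, sa] using this
  · simp only [gs, sa, if_true, g_π, g_sg] at this ⊢
    have e : g y * (g x)⁻¹ * (g y)⁻¹ = (g y * g x * (g y)⁻¹)⁻¹ := by group
    rw [e, this]
    cases sgf y (πf y x) <;> simp

lemma invL {q : Af s} (hq : q ∈ Q s) (P Z : N s × Bool) (h : lev Z.1 + 1 = lev P.1) :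
    sa q (sa (gs P) Z) = sa (gs (sa q P)) (sa q Z) := by
  let Y : Subgroup (Af s) :=
    { carrier := {q | q ∈ Q s ∧ ∀ P Z : N s × Bool, lev Z.1 + 1 = lev P.1 →
        sa q (sa (gs P) Z) = sa (gs (sa q P)) (sa q Z)}
      one_mem' := ⟨one_mem _, fun P Z _ => by simp [sa_one]⟩
      mul_mem' := by
        rintro a b ⟨a1, a2⟩ ⟨b1, b2⟩
        refine ⟨mul_mem a1 b1, fun P Z h => ?_⟩
        rw [sa_mul, sa_mul, sa_mul, b2 P Z h, a2]
        simp only [sa, Q_lev b1]; omega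
      inv_mem' := by
        rintro a ⟨a1, a2⟩
        refine ⟨inv_mem a1, fun P Z h => ?_⟩
        have := a2 (sa a⁻¹ P) (sa a⁻¹ Z) (by simp only [sa, Q_lev (inv_mem a1)]; omega)
        rw [sa_inv, sa_inv] at this
        rw [← this, sa_inv'] }
  refine (Q_ind Y (fun y => ⟨g_Q y, fun P Z h => ?_⟩) (fun j => ⟨T_Q j, fun P Z h => ?_⟩)
    hq).2 P Z h
  · by_cases h1 : lev P.1 ≤ lev y
    · rw [← gs_conj h1, ← sa_mul, ← sa_mul]; simp
    · have f : g y ∈ Fix (lev y) := D'_Fix _ (g_D' le_rfl)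
      rw [sa_fix f (Z := P) (by omega), sa_fix f (Z := Z) (by omega), sa_fix f]
      simp only [sa, Q_lev (gs_Q P), gs_τ]; omega
  · have : T j * gs P * (T j)⁻¹ = gs (sa (T j) P) := by
      have := T_g j P.1
      obtain ⟨x, b⟩ := P
      cases b
      · simpa [gs, sa] using this
      · simp only [gs, sa, if_true, T_π, T_sg, Bool.xor_false] at this ⊢
        rw [← this]; group
    rw [← this, ← sa_mul, ← sa_mul]; simp

def Zj (j : ℕ) : Subgroup (Af s) where
  carrier := {q | q.τ = 0 ∧ ∀ Z : N s × Bool, Z.1.l.length < j → sa q Z = Z}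
  one_mem' := ⟨rfl, fun Z _ => sa_one Z⟩
  mul_mem' := by
    rintro a b ⟨a1, a2⟩ ⟨b1, b2⟩
    exact ⟨by simp [a1, b1], fun Z h => by rw [sa_mul, b2 Z h, a2 Z h]⟩
  inv_mem' := by
    rintro a ⟨a1, a2⟩
    exact ⟨by simp [a1], fun Z h => by rw [← a2 Z h, sa_inv', a2 Z h]⟩

lemma comm_at {j : ℕ} {a b : Af s} (aQ : a ∈ Q s) (bQ : b ∈ Q s) (ha : a ∈ Zj j)
    (hb : b ∈ Zj j) (Z : N s × Bool) (hZ : Z.1.l.length = j) :
    sa a (sa b Z) = sa b (sa a Z) := by
  have lv : ∀ c ∈ Q s, c ∈ Zj j → ∀ Z : N s × Bool,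
      (sa c Z).1.k = Z.1.k ∧ (sa c Z).1.l.length = Z.1.l.length := fun c h1 h2 Z =>
    lev_inj (by simp [sa, Q_lev h1, h2.1])
  rcases List.eq_nil_or_concat Z.1.l with h | ⟨pl, c, h⟩
  · have r : ∀ c ∈ Q s, c ∈ Zj j → c.π Z.1 = Z.1 := fun c h1 h2 => by
      obtain ⟨e1, e2⟩ := lv c h1 h2 Z
      refine N.ext e1 ?_
      rw [h] at e2 ⊢
      exact List.length_eq_zero_iff.mp e2
    simp only [sa, r a aQ ha, r b bQ hb, Prod.mk.injEq, true_and]
    cases Z.2 <;> cases a.sg Z.1 <;> cases b.sg Z.1 <;> rfl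
  · rw [List.concat_eq_append] at h
    have hl : pl.length + 1 ≤ s := by
      have := Z.1.h
      rw [h] at this
      simpa using this
    let p : N s := ⟨Z.1.k, pl, by omega⟩
    let Z0 : N s × Bool := (⟨Z.1.k, pl ++ [false], by simpa using hl⟩, false)
    have hj : j = pl.length + 1 := by rw [← hZ, h]; simp
    have cm : ∀ c ∈ Q s, c ∈ Zj j → ∀ W : N s × Bool, lev W.1 = lev Z0.1 →
        sa c (sa (g p) W) = sa (g p) (sa c W) := by
      intro c h1 h2 W hW
      have := invL h1 (p, false) W (by rw [hW]; simp [lev, p, Z0]; ring)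
      rw [h2.2 (p, false) (by simp [p, hj])] at this
      exact this
    have cmn : ∀ c ∈ Q s, c ∈ Zj j → ∀ i : ℕ,
        sa c (sa (g p ^ i) Z0) = sa (g p ^ i) (sa c Z0) := by
      intro c h1 h2 i
      induction i with
      | zero => simp [sa_one]
      | succ i ih =>
        rw [pow_succ', sa_mul, sa_mul, cm c h1 h2, ih]
        have : (g p ^ i).τ = 0 := (D'_van (pow_mem (g_D' (le_refl (lev p))) i)).1
        simp [sa, Q_lev (pow_mem (g_Q p) i), this]
    have J : ∀ (c e : Bool), sa (g p) (⟨Z.1.k, pl ++ [c], by simpa using hl⟩, e) =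
        (⟨Z.1.k, pl ++ [!c], by simpa using hl⟩, xor e c) := by
      intro c e
      have e1 : πf p ⟨Z.1.k, pl ++ [c], by simpa using hl⟩ =
          ⟨Z.1.k, pl ++ [!c], by simpa using hl⟩ := by
        ext1
        · simp [πf_k]
        · simp [πf_l, p, swp_child]
      simp only [sa, g_π, g_sg, e1, sgf, p, if_true, sgn_child, Bool.not_not]
    have orb : ∀ W : N s × Bool, W.1.k = Z.1.k → (∃ c, W.1.l = pl ++ [c]) →
        ∃ i : ℕ, W = sa (g p ^ i) Z0 := by
      rintro ⟨⟨k, l, hh⟩, e⟩ rfl ⟨c, rfl⟩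
      cases c <;> cases e
      · exact ⟨0, by simp [sa_one, Z0]⟩
      · exact ⟨2, by simp [pow_succ, sa_mul, Z0, J]⟩
      · exact ⟨1, by simp [pow_succ, sa_mul, Z0, J]⟩
      · exact ⟨3, by simp [pow_succ, sa_mul, Z0, J]⟩
    have im : ∀ c ∈ Q s, c ∈ Zj j → ∃ i : ℕ, sa c Z0 = sa (g p ^ i) Z0 := by
      intro c h1 h2
      obtain ⟨e1, e2⟩ := lv c h1 h2 Z0
      refine orb _ e1 (iv_exact ?_ (by rw [e2]; simp [Z0]))
      have a1 := cmn c h1 h2 2
      have a2 : sa (g p ^ 2) Z0 = (Z0.1, true) := by simp [pow_succ, sa_mul, Z0, J]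
      rw [a2, pow_two] at a1
      have a3 := congrArg Prod.snd a1
      simp only [sa, sq_π, Equiv.Perm.one_apply, sq_sg] at a3 e1 ⊢
      simp only [Z0, p] at a3 e1 ⊢
      rw [e1] at a3
      revert a3
      cases c.sg _ <;> cases iv pl _ <;> simp
    obtain ⟨m, hm⟩ := orb Z rfl ⟨c, h⟩
    obtain ⟨i, hi⟩ := im a aQ ha
    obtain ⟨i', hi'⟩ := im b bQ hb
    have ev : ∀ c ∈ Q s, c ∈ Zj j → ∀ i : ℕ, sa c Z0 = sa (g p ^ i) Z0 → ∀ m : ℕ,
        sa c (sa (g p ^ m) Z0) = sa (g p ^ (m + i)) Z0 := by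
      intro c h1 h2 i h3 m
      rw [cmn c h1 h2, h3, ← sa_mul, ← pow_add]
    rw [hm, ev b bQ hb i' hi', ev a aQ ha i hi, ev a aQ ha i hi, ev b bQ hb i' hi',
      add_right_comm]

def Dd (s j : ℕ) : Subgroup (Af s) := (derivedSeries (Q s) j).map (Q s).subtype

lemma Dd_succ (j : ℕ) : Dd s (j + 1) = ⁅Dd s j, Dd s j⁆ := by
  rw [Dd, derivedSeries_succ, Subgroup.map_commutator]; rfl

lemma Dd_Q (j : ℕ) : Dd s j ≤ Q s := Subgroup.map_subtype_le _

lemma Dd_zero : Dd s 0 = Q s := by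
  rw [Dd, derivedSeries_zero, ← MonoidHom.range_eq_map, Subgroup.range_subtype]

lemma Dd_Z (j : ℕ) : Dd s (j + 1) ≤ Zj j := by
  induction j with
  | zero =>
    rw [Dd_succ, Subgroup.commutator_le]
    intro a _ b _
    exact ⟨by simp [commutatorElement_def], fun Z h => absurd h (by simp)⟩
  | succ j ih =>
    rw [Dd_succ, Subgroup.commutator_le]
    intro a ha b hb
    have h1 : ⁅a, b⁆ ∈ Zj j :=
      mul_mem (mul_mem (mul_mem (ih ha) (ih hb)) (inv_mem (ih ha))) (inv_mem (ih hb))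
    refine ⟨h1.1, fun Z hZ => ?_⟩
    rcases (Nat.lt_succ_iff.mp hZ).eq_or_lt with h | h
    · have := comm_at (inv_mem (Dd_Q _ ha)) (inv_mem (Dd_Q _ hb)) (inv_mem (ih ha))
        (inv_mem (ih hb)) Z h
      rw [commutatorElement_def, sa_mul, sa_mul, sa_mul, this, sa_inv, sa_inv]
    · exact h1.2 Z h

theorem upper : derivedSeries (Q s) (s + 3) = ⊥ := by
  have tr : ∀ a ∈ Dd s (s + 2), a = trans a.d := by
    intro a ha
    have h := Dd_Z _ ha
    have h2 : ∀ z, a.π z = z ∧ a.sg z = false := fun z => by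
      have := h.2 (z, false) (by have := z.h; simp; omega)
      simp only [sa, Prod.mk.injEq, Bool.false_xor] at this
      exact ⟨this.1, this.1 ▸ this.2⟩
    exact Af.ext (Equiv.ext fun z => (h2 z).1) (funext fun z => (h2 z).2) rfl h.1
  have : Dd s (s + 3) = ⊥ := by
    rw [Dd_succ, eq_bot_iff, Subgroup.commutator_le]
    intro a ha b hb
    rw [Subgroup.mem_bot, commutatorElement_eq_one_iff_mul_comm, tr a ha, tr b hb,
      ← trans_add, ← trans_add, add_comm]
  exact (Subgroup.map_eq_bot_iff_of_injective _ (Q s).subtype_injective).mp this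

def sub (j : ℕ) (z : N s) : Prop := z.k = 0 ∧ ∃ w, z.l = List.replicate j false ++ w

def Pres (j : ℕ) : Subgroup (Af s) where
  carrier := {v | ∀ z, sub j z ↔ sub j (v.π z)}
  one_mem' := fun _ => Iff.rfl
  mul_mem' := fun {a b} ha hb z => (hb z).trans (ha _)
  inv_mem' := fun {a} ha z => by
    have := ha (a.π⁻¹ z)
    simpa using this.symm

def Nj (j : ℕ) : Subgroup (Af s) where
  carrier := {q | ∀ z, sub j z → q.π z = z ∧ q.sg z = false ∧ q.d z = 0}
  one_mem' := fun _ _ => ⟨rfl, rfl, rfl⟩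
  mul_mem' := by
    intro a b ha hb z hz
    have h1 : a.π.symm z = z := by rw [Equiv.symm_apply_eq]; exact (ha z hz).1.symm
    simp [h1, ha z hz, hb z hz]
  inv_mem' := by
    intro a ha z hz
    have h1 : a.π.symm z = z := by rw [Equiv.symm_apply_eq]; exact (ha z hz).1.symm
    simp [h1, ha z hz]

lemma Nj_Pres (j : ℕ) : (Nj j : Subgroup (Af s)) ≤ Pres j := by
  intro a ha z
  constructor
  · intro h; rw [(ha z h).1]; exact h
  · intro h
    have := (ha _ h).1
    rw [a.π.injective this] at h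
    exact h

lemma Nj_conj {j : ℕ} {v n : Af s} (hv : v ∈ Pres j) (hn : n ∈ Nj j) : v * n * v⁻¹ ∈ Nj j := by
  intro z hz
  have h1 : sub j (v.π.symm z) := (hv _).2 (by simpa using hz)
  obtain ⟨a1, a2, a3⟩ := hn _ h1
  have a4 : n.π.symm (v.π.symm z) = v.π.symm z := by rw [Equiv.symm_apply_eq]; exact a1.symm
  refine ⟨by simp [a1], by simp [symm_mul, a2, a4], ?_⟩
  simp only [mul_d', mul_sg, mul_π, symm_mul, a2, a3, a4, inv_d, Equiv.apply_symm_apply,
    Bool.xor_false]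
  have := sv_sq (v.sg z)
  linear_combination (-v.d z) * this

lemma Nj_mono (j : ℕ) : (Nj j : Subgroup (Af s)) ≤ Nj (j + 1) := by
  rintro a ha z ⟨h1, w, h2⟩
  exact ha z ⟨h1, false :: w, by rw [h2, List.replicate_succ']; simp⟩

def Mem (j i : ℕ) (v : Af s) : Prop := ∃ a ∈ Dd s (j + 1), ∃ n ∈ Nj i, v = a * n

lemma Mem.comm {j : ℕ} {u v : Af s} (hu : Mem j j u) (hv : Mem j j v) (pu : u ∈ Pres j)
    (pv : v ∈ Pres j) : Mem (j + 1) j ⁅u, v⁆ := by
  obtain ⟨a, ha, n, hn, rfl⟩ := hu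
  obtain ⟨b, hb, m, hm, rfl⟩ := hv
  have pa : a ∈ Pres j := by simpa using mul_mem pu (inv_mem (Nj_Pres j hn))
  have pb : b ∈ Pres j := by simpa using mul_mem pv (inv_mem (Nj_Pres j hm))
  refine ⟨⁅a, b⁆, by rw [Dd_succ]; exact Subgroup.commutator_mem_commutator ha hb,
    ⁅a, b⁆⁻¹ * ⁅a * n, b * m⁆, ?_, by group⟩
  have e : ⁅a, b⁆⁻¹ * ⁅a * n, b * m⁆ =
      (b * a) * ((b⁻¹ * n * b⁻¹⁻¹) * m * n⁻¹ * (a⁻¹ * m⁻¹ * a⁻¹⁻¹)) * (b * a)⁻¹ := by
    simp only [commutatorElement_def]; group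
  rw [e]
  exact Nj_conj (mul_mem pb pa) (mul_mem (mul_mem (mul_mem (Nj_conj (inv_mem pb) hn) hm)
    (inv_mem hn)) (Nj_conj (inv_mem pa) (inv_mem hm)))

lemma g_Pres {j : ℕ} {y : N s} (hy : sub j y) : g y ∈ Pres j := by
  have key : ∀ z, sub j z → sub j (πf y z) := by
    rintro z ⟨h1, w, h2⟩
    obtain ⟨h3, w', h4⟩ := hy
    refine ⟨by rw [πf_k, h1], swp w' w, ?_⟩
    rw [πf_l, if_pos (h1.trans h3.symm), h2, h4, swp_append]
  intro z
  exact ⟨key z, fun h => by simpa [πf_πf] using key _ h⟩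

lemma g_N0 {y : N s} (hy : y.k < 0) : g y ∈ Nj 0 := by
  rintro z ⟨h1, -⟩
  have h := g_fix (y := y) (z := z) (lev_lt (by omega)).le
  have : z ≠ y := by rintro rfl; omega
  simp [h.1, h.2, this]

theorem lower : derivedSeries (Q s) (s + 2) ≠ ⊥ := by
  have base : ∀ (y : N s) (i : ℤ), y.k + i < 0 → Mem 0 0 (g y) := by
    intro y i hi
    refine ⟨⁅g y, T i⁆, ?_, g (sh i y), g_N0 hi, ?_⟩
    · rw [Dd_succ, Dd_zero]; exact Subgroup.commutator_mem_commutator (g_Q _) (T_Q _)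
    · rw [← T_g, commutatorElement_def]; group
  have claim : ∀ j (hj : j ≤ s), (∀ y : N s, sub j y → Mem j j (g y)) ∧
      ∃ h, Mem j j h ∧ h ∈ Pres j ∧
        h * g ⟨0, List.replicate j false, by simpa using hj⟩ * h⁻¹ =
          (g ⟨0, List.replicate j false, by simpa using hj⟩)⁻¹ := by
    intro j
    induction j with
    | zero =>
      intro hj
      refine ⟨fun y hy => base y (-1) (by rw [hy.1]; norm_num), g (bot s 1),
        base _ (-2) (by simp [bot]), fun z => by rw [bot_π]; rfl,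
        inv_root (by simp [bot]) (by simp [bot]) rfl⟩
    | succ j ih =>
      intro hj
      obtain ⟨i1, h, i2, i3, i4⟩ := ih (by omega)
      set p : N s := ⟨0, List.replicate j false, by simp; omega⟩ with hp
      have sp : sub j p := ⟨rfl, [], by simp [p]⟩
      refine ⟨fun y hy => ?_, g p * g p, ?_, fun z => by rw [sq_π]; rfl,
        inv_child false rfl (by simp [p, List.replicate_succ'])⟩
      · obtain ⟨y1, w, y2⟩ := hy
        rw [List.replicate_succ', List.append_assoc, List.singleton_append] at y2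
        have sy : sub j y := ⟨y1, _, y2⟩
        obtain ⟨a, ha, n, hn, e⟩ := (i1 y sy).comm (i1 p sp) (g_Pres sy) (g_Pres sp)
        refine ⟨a, ha, n * (g p * g y * (g p)⁻¹), mul_mem (Nj_mono j hn) ?_, ?_⟩
        · rw [g_conj (by simp [lev, p, y1, y2])]
          apply gs_mem
          rintro z ⟨z1, w', z2⟩
          rw [List.replicate_succ', List.append_assoc, List.singleton_append] at z2
          have e1 : (πf p y).l = List.replicate j false ++ true :: w := by
            rw [πf_l, if_pos y1, y2]; exact swp_child _ _ _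
          have e2 : z.k = (πf p y).k := by rw [πf_k, z1, y1]
          have e3 : z ≠ πf p y := by
            intro h; rw [← h, z2] at e1; simp at e1
          refine ⟨N.ext (πf_k _ _) ?_, ?_, by simp [e3]⟩
          · rw [g_π, πf_l, if_pos e2, e1, z2, swp_append]; simp [swp]
          · rw [g_sg, sgf, if_pos e2, e1, z2, sgn_append]; simp [sgn]
        · rw [← mul_assoc, ← e, commutatorElement_def]; group
      · obtain ⟨a, ha, n, hn, e⟩ := (i1 p sp).comm i2 (g_Pres sp) i3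
        refine ⟨a, ha, n, Nj_mono j hn, ?_⟩
        have e2 : ⁅g p, h⁆ = g p * (h * g p * h⁻¹)⁻¹ := by rw [commutatorElement_def]; group
        rw [← e, e2, i4, inv_inv]
  intro hbot
  obtain ⟨i1, h, i2, i3, i4⟩ := claim s le_rfl
  set p : N s := ⟨0, List.replicate s false, by simp⟩ with hp
  have sp : sub s p := ⟨rfl, [], by simp [p]⟩
  obtain ⟨a, ha, n, hn, e⟩ := (i1 p sp).comm i2 (g_Pres sp) i3
  have e2 : ⁅g p, h⁆ = g p * (h * g p * h⁻¹)⁻¹ := by rw [commutatorElement_def]; group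
  rw [Dd, hbot, Subgroup.map_bot, Subgroup.mem_bot] at ha
  rw [e2, i4, inv_inv, ha, one_mul] at e
  have f := g_fix (y := p) (z := p) le_rfl
  have := (hn p sp).2.2
  rw [← e] at this
  simp [f.1, f.2] at this

end Pool.Agent.H.MP_afa6c5_al
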