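import Pool.Agent.H.MP_afa6c5_al.C

set_option autoImplicit false
set_option linter.unusedSimpArgs false

namespace Pool.Agent.H.MP_afa6c5_al

section Lead
variable {α : Type} [LinearOrder α]

def Lead (u : α → ℤ) (x : α) : Prop := 0 < u x ∧ ∀ y, x < y → u y = 0

lemma lead_tri {u : α → ℤ} (hf : (Function.support u).Finite) (h0 : u ≠ 0) :
    ∃ x, Lead u x ∨ Lead (-u) x := by
  obtain ⟨x, hx, hm⟩ := hf.exists_maximal (Function.support_nonempty_iff.mpr h0)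
  have hz : ∀ y, x < y → u y = 0 := fun y hy => by
    by_contra hc
    exact absurd (hm hc hy.le) (not_le.mpr hy)
  refine ⟨x, ?_⟩
  rcases lt_or_gt_of_ne (show u x ≠ 0 from hx) with h | h
  · exact Or.inr ⟨by simpa using h, fun y hy => by simp [hz y hy]⟩
  · exact Or.inl ⟨h, hz⟩

lemma lead_add {u v w : α → ℤ} {x y : α} (h1 : Lead u x) (h2 : Lead v y)
    (hw : ∀ z, x ≤ z → w z = u z + v z) : Lead w (max x y) := by
  constructor
  · rw [hw _ (le_max_left _ _)]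
    rcases lt_trichotomy x y with h | h | h
    · rw [max_eq_right h.le, h1.2 y h]; simpa using h2.1
    · subst h; rw [max_self]; exact add_pos h1.1 h2.1
    · rw [max_eq_left h.le, h2.2 x h]; simpa using h1.1
  · intro z hz
    rw [max_lt_iff] at hz
    rw [hw z hz.1.le, h1.2 z hz.1, h2.2 z hz.2, add_zero]

lemma Lead.congr {u w : α → ℤ} {x : α} (h : Lead u x) (hw : ∀ z, x ≤ z → w z = u z) :
    Lead w x :=
  ⟨by rw [hw x le_rfl]; exact h.1, fun z hz => by rw [hw z hz.le, h.2 z hz]⟩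

end Lead

variable {s : ℕ}

noncomputable instance : LinearOrder (N s) :=
  LinearOrder.lift' (fun x : N s => toLex (lev x, x.l)) (fun x y h => by
    have h' := toLex.injective h
    simp only [Prod.mk.injEq] at h'
    exact N.ext (lev_inj h'.1).1 h'.2)

lemma lev_mono {x y : N s} (h : x ≤ y) : lev x ≤ lev y := by
  have : toLex (lev x, x.l) ≤ toLex (lev y, y.l) := h
  rw [Prod.Lex.toLex_le_toLex] at this
  rcases this with h | h
  · exact h.le
  · exact h.1.le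

lemma lt_of_lev {x y : N s} (h : lev x < lev y) : x < y := by
  by_contra hc
  exact absurd (lev_mono (not_lt.mp hc)) (not_le.mpr h)

def B (k : ℤ) (r : Af s) : Prop := r.τ = 0 ∧ ∃ x, k < lev x ∧ Lead r.d x

lemma lead_fix {r : Af s} (hr : r ∈ Q s) (h0 : r.τ = 0) {x : N s} (h : ∀ y, x < y → r.d y = 0) :
    r ∈ Fix (lev x) :=
  D'_Fix _ (thmF hr h0 fun z hz => h z (lt_of_lev hz))

lemma B.mul {k : ℤ} {r r' : Af s} (hr : r ∈ Q s) (h : B k r) (h' : B k r') : B k (r * r') := by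
  obtain ⟨a1, x, a2, a3⟩ := h
  obtain ⟨b1, y, b2, b3⟩ := h'
  have f := lead_fix hr a1 a3.2
  refine ⟨by simp [a1, b1], max x y, a2.trans_le (lev_mono (le_max_left _ _)),
    lead_add a3 b3 fun z hz => ?_⟩
  simp [Fix.symm f (lev_mono hz), (f z (lev_mono hz)).2]

lemma B.mul_D {k : ℤ} {r a : Af s} (hr : r ∈ Q s) (h : B k r) (ha : a ∈ D' k) : B k (r * a) := by
  obtain ⟨a1, x, a2, a3⟩ := h
  have f := lead_fix hr a1 a3.2
  refine ⟨by simp [a1, (D'_van ha).1], x, a2, a3.congr fun z hz => ?_⟩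
  simp [Fix.symm f (lev_mono hz), (D'_van ha).2 z (a2.trans_le (lev_mono hz))]

lemma B.D_mul {k : ℤ} {r a : Af s} (h : B k r) (ha : a ∈ D' k) : B k (a * r) := by
  obtain ⟨a1, x, a2, a3⟩ := h
  have f := D'_Fix _ ha
  refine ⟨by simp [a1, (D'_van ha).1], x, a2, a3.congr fun z hz => ?_⟩
  have := a2.trans_le (lev_mono hz)
  simp [Fix.symm f this.le, (D'_van ha).2 z this, (f z this.le).2]

lemma B.not_D {k : ℤ} {r : Af s} (h : B k r) : r ∉ D' k := by
  obtain ⟨-, x, a2, a3⟩ := h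
  intro ha
  exact absurd ((D'_van ha).2 x a2) a3.1.ne'

lemma B_tri (k : ℤ) {r : Af s} (hr : r ∈ Q s) (h0 : r.τ = 0) : r ∈ D' k ∨ B k r ∨ B k r⁻¹ := by
  by_cases hd : r.d = 0
  · exact Or.inl (thmF hr h0 fun z _ => by simp [hd])
  obtain ⟨x, hx⟩ := lead_tri (Q_fin hr) hd
  have hz : ∀ y, x < y → r.d y = 0 := by
    rcases hx with h | h
    · exact h.2
    · exact fun y hy => by simpa using h.2 y hy
  by_cases hk : k < lev x
  · right
    rcases hx with h | h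
    · exact Or.inl ⟨h0, x, hk, h⟩
    · have f := lead_fix hr h0 hz
      refine Or.inr ⟨by simp [h0], x, hk, h.congr fun z hz => ?_⟩
      simp [f z (lev_mono hz)]
  · exact Or.inl (thmF hr h0 fun z h => hz z (lt_of_lev (by omega)))

abbrev L (s : ℕ) := {l : List Bool // l.length ≤ s}

def nd (j : ℤ) (l : L s) : N s := ⟨j, l.1, l.2⟩

lemma lev_nd (j : ℤ) (l : L s) : lev (nd j l) = lev (nd 0 l) + (s + 1) * j := by
  simp [lev, nd]; ring

def Ω (s : ℕ) := Σ l : L s, Q s ⧸ (D' (lev (nd 0 l))).subgroupOf (Q s)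

instance : MulAction (Q s) (Ω s) :=
  inferInstanceAs (MulAction (Q s) (Σ l : L s, Q s ⧸ (D' (lev (nd 0 l))).subgroupOf (Q s)))

def om (p : Q s) (l : L s) : Ω s := ⟨l, (p : Q s ⧸ (D' (lev (nd 0 l))).subgroupOf (Q s))⟩

lemma smul_om (q p : Q s) (l : L s) : q • om p l = om (q * p) l := rfl

lemma om_surj (ω : Ω s) : ∃ p l, ω = om p l := by
  obtain ⟨l, c⟩ := ω
  induction c using QuotientGroup.induction_on with
  | H p => exact ⟨p, l, rfl⟩

lemma om_eq {p p' : Q s} {l l' : L s} :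
    om p l = om p' l' ↔ l = l' ∧ (p⁻¹ * p').1 ∈ D' (lev (nd 0 l)) := by
  constructor
  · intro h
    have h1 : l = l' := congrArg Sigma.fst h
    subst h1
    have h2 := eq_of_heq (Sigma.mk.inj_iff.mp h).2
    exact ⟨rfl, Subgroup.mem_subgroupOf.mp (QuotientGroup.eq.mp h2)⟩
  · rintro ⟨rfl, h⟩
    exact congrArg (Sigma.mk l) (QuotientGroup.eq.mpr h)

def bas (ω : Ω s) : N s :=
  Quotient.liftOn' ω.2 (fun p => nd p.1.τ ω.1) (fun p p' h => by
    have h1 := (D'_van (Subgroup.mem_subgroupOf.mp (QuotientGroup.leftRel_apply.mp h))).1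
    simp only [Subgroup.coe_subtype, Subgroup.coe_mul, InvMemClass.coe_inv, mul_τ, inv_τ] at h1
    rw [show p.1.τ = p'.1.τ by omega])

def vec (ω : Ω s) : N s → ℤ :=
  Quotient.liftOn' ω.2 (fun p => lin p.1 (Pi.single (nd 0 ω.1) 1)) (fun p p' h => by
    have h1 := D'_Fix _ (Subgroup.mem_subgroupOf.mp (QuotientGroup.leftRel_apply.mp h))
      (nd 0 ω.1) le_rfl
    have e : p'.1 = p.1 * (p⁻¹ * p').1 := by simp
    rw [e, lin_mul, lin_single (p⁻¹ * p').1]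
    rw [h1.1, h1.2]; simp)

lemma bas_om (p : Q s) (l : L s) : bas (om p l) = nd p.1.τ l := rfl
lemma vec_om (p : Q s) (l : L s) : vec (om p l) = lin p.1 (Pi.single (nd 0 l) 1) := rfl

def lvl (ω : Ω s) : ℤ := lev (bas ω)

lemma bas_smul (q : Q s) (ω : Ω s) : bas (q • ω) = sh q.1.τ (bas ω) := by
  obtain ⟨p, l, rfl⟩ := om_surj ω
  rw [smul_om, bas_om, bas_om]
  ext1 <;> simp [nd, add_comm]

lemma lvl_smul (q : Q s) (ω : Ω s) : lvl (q • ω) = lvl ω + (s + 1) * q.1.τ := by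
  rw [lvl, bas_smul, lev_sh, lvl]

lemma vec_smul (q : Q s) (ω : Ω s) : vec (q • ω) = lin q.1 (vec ω) := by
  obtain ⟨p, l, rfl⟩ := om_surj ω
  rw [smul_om, vec_om, vec_om, ← lin_mul]; rfl

lemma vec_single (ω : Ω s) : ∃ y b, lev y = lvl ω ∧ vec ω = Pi.single y (sv b) := by
  obtain ⟨p, l, rfl⟩ := om_surj ω
  refine ⟨p.1.π (nd 0 l), p.1.sg (p.1.π (nd 0 l)), ?_, by rw [vec_om, lin_single, mul_one]⟩
  rw [Q_lev p.2, lvl, bas_om, lev_nd p.1.τ]

def R2 (l l' : L s) (r : Af s) : Prop :=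
  B (lev (nd 0 l)) r ∨ (r ∈ D' (lev (nd 0 l)) ∧ l < l')

def ltΩ (ω ω' : Ω s) : Prop := lvl ω < lvl ω' ∨
  (lvl ω = lvl ω' ∧ ∃ p l p' l', ω = om p l ∧ ω' = om p' l' ∧ R2 l l' (p⁻¹ * p').1)

lemma lvl_eq {p p' : Q s} {l l' : L s} (h : lvl (om p l) = lvl (om p' l')) :
    (p⁻¹ * p').1.τ = 0 ∧ lev (nd 0 l) = lev (nd 0 l') := by
  have := lev_inj h
  simp only [bas_om, nd] at this
  constructor
  · simp [this.1]
  · simp [lev, nd, this.2]

lemma lt_om {p p' : Q s} {l l' : L s} (h : lvl (om p l) = lvl (om p' l')) :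
    ltΩ (om p l) (om p' l') ↔ R2 l l' (p⁻¹ * p').1 := by
  constructor
  · rintro (h1 | ⟨-, p1, l1, p2, l2, e1, e2, h1⟩)
    · omega
    · obtain ⟨rfl, a1⟩ := om_eq.mp e1
      obtain ⟨rfl, a2⟩ := om_eq.mp e2
      rw [← (lvl_eq h).2] at a2
      have e : (p⁻¹ * p').1 = (p⁻¹ * p1).1 * ((p1⁻¹ * p2).1 * ((p'⁻¹ * p2).1)⁻¹) := by
        simp [mul_assoc]
      rw [e]
      rcases h1 with h1 | ⟨h1, h2⟩
      · exact Or.inl ((h1.mul_D (p1⁻¹ * p2).2 (inv_mem a2)).D_mul a1)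
      · exact Or.inr ⟨mul_mem a1 (mul_mem h1 (inv_mem a2)), h2⟩
  · exact fun h1 => Or.inr ⟨h, p, l, p', l', rfl, rfl, h1⟩

instance : IsStrictTotalOrder (Ω s) ltΩ where
  trichotomous := by
    intro ω ω' h1 h2
    obtain ⟨p, l, rfl⟩ := om_surj ω
    obtain ⟨p', l', rfl⟩ := om_surj ω'
    have h : lvl (om p l) = lvl (om p' l') :=
      le_antisymm (not_lt.mp fun h => h2 (Or.inl h)) (not_lt.mp fun h => h1 (Or.inl h))
    rw [lt_om h] at h1
    rw [lt_om h.symm] at h2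
    have e : (p'⁻¹ * p).1 = ((p⁻¹ * p').1)⁻¹ := by simp
    rw [R2, e, ← (lvl_eq h).2] at h2
    rcases B_tri (lev (nd 0 l)) (p⁻¹ * p').2 (lvl_eq h).1 with h3 | h3 | h3
    · refine om_eq.mpr ⟨?_, h3⟩
      rcases lt_trichotomy l l' with h4 | h4 | h4
      · exact absurd (Or.inr ⟨h3, h4⟩) h1
      · exact h4
      · exact absurd (Or.inr ⟨inv_mem h3, h4⟩) h2
    · exact absurd (Or.inl h3) h1
    · exact absurd (Or.inl h3) h2
  irrefl := by
    intro ω h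
    obtain ⟨p, l, rfl⟩ := om_surj ω
    rw [lt_om rfl] at h
    rcases h with h | h
    · exact h.not_D (by simp)
    · exact lt_irrefl _ h.2
  trans := by
    intro ω ω' ω'' h1 h2
    have le : ∀ a b : Ω s, ltΩ a b → lvl a ≤ lvl b := fun a b h => h.elim le_of_lt fun h => h.1.le
    by_cases h : lvl ω < lvl ω''
    · exact Or.inl h
    have a1 := le _ _ h1
    have a2 := le _ _ h2
    obtain ⟨p, l, rfl⟩ := om_surj ω
    obtain ⟨p', l', rfl⟩ := om_surj ω'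
    obtain ⟨p'', l'', rfl⟩ := om_surj ω''
    have b1 : lvl (om p l) = lvl (om p' l') := by omega
    have b2 : lvl (om p' l') = lvl (om p'' l'') := by omega
    rw [lt_om b1] at h1
    rw [lt_om b2, R2, ← (lvl_eq b1).2] at h2
    rw [lt_om (b1.trans b2)]
    have e : (p⁻¹ * p'').1 = (p⁻¹ * p').1 * (p'⁻¹ * p'').1 := by simp [mul_assoc]
    rw [e]
    rcases h1 with h1 | ⟨h1, h3⟩ <;> rcases h2 with h2 | ⟨h2, h4⟩
    · exact Or.inl (h1.mul (p⁻¹ * p').2 h2)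
    · exact Or.inl (h1.mul_D (p⁻¹ * p').2 h2)
    · exact Or.inl (h2.D_mul h1)
    · exact Or.inr ⟨mul_mem h1 h2, h3.trans h4⟩

open Classical in
noncomputable instance : LinearOrder (Ω s) := linearOrderOfSTO ltΩ

lemma lvl_mono {ω ω' : Ω s} (h : ω ≤ ω') : lvl ω ≤ lvl ω' := by
  rcases h.eq_or_lt with rfl | h
  · exact le_rfl
  · exact Or.elim h le_of_lt fun h => h.1.le

lemma lt_of_lvl {ω ω' : Ω s} (h : lvl ω < lvl ω') : ω < ω' := Or.inl h

lemma smul_lt (q : Q s) {ω ω' : Ω s} (h : ω < ω') : q • ω < q • ω' := by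
  rcases h with h | ⟨h, p, l, p', l', rfl, rfl, h1⟩
  · exact Or.inl (by rw [lvl_smul, lvl_smul]; omega)
  · refine Or.inr ⟨by rw [lvl_smul, lvl_smul, h], q * p, l, q * p', l', rfl, rfl, ?_⟩
    simpa [mul_assoc] using h1

lemma D'_smul {k : ℤ} {q : Q s} (hq : q.1 ∈ D' k) {ω : Ω s} (h : k ≤ lvl ω) : q • ω = ω := by
  obtain ⟨p, l, rfl⟩ := om_surj ω
  rw [smul_om, om_eq]
  refine ⟨rfl, thmF (Subtype.prop _) (by simp [(D'_van hq).1]) fun z hz => ?_⟩
  have h1 : k < lev (p.1.π z) := by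
    rw [Q_lev p.2]; rw [lvl, bas_om, lev_nd] at h; omega
  have hq' := inv_mem hq
  have f := D'_Fix _ hq'
  have e : ((q * p)⁻¹ * p).1 = p.1⁻¹ * (q.1⁻¹ * p.1) := by simp [mul_assoc]
  rw [e, mul_d', inv_π, symm_inv, mul_d', Fix.symm f h1.le, (f _ h1.le).2, (D'_van hq').2 _ h1]
  simp

noncomputable def act (q : Q s) : (Ω s →₀ ℤ) →+ (Ω s →₀ ℤ) :=
  Finsupp.mapDomain.addMonoidHom (q • ·)

lemma act_single (q : Q s) (ω : Ω s) (c : ℤ) :
    act q (Finsupp.single ω c) = Finsupp.single (q • ω) c := Finsupp.mapDomain_single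

lemma act_apply (q : Q s) (f : Ω s →₀ ℤ) (ω : Ω s) : act q f ω = f (q⁻¹ • ω) := by
  have := Finsupp.mapDomain_apply (MulAction.injective q) f (q⁻¹ • ω)
  rwa [smul_inv_smul] at this

lemma act_mul (a b : Q s) (f : Ω s →₀ ℤ) : act (a * b) f = act a (act b f) := by
  ext ω; simp [act_apply, mul_smul]

lemma act_one (f : Ω s →₀ ℤ) : act 1 f = f := by ext ω; simp [act_apply]

lemma act_fix {k : ℤ} {q : Q s} (hq : q.1 ∈ D' k) {f : Ω s →₀ ℤ}
    (hf : ∀ ω, lvl ω < k → f ω = 0) : act q f = f := by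
  ext ω
  rw [act_apply]
  by_cases h : k ≤ lvl ω
  · rw [D'_smul (q := q⁻¹) (inv_mem hq) h]
  · rw [hf ω (by omega), hf _ (by rw [lvl_smul]; simp [(D'_van hq).1]; omega)]

@[ext] structure Gh (s : ℕ) where
  f : Ω s →₀ ℤ
  q : Q s

noncomputable instance : Mul (Gh s) := ⟨fun a b => ⟨a.f + act a.q b.f, a.q * b.q⟩⟩
noncomputable instance : One (Gh s) := ⟨⟨0, 1⟩⟩
noncomputable instance : Inv (Gh s) := ⟨fun a => ⟨-act a.q⁻¹ a.f, a.q⁻¹⟩⟩

@[simp] lemma Gmul_f (a b : Gh s) : (a * b).f = a.f + act a.q b.f := rfl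
@[simp] lemma Gmul_q (a b : Gh s) : (a * b).q = a.q * b.q := rfl
@[simp] lemma Gone_f : (1 : Gh s).f = 0 := rfl
@[simp] lemma Gone_q : (1 : Gh s).q = 1 := rfl
@[simp] lemma Ginv_f (a : Gh s) : (a⁻¹).f = -act a.q⁻¹ a.f := rfl
@[simp] lemma Ginv_q (a : Gh s) : (a⁻¹).q = a.q⁻¹ := rfl

noncomputable instance : Group (Gh s) :=
  Group.ofLeftAxioms
    (fun a b c => Gh.ext (by simp [act_mul, add_assoc]) (mul_assoc _ _ _))
    (fun a => Gh.ext (by simp [act_one]) (one_mul _))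
    (fun a => Gh.ext (by simp) (inv_mul_cancel _))

noncomputable def μ : (Ω s →₀ ℤ) →+ (N s → ℤ) :=
  Finsupp.liftAddHom fun ω => zmultiplesHom _ (vec ω)

noncomputable def ε : (Ω s →₀ ℤ) →+ (N s →₀ ℤ) := Finsupp.mapDomain.addMonoidHom bas

lemma μ_single (ω : Ω s) (c : ℤ) : μ (Finsupp.single ω c) = c • vec ω := by simp [μ]

lemma ε_single (ω : Ω s) (c : ℤ) : ε (Finsupp.single ω c) = Finsupp.single (bas ω) c :=
  Finsupp.mapDomain_single

lemma μ_act (q : Q s) (f : Ω s →₀ ℤ) : μ (act q f) = lin q.1 (μ f) := by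
  induction f using Finsupp.induction_linear with
  | zero => funext x; simp [lin]
  | add f1 f2 h1 h2 => rw [map_add, map_add, map_add, lin_add, h1, h2]
  | single ω c => rw [act_single, μ_single, μ_single, lin_smul, vec_smul]

lemma ε_act (q : Q s) (f : Ω s →₀ ℤ) : ε (act q f) = Finsupp.mapDomain (sh q.1.τ) (ε f) := by
  induction f using Finsupp.induction_linear with
  | zero => simp
  | add f1 f2 h1 h2 => rw [map_add, map_add, map_add, Finsupp.mapDomain_add, h1, h2]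
  | single ω c => rw [act_single, ε_single, ε_single, Finsupp.mapDomain_single, bas_smul]

lemma μ_van {k : ℤ} {f : Ω s →₀ ℤ} (hf : ∀ ω, k < lvl ω → f ω = 0) (z : N s) (hz : k < lev z) :
    μ f z = 0 := by
  rw [μ, Finsupp.liftAddHom_apply, Finsupp.sum, Finset.sum_apply]
  refine Finset.sum_eq_zero fun ω hω => ?_
  obtain ⟨y, b, h1, h2⟩ := vec_single ω
  have : z ≠ y := by
    rintro rfl
    exact (Finsupp.mem_support_iff.mp hω) (hf ω (by omega))
  simp [h2, this]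

def G (s : ℕ) : Subgroup (Gh s) where
  carrier := {x | μ x.f = (2 : ℤ) • x.q.1.d ∧ ε x.f = 0}
  one_mem' := by simp
  mul_mem' := by
    rintro a b ⟨a1, a2⟩ ⟨b1, b2⟩
    constructor
    · rw [Gmul_f, map_add, μ_act, a1, b1, lin_smul, Gmul_q, Subgroup.coe_mul, mul_d, smul_add]
    · rw [Gmul_f, map_add, ε_act, a2, b2]; simp
  inv_mem' := by
    rintro a ⟨a1, a2⟩
    constructor
    · rw [Ginv_f, map_neg, μ_act, a1, lin_smul]
      funext z
      simp [lin, symm_inv]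
    · rw [Ginv_f, map_neg, ε_act, a2]; simp

lemma G_D {x : Gh s} (hx : x ∈ G s) (h0 : x.q.1.τ = 0) {k : ℤ}
    (hf : ∀ ω, k < lvl ω → x.f ω = 0) : x.q.1 ∈ D' k :=
  thmF x.q.2 h0 fun z hz => by
    have := μ_van hf z hz
    rw [hx.1] at this
    simpa using this

lemma G_eq_one {x : Gh s} (hx : x ∈ G s) (h0 : x.q.1.τ = 0) (hf : x.f = 0) : x = 1 := by
  refine Gh.ext hf (Subtype.ext (thmF0 x.q.2 h0 ?_))
  have := hx.1
  rw [hf, map_zero] at this
  funext z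
  simpa using congrFun this z

lemma G_fix {x : Gh s} (hx : x ∈ G s) (h0 : x.q.1.τ = 0) {ω : Ω s}
    (hf : ∀ ω', ω < ω' → x.f ω' = 0) {ω' : Ω s} (h : ω ≤ ω') : x.q⁻¹ • ω' = ω' :=
  D'_smul (q := x.q⁻¹) (inv_mem (G_D hx h0 fun ω' h => hf ω' (lt_of_lvl h))) (lvl_mono h)

def PosG (x : G s) : Prop := 0 < x.1.q.1.τ ∨ (x.1.q.1.τ = 0 ∧ ∃ ω, Lead x.1.f ω)

lemma PosG_mul (a b : G s) (ha : PosG a) (hb : PosG b) : PosG (a * b) := by
  have e : (a * b).1.q.1.τ = a.1.q.1.τ + b.1.q.1.τ := rfl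
  rcases ha with ha | ⟨a1, ω, a2⟩ <;> rcases hb with hb | ⟨b1, ω', b2⟩
  · left; omega
  · left; omega
  · left; omega
  · refine Or.inr ⟨by omega, _, lead_add a2 b2 fun z hz => ?_⟩
    simp [act_apply, G_fix a.2 a1 a2.2 hz]

lemma PosG_conj (a h : G s) (ha : PosG a) : PosG (h * a * h⁻¹) := by
  have e : (h * a * h⁻¹).1.q.1.τ = h.1.q.1.τ + a.1.q.1.τ + -h.1.q.1.τ := rfl
  rcases ha with ha | ⟨a1, ω, a2⟩
  · left; omega
  · refine Or.inr ⟨by omega, h.1.q • ω, ?_⟩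
    have key : ∀ z, ω ≤ h.1.q⁻¹ • z → (h * a * h⁻¹).1.f z = a.1.f (h.1.q⁻¹ • z) := by
      intro z hz
      simp [act_apply, mul_smul, G_fix a.2 a1 a2.2 hz]
    constructor
    · rw [key _ (by simp)]; simpa using a2.1
    · intro z hz
      have := smul_lt h.1.q⁻¹ hz
      rw [inv_smul_smul] at this
      rw [key _ this.le, a2.2 _ this]

lemma PosG_tri (a : G s) : a = 1 ∨ PosG a ∨ PosG a⁻¹ := by
  have e : (a⁻¹).1.q.1.τ = -a.1.q.1.τ := rfl
  rcases lt_trichotomy a.1.q.1.τ 0 with h | h | h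
  · exact Or.inr (Or.inr (Or.inl (by omega)))
  · by_cases hf : a.1.f = 0
    · exact Or.inl (Subtype.ext (G_eq_one a.2 h hf))
    obtain ⟨ω, h1 | h1⟩ := lead_tri (u := a.1.f) a.1.f.hasFiniteSupport (by simpa using hf)
    · exact Or.inr (Or.inl (Or.inr ⟨h, ω, h1⟩))
    · refine Or.inr (Or.inr (Or.inr ⟨by omega, ω, h1.congr fun z hz => ?_⟩))
      have := G_fix a.2 h (fun y hy => by simpa using h1.2 y hy) hz
      rw [inv_smul_eq_iff] at this
      simp [act_apply, ← this]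
  · exact Or.inr (Or.inl (Or.inl h))

lemma PosG_one : ¬ PosG (1 : G s) := by
  rintro (h | ⟨-, ω, h⟩)
  · exact lt_irrefl _ h
  · exact lt_irrefl _ h.1

end Pool.Agent.H.MP_afa6c5_al
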