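import Pool.Agent.H.MP_afa6c5_al.D

set_option autoImplicit false
set_option linter.unusedSimpArgs false

namespace Pool.Agent.H.MP_afa6c5_al

open scoped commutatorElement

/-- relative positive cone -/
structure RC {K : Type} [Group K] (M : Subgroup K) (P : K → Prop) : Prop where
  mul : ∀ a b, P a → P b → P (a * b)
  conj : ∀ a h, P a → P (h * a * h⁻¹)
  tri : ∀ a, a ∈ M ∨ P a ∨ P a⁻¹
  excl : ∀ a ∈ M, ¬ P a

section Cone
variable {K : Type} [Group K] {M : Subgroup K} {P : K → Prop}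

lemma RC.pow (h : RC M P) {a : K} (ha : P a) (n : ℕ) : P (a ^ (n + 1)) := by
  induction n with
  | zero => simpa using ha
  | succ n ih => rw [pow_succ]; exact h.mul _ _ ih ha

lemma RC.root (h : RC M P) {a : K} {n : ℕ} (hn : 0 < n) (ha : a ^ n ∈ M) : a ∈ M := by
  obtain ⟨n, rfl⟩ : ∃ m, n = m + 1 := ⟨n - 1, by omega⟩
  rcases h.tri a with h1 | h1 | h1
  · exact h1
  · exact absurd (h.pow h1 n) (h.excl _ ha)
  · have := h.pow h1 n
    rw [inv_pow] at this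
    exact absurd this (h.excl _ (inv_mem ha))

lemma RC.mul_right (h : RC M P) {a m : K} (ha : P a) (hm : m ∈ M) : P (a * m) := by
  rcases h.tri (a * m) with h1 | h1 | h1
  · exact absurd ha (h.excl _ (by simpa using mul_mem h1 (inv_mem hm)))
  · exact h1
  · have := h.conj _ a⁻¹ (h.mul _ _ ha (h.conj _ a h1))
    exact absurd (by simpa [mul_assoc] using h.mul _ _ h1 ha) (h.excl _ (inv_mem hm))

lemma RC.comm_root (h : RC ⊥ P) {a b : K} {n : ℕ} (hn : 0 < n) (hc : Commute (a ^ n) b) :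
    Commute a b := by
  obtain ⟨n, rfl⟩ : ∃ m, n = m + 1 := ⟨n - 1, by omega⟩
  have key : ∀ a b : K, P (a * b * a⁻¹ * b⁻¹) → ∀ n : ℕ,
      P (a ^ (n + 1) * b * (a ^ (n + 1))⁻¹ * b⁻¹) := by
    intro a b h1 n
    induction n with
    | zero => simpa using h1
    | succ n ih =>
      have := h.mul _ _ (h.conj _ a ih) h1
      rw [pow_succ' a (n + 1)]
      simpa [mul_assoc] using this
  have e : a ^ (n + 1) * b * (a ^ (n + 1))⁻¹ = b := by rw [hc.eq]; simp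
  rcases h.tri (a * b * a⁻¹ * b⁻¹) with h1 | h1 | h1
  · rw [Subgroup.mem_bot, mul_inv_eq_one, mul_inv_eq_iff_eq_mul] at h1
    exact h1
  · have := key a b h1 n
    rw [e, mul_inv_cancel] at this
    exact absurd this (h.excl _ (one_mem _))
  · have h2 := key a b⁻¹ (by simpa [mul_assoc] using h.conj _ b⁻¹ h1) n
    have e' : a ^ (n + 1) * b⁻¹ * (a ^ (n + 1))⁻¹ = b⁻¹ := by rw [hc.inv_right.eq]; simp
    rw [e', mul_inv_cancel] at h2
    exact absurd h2 (h.excl _ (one_mem _))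

lemma RC.quot [M.Normal] (h : RC M P) :
    RC (⊥ : Subgroup (K ⧸ M)) (fun x => ∃ a : K, (a : K ⧸ M) = x ∧ P a) where
  mul := by
    rintro _ _ ⟨a, rfl, ha⟩ ⟨b, rfl, hb⟩
    exact ⟨a * b, rfl, h.mul _ _ ha hb⟩
  conj := by
    rintro _ y ⟨a, rfl, ha⟩
    induction y using QuotientGroup.induction_on with
    | H b => exact ⟨b * a * b⁻¹, rfl, h.conj _ _ ha⟩
  tri := by
    intro y
    induction y using QuotientGroup.induction_on with
    | H b =>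
      rcases h.tri b with h1 | h1 | h1
      · exact Or.inl ((QuotientGroup.eq_one_iff b).mpr h1)
      · exact Or.inr (Or.inl ⟨b, rfl, h1⟩)
      · exact Or.inr (Or.inr ⟨b⁻¹, rfl, h1⟩)
  excl := by
    rintro _ h1 ⟨a, rfl, ha⟩
    exact h.excl a ((QuotientGroup.eq_one_iff a).mp h1) ha

end Cone

variable {s : ℕ}

def pG : G s →* Af s where
  toFun x := x.1.q.1
  map_one' := rfl
  map_mul' _ _ := rfl

lemma pG_Q (x : G s) : pG x ∈ Q s := x.1.q.2

def HH (s : ℕ) : Subgroup (G s) where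
  carrier := {x | (pG x).τ = 0}
  one_mem' := rfl
  mul_mem' := fun {a b} ha hb => by
    have ha' : (pG a).τ = 0 := ha
    have hb' : (pG b).τ = 0 := hb
    show (pG (a * b)).τ = 0
    rw [map_mul, mul_τ, ha', hb', add_zero]
  inv_mem' := fun {a} ha => by
    have ha' : (pG a).τ = 0 := ha
    show (pG a⁻¹).τ = 0
    rw [map_inv, inv_τ, ha', neg_zero]

lemma mem_HH {x : G s} : x ∈ HH s ↔ (pG x).τ = 0 := Iff.rfl

lemma ker_HH {x : G s} (h : pG x = 1) : x ∈ HH s := by rw [mem_HH, h]; rfl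

lemma ker_comm {a b : G s} (ha : pG a = 1) (hb : pG b = 1) : a * b = b * a := by
  have ha' : a.1.q = 1 := Subtype.ext ha
  have hb' : b.1.q = 1 := Subtype.ext hb
  apply Subtype.ext
  refine Gh.ext ?_ ?_
  · simp [ha', hb', act_one, add_comm]
  · simp [ha', hb']

lemma ex_lift (x : N s) : ∃ e : G s, pG e = g x ∧ ∀ ω, lvl ω ≠ lev x → e.1.f ω = 0 := by
  obtain ⟨h, hQ, h0, hπ, hs, -, -⟩ := ex_inv x
  let ω : Ω s := om ⟨T x.k, T_Q _⟩ ⟨x.l, x.h⟩
  have b1 : bas ω = x := rfl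
  have b2 : bas ((⟨h, hQ⟩ : Q s) • ω) = x := by rw [bas_smul, b1]; simp [h0, sh_zero]
  have v1 : vec ω = Pi.single x 1 := by
    rw [vec_om, lin_single]
    have : sh x.k (nd 0 ⟨x.l, x.h⟩) = x := by ext1 <;> simp [nd]
    simp [this]
  refine ⟨⟨⟨Finsupp.single ω 1 - Finsupp.single ((⟨h, hQ⟩ : Q s) • ω) 1, ⟨g x, g_Q x⟩⟩, ?_, ?_⟩,
    rfl, fun ω' h' => ?_⟩
  · rw [map_sub, μ_single, μ_single, vec_smul, v1, lin_single]
    funext z
    simp [hπ, hs, Pi.single_apply]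
    split_ifs <;> rfl
  · rw [map_sub, ε_single, ε_single, b1, b2, sub_self]
  · have n1 : ω ≠ ω' := by rintro rfl; exact h' rfl
    have n2 : (⟨h, hQ⟩ : Q s) • ω ≠ ω' := by rintro rfl; exact h' (by rw [lvl, b2])
    simp [n1, n2]

noncomputable def tG (j : ℤ) : G s := ⟨⟨0, ⟨T j, T_Q j⟩⟩, by simp, by simp⟩

lemma pG_surj {q : Af s} (hq : q ∈ Q s) : ∃ x : G s, pG x = q :=
  Q_ind pG.range (fun y => by obtain ⟨e, he, -⟩ := ex_lift y; exact ⟨e, he⟩)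
    (fun j => ⟨tG j, rfl⟩) hq

lemma HH_le (C : Subgroup (G s)) (hA : ∀ a, pG a = 1 → a ∈ C)
    (hg : ∀ x, ∃ e ∈ C, pG e = g x) : HH s ≤ C := by
  intro h hh
  obtain ⟨c, hc, e⟩ := H_ind (C.map pG) hg (pG_Q h) hh
  have := mul_mem hc (hA (c⁻¹ * h) (by rw [map_mul, map_inv, e, inv_mul_cancel]))
  simpa using this

lemma HH_le' (C : Subgroup (G s)) (hn : ∀ x, ∀ c ∈ C, x * c * x⁻¹ ∈ C)
    (hA : ∀ a, pG a = 1 → a ∈ C) (hi : ∀ x, ∀ n : ℕ, 0 < n → x ^ n ∈ C → x ∈ C)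
    {c : G s} (hc : c ∈ C) (h1 : pG c ≠ 1) : HH s ≤ C := by
  have mem : ∀ x, pG x ∈ C.map pG → x ∈ C := by
    rintro x ⟨c, hc, e⟩
    have := mul_mem hc (hA (c⁻¹ * x) (by rw [map_mul, map_inv, e, inv_mul_cancel]))
    simpa using this
  refine HH_le C hA fun x => thmQ4 (C.map pG) ?_ ?_ (pG_Q c) ⟨c, hc, rfl⟩ h1 x
  · rintro q hq _ ⟨a, ha, rfl⟩
    obtain ⟨y, rfl⟩ := pG_surj hq
    exact ⟨_, hn y a ha, by simp⟩
  · intro q hq m hm h
    obtain ⟨y, rfl⟩ := pG_surj hq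
    exact ⟨y, hi y m hm (mem _ (by rwa [map_pow])), rfl⟩

lemma G_uniq {x y : G s} (hx : x ∈ HH s) (hy : y ∈ HH s) (h : x.1.f = y.1.f) : x = y := by
  have : (x⁻¹ * y).1 = 1 := G_eq_one (x⁻¹ * y).2 (mul_mem (inv_mem hx) hy) (by simp [h])
  exact inv_mul_eq_one.mp (Subtype.ext this)

def Pure (k : ℤ) (x : G s) : Prop := x ∈ HH s ∧ ∀ ω, lvl ω ≠ k → x.1.f ω = 0

lemma Pure.D {k : ℤ} {x : G s} (h : Pure k x) : x.1.q.1 ∈ D' k :=
  G_D x.2 h.1 fun ω hω => h.2 ω hω.ne'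

lemma Pure.mul_f {k : ℤ} {x y : G s} (h : Pure k x) (h' : Pure k y) :
    (x * y).1.f = x.1.f + y.1.f := by
  show x.1.f + act x.1.q y.1.f = _
  rw [act_fix h.D fun ω hω => h'.2 ω hω.ne]

lemma Pure.mul {k : ℤ} {x y : G s} (h : Pure k x) (h' : Pure k y) : Pure k (x * y) :=
  ⟨mul_mem h.1 h'.1, fun ω hω => by rw [h.mul_f h']; simp [h.2 ω hω, h'.2 ω hω]⟩

lemma Pure.inv_f {k : ℤ} {x : G s} (h : Pure k x) : (x⁻¹).1.f = -x.1.f := by
  show -act x.1.q⁻¹ x.1.f = _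
  rw [act_fix (q := x.1.q⁻¹) (inv_mem h.D) fun ω hω => h.2 ω hω.ne]

lemma Pure.inv {k : ℤ} {x : G s} (h : Pure k x) : Pure k x⁻¹ :=
  ⟨inv_mem h.1, fun ω hω => by rw [h.inv_f]; simp [h.2 ω hω]⟩

lemma Pure.zpow {k : ℤ} {x : G s} (h : Pure k x) (c : ℤ) :
    Pure k (x ^ c) ∧ (x ^ c).1.f = c • x.1.f := by
  induction c using Int.induction_on with
  | zero => exact ⟨⟨by simp, fun _ _ => by simp⟩, by simp⟩
  | succ n ih =>
    rw [zpow_add_one]
    exact ⟨ih.1.mul h, by rw [ih.1.mul_f h, ih.2, add_smul, one_smul]⟩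
  | pred n ih =>
    rw [zpow_sub_one]
    exact ⟨ih.1.mul h.inv, by rw [ih.1.mul_f h.inv, ih.2, h.inv_f, sub_smul, one_smul,
      sub_eq_add_neg]⟩

lemma ex_V (ω ω' : Ω s) (h : bas ω = bas ω') : ∃ V : G s, Pure (lvl ω) V ∧
    V.1.f = (2 : ℤ) • (Finsupp.single ω 1 - Finsupp.single ω' 1) := by
  obtain ⟨y, b, y1, y2⟩ := vec_single ω
  obtain ⟨y', b', y3, y4⟩ := vec_single ω'
  have l1 : lvl ω' = lvl ω := by rw [lvl, lvl, h]
  have dgs : ∀ (y : N s) (b : Bool), (gs (y, b)).d = Pi.single y (sv b) := by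
    intro y b
    have f := g_fix (y := y) (z := y) le_rfl
    cases b
    · rfl
    · funext z
      by_cases hz : z = y
      · subst hz; simp [gs, f.1, f.2]
      · have : πf y z ≠ y := fun h' => hz (by rw [← πf_πf y z, h', f.1])
        simp [gs, hz, this]
  have f : gs (y, b) ∈ Fix (lev y) := D'_Fix _ (gs_mem b (g_D' le_rfl))
  refine ⟨⟨⟨(2 : ℤ) • (Finsupp.single ω 1 - Finsupp.single ω' 1),
    ⟨gs (y, b) * gs (y', !b'), mul_mem (gs_Q _) (gs_Q _)⟩⟩, ?_, ?_⟩, ⟨?_, fun z hz => ?_⟩, rfl⟩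
  · rw [map_zsmul, map_sub, μ_single, μ_single, y2, y4]
    congr 1
    show _ = (gs (y, b) * gs (y', !b')).d
    rw [mul_d, dgs, dgs, lin_single, (f y' (by omega)).1, (f y' (by omega)).2]
    cases b' <;> simp [sub_eq_add_neg, Pi.single_neg]
  · rw [map_zsmul, map_sub, ε_single, ε_single, h, sub_self, smul_zero]
  · show (gs (y, b) * gs (y', !b')).τ = 0
    simp [gs_τ]
  · have n1 : ω ≠ z := by rintro rfl; exact hz rfl
    have n2 : ω' ≠ z := by rintro rfl; exact hz l1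
    simp [n1, n2]

end Pool.Agent.H.MP_afa6c5_al
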