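import Pool.Agent.H.MP_afa6c5_al.E

set_option autoImplicit false
set_option linter.unusedSimpArgs false

namespace Pool.Agent.H.MP_afa6c5_al

open scoped commutatorElement

variable {s : ℕ}

def β0 (y : N s) : Ω s := om ⟨T y.k, T_Q _⟩ ⟨y.l, y.h⟩

def β (ω : Ω s) : Ω s := β0 (bas ω)

lemma bas_β (ω : Ω s) : bas (β ω) = bas ω := by
  rw [β, β0, bas_om]; rfl

lemma smul_β (ω : Ω s) : ∃ h : Q s, h.1.τ = 0 ∧ h • β ω = ω := by
  obtain ⟨p, l, rfl⟩ := om_surj ω
  refine ⟨p * (⟨T p.1.τ, T_Q _⟩ : Q s)⁻¹, by simp, ?_⟩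
  rw [β, bas_om, β0, smul_om]
  show om (p * (⟨T p.1.τ, T_Q _⟩ : Q s)⁻¹ * ⟨T p.1.τ, T_Q _⟩) l = _
  rw [inv_mul_cancel_right]

section Main
variable {K : Type} [Group K] {P : K → Prop} (hK : RC ⊥ P) (φ : G s →* K)
include hK

theorem main2 (hc : ∀ a ∈ HH s, ∀ b ∈ HH s, φ a * φ b = φ b * φ a) :
    ∀ x ∈ HH s, φ x = 1 := by
  classical
  have tf : ∀ (x : G s) (n : ℕ), 0 < n → φ (x ^ n) = 1 → φ x = 1 := fun x n hn h =>
    Subgroup.mem_bot.mp (hK.root hn (by rw [← map_pow, h]; exact one_mem _))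
  have inv : ∀ (k : ℤ) (r : Q s), r.1.τ = 0 → ∀ x, Pure k x →
      ∃ x', Pure k x' ∧ x'.1.f = act r x.1.f ∧ φ x' = φ x := by
    intro k r hr
    have gen : ∀ (y : N s) (e : G s), e ∈ HH s → e.1.q.1 ∈ D' (lev y) →
        (∀ ω, lvl ω ≠ lev y → e.1.f ω = 0) → ∀ x, Pure k x →
        ∃ x', Pure k x' ∧ x'.1.f = act e.1.q x.1.f ∧ φ x' = φ x := by
      intro y e he hD hf x hx
      by_cases hk : lev y ≤ k
      · exact ⟨x, hx, (act_fix (D'_mono hk hD) fun ω hω => hx.2 ω hω.ne).symm, rfl⟩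
      · have e1 : (e * x * e⁻¹).1.f = act e.1.q x.1.f := by
          have a1 : act x.1.q (act e.1.q⁻¹ e.1.f) = act e.1.q⁻¹ e.1.f :=
            act_fix hx.D fun ω hω => by
              rw [act_apply, hf]
              rw [lvl_smul]
              have : e.1.q.1.τ = 0 := he
              simp [this]; omega
          show e.1.f + act e.1.q x.1.f + act (e.1.q * x.1.q) (-act e.1.q⁻¹ e.1.f) = _
          rw [map_neg, act_mul, a1, ← act_mul, mul_inv_cancel, act_one]; abel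
        refine ⟨e * x * e⁻¹, ⟨mul_mem (mul_mem he hx.1) (inv_mem he), fun ω hω => ?_⟩, e1, ?_⟩
        · rw [e1, act_apply, hx.2]
          rw [lvl_smul]
          have : e.1.q.1.τ = 0 := he
          simpa [this] using hω
        · rw [map_mul, map_mul, hc e he x hx.1]; simp
    let Y : Subgroup (Af s) :=
      { carrier := {r | ∃ h : r ∈ Q s,
          (∀ x, Pure k x → ∃ x', Pure k x' ∧ x'.1.f = act ⟨r, h⟩ x.1.f ∧ φ x' = φ x) ∧
          (∀ x, Pure k x → ∃ x', Pure k x' ∧ x'.1.f = act ⟨r, h⟩⁻¹ x.1.f ∧ φ x' = φ x)}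
        one_mem' := ⟨one_mem _, fun x hx => ⟨x, hx, (act_one _).symm, rfl⟩,
          fun x hx => ⟨x, hx, by
            rw [show (⟨1, one_mem _⟩ : Q s)⁻¹ = 1 from inv_one, act_one], rfl⟩⟩
        mul_mem' := by
          rintro a b ⟨ha, a1, a2⟩ ⟨hb, b1, b2⟩
          refine ⟨mul_mem ha hb, fun x hx => ?_, fun x hx => ?_⟩
          · obtain ⟨x1, c1, c2, c3⟩ := b1 x hx
            obtain ⟨x2, c4, c5, c6⟩ := a1 x1 c1
            exact ⟨x2, c4, by rw [c5, c2, ← act_mul]; rfl, c6.trans c3⟩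
          · obtain ⟨x1, c1, c2, c3⟩ := a2 x hx
            obtain ⟨x2, c4, c5, c6⟩ := b2 x1 c1
            exact ⟨x2, c4, by rw [c5, c2, ← act_mul, ← mul_inv_rev]; rfl, c6.trans c3⟩
        inv_mem' := by
          rintro a ⟨ha, a1, a2⟩
          refine ⟨inv_mem ha, a2, fun x hx => ?_⟩
          obtain ⟨x1, c1, c2, c3⟩ := a1 x hx
          exact ⟨x1, c1, by rw [c2]; congr 2; exact (inv_inv (⟨a, ha⟩ : Q s)).symm, c3⟩ }
    obtain ⟨h, h1, -⟩ := H_ind Y (fun y => by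
      obtain ⟨e, e1, e2⟩ := ex_lift y
      have e3 : e.1.q = ⟨g y, g_Q y⟩ := Subtype.ext e1
      have he : e ∈ HH s := by rw [mem_HH, e1]; rfl
      have pe : Pure (lev y) e := ⟨he, e2⟩
      refine ⟨g_Q y, ?_, ?_⟩
      · rw [← e3]; exact gen y e he pe.D e2
      · rw [← e3]; exact gen y e⁻¹ (inv_mem he) pe.inv.D pe.inv.2) r.2 hr
    exact h1
  have stepA : ∀ (ω0 : Ω s) (h : Q s), h.1.τ = 0 → ∀ V : G s, Pure (lvl ω0) V →
      V.1.f = (2 : ℤ) • (Finsupp.single (h • ω0) 1 - Finsupp.single ω0 1) → φ V = 1 := by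
    intro ω0
    have exV : ∀ h : Q s, ∃ V : G s, h.1.τ = 0 → Pure (lvl ω0) V ∧
        V.1.f = (2 : ℤ) • (Finsupp.single (h • ω0) 1 - Finsupp.single ω0 1) := by
      intro h
      by_cases h0 : h.1.τ = 0
      · obtain ⟨V, v1, v2⟩ := ex_V (h • ω0) ω0 (by rw [bas_smul, h0, sh_zero])
        rw [lvl_smul, h0, mul_zero, add_zero] at v1
        exact ⟨V, fun _ => ⟨v1, v2⟩⟩
      · exact ⟨1, fun h => absurd h h0⟩
    choose V hV using exV
    have χmul : ∀ a b : Q s, a.1.τ = 0 → b.1.τ = 0 → φ (V (a * b)) = φ (V a) * φ (V b) := by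
      intro a b ha hb
      obtain ⟨x', c1, c2, c3⟩ := inv _ a ha _ (hV b hb).1
      have hab : (a * b).1.τ = 0 := by simp [ha, hb]
      rw [← c3, ← map_mul]
      congr 1
      refine G_uniq (hV _ hab).1.1 ((hV a ha).1.mul c1).1 ?_
      rw [(hV a ha).1.mul_f c1, c2, (hV _ hab).2, (hV a ha).2, (hV b hb).2, map_zsmul, map_sub,
        act_single, act_single, mul_smul, ← smul_add]
      congr 1; abel
    have χ1 : φ (V 1) = 1 := by
      have := χmul 1 1 rfl rfl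
      rw [mul_one] at this
      simpa using this
    have χinv : ∀ a : Q s, a.1.τ = 0 → φ (V a⁻¹) = (φ (V a))⁻¹ := by
      intro a ha
      have := χmul a⁻¹ a (by simp [ha]) ha
      rw [inv_mul_cancel, χ1] at this
      exact eq_inv_of_mul_eq_one_left this.symm
    let Y : Subgroup (Af s) :=
      { carrier := {r | ∃ h : r ∈ Q s, r.τ = 0 ∧ φ (V ⟨r, h⟩) = 1}
        one_mem' := ⟨one_mem _, rfl, χ1⟩
        mul_mem' := by
          rintro a b ⟨ha, a1, a2⟩ ⟨hb, b1, b2⟩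
          exact ⟨mul_mem ha hb, by simp [a1, b1], by
            have := χmul ⟨a, ha⟩ ⟨b, hb⟩ a1 b1
            rw [a2, b2, one_mul] at this; exact this⟩
        inv_mem' := by
          rintro a ⟨ha, a1, a2⟩
          exact ⟨inv_mem ha, by simp [a1], by
            have := χinv ⟨a, ha⟩ a1
            rw [a2, inv_one] at this; exact this⟩ }
    intro h h0 W w1 w2
    obtain ⟨_, -, h1⟩ := H_ind Y (fun y => by
      obtain ⟨i, iQ, i0, -, -, -, ie⟩ := ex_inv y
      refine ⟨g_Q y, rfl, tf _ 2 (by norm_num) ?_⟩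
      have e : (⟨i, iQ⟩ : Q s) * ⟨g y, g_Q y⟩ = ⟨g y, g_Q y⟩⁻¹ * ⟨i, iQ⟩ :=
        Subtype.ext (by simp [← ie])
      have a1 := χmul ⟨i, iQ⟩ ⟨g y, g_Q y⟩ i0 rfl
      rw [e, χmul _ _ (by simp) i0, χinv _ rfl, hc _ (hV _ i0).1.1 _ (hV _ rfl).1.1] at a1
      have a2 := mul_right_cancel a1
      rw [map_pow, pow_two]
      nth_rewrite 1 [← a2]
      simp) h.2 h0
    rw [← h1]
    congr 1
    exact G_uniq w1.1 (hV h h0).1.1 (w2.trans (hV h h0).2.symm)
  have stepA' : ∀ ω : Ω s, ∃ V : G s, Pure (lvl ω) V ∧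
      V.1.f = (2 : ℤ) • (Finsupp.single ω 1 - Finsupp.single (β ω) 1) ∧ φ V = 1 := by
    intro ω
    obtain ⟨V, v1, v2⟩ := ex_V ω (β ω) (bas_β ω).symm
    refine ⟨V, v1, v2, ?_⟩
    obtain ⟨h, h0, h1⟩ := smul_β ω
    refine stepA (β ω) h h0 V (by rwa [lvl, bas_β]) ?_
    rw [v2, h1]
  have stepB : ∀ f : Ω s →₀ ℤ, ∃ x ∈ HH s, φ x = 1 ∧
      x.1.f = (2 : ℤ) • (f - Finsupp.mapDomain β f) ∧
      ∀ k, (∀ ω, k < lvl ω → f ω = 0) → ∀ ω, k < lvl ω → x.1.f ω = 0 := by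
    intro f
    induction f using Finsupp.induction_on_max with
    | zero => exact ⟨1, one_mem _, map_one _, by simp, fun _ _ _ _ => rfl⟩
    | single_add a c f hf hc0 ih =>
      obtain ⟨x, x1, x2, x3, x4⟩ := ih
      obtain ⟨V, v1, v2, v3⟩ := stepA' a
      have hz : ∀ ω, lvl a < lvl ω → f ω = 0 := fun ω hω => by
        by_contra h
        have := lvl_mono (hf ω (Finsupp.mem_support_iff.mpr h)).le
        omega
      have xD : x.1.q.1 ∈ D' (lvl a) := G_D x.2 x1 (x4 _ hz)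
      obtain ⟨z1, z2⟩ := v1.zpow c
      have e : (x * V ^ c).1.f = x.1.f + (V ^ c).1.f := by
        show x.1.f + act x.1.q (V ^ c).1.f = _
        rw [act_fix xD fun ω hω => z1.2 ω hω.ne]
      refine ⟨x * V ^ c, mul_mem x1 z1.1, by rw [map_mul, map_zpow, x2, v3]; simp, ?_, ?_⟩
      · rw [e, x3, z2, v2, Finsupp.mapDomain_add, Finsupp.mapDomain_single, smul_comm c,
          ← smul_add, smul_sub, Finsupp.smul_single_one, Finsupp.smul_single_one]
        congr 1; abel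
      · intro k hk ω hω
        have fa : f a = 0 := by
          by_contra h
          exact lt_irrefl _ (hf a (Finsupp.mem_support_iff.mpr h))
        have ka : lvl a ≤ k := by
          by_contra h
          have := hk a (by omega)
          simp [fa] at this
          exact hc0 this
        rw [e, Finsupp.add_apply, x4 (lvl a) hz ω (by omega), z1.2 ω (by omega), add_zero]
  have mβ : ∀ x : G s, Finsupp.mapDomain β x.1.f = 0 := by
    intro x
    have : (β : Ω s → Ω s) = β0 ∘ bas := rfl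
    rw [this, Finsupp.mapDomain_comp]
    have h2 : Finsupp.mapDomain bas x.1.f = 0 := x.2.2
    rw [h2, Finsupp.mapDomain_zero]
  have fin : ∀ x ∈ HH s, act x.1.q x.1.f = x.1.f → φ x = 1 := by
    intro x hx h
    obtain ⟨y, y1, y2, y3, -⟩ := stepB x.1.f
    refine tf x 2 (by norm_num) ?_
    rw [← y2]
    congr 1
    refine G_uniq (pow_mem hx 2) y1 ?_
    rw [y3, mβ, sub_zero, pow_two, two_smul]
    show x.1.f + act x.1.q x.1.f = _
    rw [h]
  refine HH_le φ.ker (fun a ha => fin a (ker_HH ha) ?_) fun y => ?_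
  · rw [show a.1.q = 1 from Subtype.ext ha, act_one]
  · obtain ⟨e, e1, e2⟩ := ex_lift y
    have he : e ∈ HH s := by rw [mem_HH, e1]; rfl
    exact ⟨e, fin e he (act_fix (Pure.D ⟨he, e2⟩) fun ω hω => e2 ω hω.ne), e1⟩

theorem main1 {c : G s} (h1 : pG c ≠ 1) (hc : ∀ a, pG a = 1 → Commute (φ c) (φ a)) :
    ∀ x ∈ HH s, φ x = 1 := by
  let C : Subgroup (G s) :=
    { carrier := {x | ∀ a, pG a = 1 → Commute (φ x) (φ a)}
      one_mem' := fun a _ => by simp
      mul_mem' := fun {x y} hx hy a ha => by rw [map_mul]; exact (hx a ha).mul_left (hy a ha)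
      inv_mem' := fun {x} hx a ha => by rw [map_inv]; exact (hx a ha).inv_left }
  have hC : HH s ≤ C := HH_le' C
    (fun x y hy a ha => by
      have := (hy (x⁻¹ * a * x) (by simp [ha])).map (MulAut.conj (φ x))
      simpa [mul_assoc] using this)
    (fun a ha b hb => by
      show φ a * φ b = φ b * φ a
      rw [← map_mul, ker_comm ha hb, map_mul])
    (fun x n hn hx a ha => hK.comm_root hn (by rw [← map_pow]; exact hx a ha)) hc h1
  let Z : Subgroup (G s) :=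
    { carrier := {x | ∀ h ∈ HH s, Commute (φ x) (φ h)}
      one_mem' := fun a _ => by simp
      mul_mem' := fun {x y} hx hy a ha => by rw [map_mul]; exact (hx a ha).mul_left (hy a ha)
      inv_mem' := fun {x} hx a ha => by rw [map_inv]; exact (hx a ha).inv_left }
  have hZ : HH s ≤ Z := HH_le Z (fun a ha h hh => (hC hh a ha).symm) fun y => by
    obtain ⟨e, e1, -⟩ := ex_lift y
    obtain ⟨i, iQ, i0, -, -, -, ie⟩ := ex_inv y
    obtain ⟨j, rfl⟩ := pG_surj iQ
    have he : e ∈ HH s := by rw [mem_HH, e1]; rfl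
    have ha : pG (j * e * j⁻¹ * e) = 1 := by
      rw [map_mul, map_mul, map_mul, map_inv, e1, ie, inv_mul_cancel]
    set a := j * e * j⁻¹ * e with hadef
    have c1 := hC i0 a ha
    have c2 : φ j * φ e * (φ j)⁻¹ = φ a * (φ e)⁻¹ := by simp [hadef]
    have c3 : Commute (φ j ^ 2) (φ e) := by
      have c4 := hC he a ha
      have : φ j ^ 2 * φ e * (φ j ^ 2)⁻¹ = φ e :=
        calc φ j ^ 2 * φ e * (φ j ^ 2)⁻¹ = φ j * (φ j * φ e * (φ j)⁻¹) * (φ j)⁻¹ := by
              rw [pow_two]; group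
          _ = (φ j * φ a * (φ j)⁻¹) * (φ j * φ e * (φ j)⁻¹)⁻¹ := by
              nth_rewrite 1 [c2]; group
          _ = φ a * φ e * (φ a)⁻¹ := by rw [c2, c1.eq]; group
          _ = φ e := by rw [← c4.eq]; group
      rw [mul_inv_eq_iff_eq_mul] at this
      exact this
    have c5 := hK.comm_root (by norm_num) c3
    have c6 : φ e ^ 2 = φ a := by
      rw [c5.eq, mul_inv_cancel_right, eq_mul_inv_iff_mul_eq] at c2
      rw [pow_two, c2]
    exact ⟨e, fun h hh => hK.comm_root (n := 2) (by norm_num) (c6 ▸ (hC hh a ha).symm), e1⟩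
  exact main2 hK φ fun a ha b hb => hZ ha b hb

theorem main3 (Bs : Subgroup (G s)) [hB : Bs.Normal]
    (hc : ∀ a ∈ Bs, ∀ b ∈ Bs, Commute (φ a) (φ b)) {c : G s} (hcB : c ∈ Bs) (h1 : pG c ≠ 1) :
    ∀ x ∈ HH s, φ x = 1 := by
  let D : Subgroup (G s) :=
    { carrier := {a | pG a = 1 ∧ ∀ b ∈ Bs, Commute (φ a) (φ b)}
      one_mem' := ⟨map_one _, fun a _ => by simp⟩
      mul_mem' := fun {x y} hx hy => ⟨by rw [map_mul, hx.1, hy.1, mul_one], fun a ha => by
        rw [map_mul]; exact (hx.2 a ha).mul_left (hy.2 a ha)⟩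
      inv_mem' := fun {x} hx => ⟨by rw [map_inv, hx.1, inv_one], fun a ha => by
        rw [map_inv]; exact (hx.2 a ha).inv_left⟩ }
  have Dn : ∀ x, ∀ d ∈ D, x * d * x⁻¹ ∈ D := fun x d hd => ⟨by simp [hd.1], fun b hb => by
    have := (hd.2 (x⁻¹ * b * x) (by simpa using hB.conj_mem b hb x⁻¹)).map (MulAut.conj (φ x))
    simpa [mul_assoc] using this⟩
  let L2 : Subgroup (G s) :=
    { carrier := {x | (∀ d ∈ D, Commute (φ x) (φ d)) ∧ ∀ a, pG a = 1 → ⁅x, a⁆ ∈ D}
      one_mem' := ⟨fun a _ => by simp, fun a _ => by simp⟩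
      mul_mem' := fun {x y} hx hy => ⟨fun a ha => by
        rw [map_mul]; exact (hx.1 a ha).mul_left (hy.1 a ha), fun a ha => by
        have := mul_mem (Dn x _ (hy.2 a ha)) (hx.2 a ha)
        simpa [commutatorElement_def, mul_assoc] using this⟩
      inv_mem' := fun {x} hx => ⟨fun a ha => by rw [map_inv]; exact (hx.1 a ha).inv_left,
        fun a ha => by
        have := Dn x⁻¹ _ (inv_mem (hx.2 a ha))
        simpa [commutatorElement_def, mul_assoc] using this⟩ }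
  have kc : ∀ x a : G s, pG a = 1 → pG ⁅x, a⁆ = 1 := fun x a ha => by
    simp [commutatorElement_def, ha]
  have hL : HH s ≤ L2 := by
    refine HH_le' L2 (fun x y hy => ⟨fun d hd => ?_, fun a ha => ?_⟩)
      (fun a ha => ⟨fun d hd => ?_, fun b hb => ?_⟩) (fun x n hn hx => ?_)
      (c := c) ⟨fun d hd => (hd.2 c hcB).symm, fun a ha => ⟨kc _ _ ha, fun b hb => hc _ ?_ b hb⟩⟩ h1
    · have := (hy.1 _ (Dn x⁻¹ d hd)).map (MulAut.conj (φ x))
      simpa [mul_assoc] using this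
    · have := Dn x _ (hy.2 (x⁻¹ * a * x) (by simp [ha]))
      simpa [commutatorElement_def, mul_assoc] using this
    · show φ a * φ d = φ d * φ a
      rw [← map_mul, ker_comm ha hd.1, map_mul]
    · rw [commutatorElement_eq_one_iff_mul_comm.mpr (ker_comm ha hb)]; exact one_mem _
    · have a1 : ∀ d ∈ D, Commute (φ x) (φ d) := fun d hd =>
        hK.comm_root hn (by rw [← map_pow]; exact hx.1 d hd)
      refine ⟨a1, fun a ha => ⟨kc _ _ ha, fun b hb => ?_⟩⟩
      have a2 := hx.2 a ha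
      have a3 := a1 _ a2
      have e1 : φ ⁅x ^ n, a⁆ = φ x ^ n * ((φ a * φ x * (φ a)⁻¹) ^ n)⁻¹ := by
        rw [conj_pow]; simp [commutatorElement_def, mul_assoc]
      have a4 : Commute ((φ a * φ x * (φ a)⁻¹) ^ n) (φ x) := by
        have : (φ a * φ x * (φ a)⁻¹) ^ n = (φ ⁅x ^ n, a⁆)⁻¹ * φ x ^ n := by rw [e1]; group
        rw [this]
        exact a3.symm.inv_left.mul_left (Commute.pow_self _ _)
      have a5 := hK.comm_root hn a4
      have e2 : φ ⁅x, a⁆ ^ n = φ ⁅x ^ n, a⁆ := by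
        have : φ ⁅x, a⁆ = φ x * (φ a * φ x * (φ a)⁻¹)⁻¹ := by
          simp [commutatorElement_def, mul_assoc]
        rw [this, a5.symm.inv_right.mul_pow, e1, inv_pow]
      exact hK.comm_root hn (e2 ▸ a2.2 b hb)
    · have := mul_mem hcB (hB.conj_mem _ (inv_mem hcB) a)
      simpa [commutatorElement_def, mul_assoc] using this
  obtain ⟨e, e1, -⟩ := ex_lift (bot s 0)
  obtain ⟨i, iQ, i0, -, -, -, ie⟩ := ex_inv (bot s 0)
  obtain ⟨j, rfl⟩ := pG_surj iQ
  have he : e ∈ HH s := by rw [mem_HH, e1]; rfl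
  have act2 : ∀ u ∈ HH s, ∀ v ∈ HH s, ∀ a, pG a = 1 →
      φ u * (φ v * φ a * (φ v)⁻¹) * (φ u)⁻¹ = φ ⁅v, a⁆ * φ ⁅u, a⁆ * φ a := by
    intro u hu v hv a ha
    have := (hL hu).1 _ ((hL hv).2 a ha)
    calc φ u * (φ v * φ a * (φ v)⁻¹) * (φ u)⁻¹
        = φ u * φ ⁅v, a⁆ * φ a * (φ u)⁻¹ := by simp [commutatorElement_def, mul_assoc]
      _ = _ := by rw [this.eq]; simp [commutatorElement_def, mul_assoc]
  refine main1 hK φ (c := (j * e)⁻¹ * (e * j)) ?_ fun a ha => ?_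
  · intro h
    rw [map_mul, map_inv, inv_mul_eq_one, map_mul, map_mul, e1] at h
    rw [h, mul_inv_cancel_right] at ie
    have f := g_fix (y := bot s 0) (z := bot s 0) le_rfl
    have := congrFun (congrArg Af.d ie) (bot s 0)
    simp [f.1, f.2] at this
  · have b1 := act2 j i0 e he a ha
    have b2 := act2 e he j i0 a ha
    have b3 : φ ⁅e, a⁆ * φ ⁅j, a⁆ = φ ⁅j, a⁆ * φ ⁅e, a⁆ := by
      rw [← map_mul, ker_comm (kc _ _ ha) (kc _ _ ha), map_mul]
    rw [b3, ← b2] at b1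
    show φ _ * φ a = φ a * φ _
    simp only [map_mul, map_inv]
    calc (φ j * φ e)⁻¹ * (φ e * φ j) * φ a
        = (φ j * φ e)⁻¹ * (φ e * (φ j * φ a * (φ j)⁻¹) * (φ e)⁻¹) * (φ e * φ j) := by group
      _ = (φ j * φ e)⁻¹ * (φ j * (φ e * φ a * (φ e)⁻¹) * (φ j)⁻¹) * (φ e * φ j) := by rw [b1]
      _ = _ := by group

end Main

end Pool.Agent.H.MP_afa6c5_al
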