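import Pool.Agent.H.MP_7c6b96_al.A

set_option autoImplicit false

namespace Pool.Agent.H.MP_afa6c5_al

open scoped commutatorElement
open Filter
open Pool.Agent.H.MP_23b8d1_al Pool.Agent.H.MP_7c6b96_al

variable {G : Type} [Group G]

/-- Bi-invariant total orders. -/
def BO (r : G → G → Prop) : Prop :=
  IsLinearOrder G r ∧ ∀ a b c, r a b → r (c * a) (c * b) ∧ r (a * c) (b * c)

theorem bo_of {P : Set G} (h : P ∈ Cone G) : BO fun x y : G => x = y ∨ x⁻¹ * y ∈ P := by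
  obtain ⟨hP, h1, ht⟩ := h
  have i1 : Std.Refl fun x y : G => x = y ∨ x⁻¹ * y ∈ P := ⟨fun _ => Or.inl rfl⟩
  have i2 : IsTrans G fun x y : G => x = y ∨ x⁻¹ * y ∈ P := ⟨by
    rintro x y z (rfl | k) (rfl | k')
    · exact Or.inl rfl
    · exact Or.inr k'
    · exact Or.inr k
    · exact Or.inr (by simpa [mul_assoc] using hP.mul _ k _ k')⟩
  have i3 : Std.Antisymm fun x y : G => x = y ∨ x⁻¹ * y ∈ P := ⟨by
    rintro x y (k | k) (k' | k')
    · exact k
    · exact k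
    · exact k'.symm
    · exact absurd (by simpa using hP.mul _ k _ k') h1⟩
  have i4 : Std.Total fun x y : G => x = y ∨ x⁻¹ * y ∈ P := ⟨by
    intro x y
    by_cases k : x = y
    · exact Or.inl (Or.inl k)
    · rcases ht (x⁻¹ * y) (by simpa [inv_mul_eq_one] using k) with k' | k'
      · exact Or.inl (Or.inr k')
      · exact Or.inr (Or.inr (by simpa using k'))⟩
  have i5 : IsPreorder G fun x y : G => x = y ∨ x⁻¹ * y ∈ P := ⟨⟩
  have i6 : IsPartialOrder G fun x y : G => x = y ∨ x⁻¹ * y ∈ P := ⟨⟩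
  refine ⟨⟨⟩, ?_⟩
  rintro a b c (rfl | k)
  · exact ⟨Or.inl rfl, Or.inl rfl⟩
  · exact ⟨Or.inr (by simpa [mul_assoc] using k),
      Or.inr (by simpa [mul_assoc] using hP.cj c⁻¹ trivial _ k)⟩

theorem exLO {P : Set G} (h : P ∈ Cone G) : ∃ _ : LinearOrder G, ∀ a b : G, a < b ↔ a⁻¹ * b ∈ P := by
  classical
  obtain ⟨i, -⟩ := bo_of h
  exact ⟨{ le := fun x y => x = y ∨ x⁻¹ * y ∈ P
           lt := fun x y => x⁻¹ * y ∈ P
           le_refl := i.refl
           le_trans := i.trans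
           le_antisymm := i.antisymm
           le_total := i.total
           lt_iff_le_not_ge := fun a b => ⟨fun k => ⟨Or.inr k, fun k' => h.2.1 (by
              have e := i.antisymm _ _ (Or.inr k) k'
              simpa [e] using k)⟩, fun k => k.1.resolve_left fun e => k.2 (Or.inl e.symm)⟩
           toDecidableLE := inferInstance }, fun _ _ => Iff.rfl⟩

theorem lead_cone {Z Z' J : Type} [Group Z] [Group Z'] [LinearOrder J] {P : Set Z} (hP : P ∈ Cone Z)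
    {P' : Set Z'} (hP' : P' ∈ Cone Z') (m : G →* Z') (val : J → G → Z)
    (mul : ∀ j g h, m g = 1 → (∀ i, j < i → val i g = 1) → val j (g * h) = val j g * val j h)
    (ex : ∀ g, g ≠ 1 → m g = 1 → ∃ j, (∀ i, j < i → val i g = 1) ∧ val j g ≠ 1)
    (cj : ∀ x, ∃ ρ : J → J, StrictMono ρ ∧ Function.Surjective ρ ∧ ∀ j g, m g = 1 →
      (∀ i, j < i → val i g = 1) → (val j g = 1 → val (ρ j) (x * g * x⁻¹) = 1) ∧
        (val j g ∈ P → val (ρ j) (x * g * x⁻¹) ∈ P)) (one : ∀ j, val j 1 = 1) :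
    (Cone G).Nonempty := by
  have key : ∀ j g h, (∀ i, j < i → val i g = 1) → (∀ i, j < i → val i h = 1) → m g = 1 →
      ∀ i, j < i → val i (g * h) = 1 := fun j g h a b c i hi => by
    rw [mul i g h c fun k hk => a k (hi.trans hk), a i hi, b i hi, one_mul]
  refine ⟨{g | m g ∈ P' ∨ m g = 1 ∧ ∃ j, (∀ i, j < i → val i g = 1) ∧ val j g ∈ P}, ⟨?_, ?_⟩, ?_,
    fun g hg => ?_⟩
  · rintro g (a | ⟨a, j, a1, a2⟩) h (b | ⟨b, k, b1, b2⟩)
    · left; rw [map_mul]; exact hP'.1.mul _ a _ b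
    · left; rwa [map_mul, b, mul_one]
    · left; rwa [map_mul, a, one_mul]
    · refine Or.inr ⟨by rw [map_mul, a, b, one_mul], max j k, key _ _ _
        (fun i hi => a1 i ((le_max_left _ _).trans_lt hi))
        (fun i hi => b1 i ((le_max_right _ _).trans_lt hi)) a, ?_⟩
      rw [mul _ g h a fun i hi => a1 i ((le_max_left _ _).trans_lt hi)]
      rcases lt_trichotomy j k with e | rfl | e
      · rwa [max_eq_right e.le, a1 k e, one_mul]
      · rw [max_self]; exact hP.1.mul _ a2 _ b2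
      · rwa [max_eq_left e.le, b1 j e, mul_one]
  · rintro x - g (a | ⟨a, j, a1, a2⟩)
    · left; rw [map_mul, map_mul, map_inv]; exact hP'.1.cj _ trivial _ a
    · obtain ⟨ρ, r1, r2, r3⟩ := cj x
      refine Or.inr ⟨by simp [a], ρ j, fun i hi => ?_, (r3 j g a a1).2 a2⟩
      obtain ⟨i, rfl⟩ := r2 i
      have := r1.lt_iff_lt.1 hi
      exact (r3 i g a fun k hk => a1 k (this.trans hk)).1 (a1 i this)
  · rintro (a | ⟨-, j, -, a⟩)
    · exact hP'.2.1 (by simpa using a)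
    · exact hP.2.1 (one j ▸ a)
  · by_cases a : m g = 1
    swap
    · exact (hP'.2.2 _ a).imp Or.inl fun k => Or.inl (by simpa using k)
    obtain ⟨j, a1, a2⟩ := ex g hg a
    have inv : ∀ i, j ≤ i → val i g⁻¹ = (val i g)⁻¹ := fun i hi => by
      rw [eq_inv_iff_mul_eq_one, mul_eq_one_comm, ← mul i g _ a fun k hk => a1 k (hi.trans_lt hk),
        mul_inv_cancel, one]
    refine (hP.2.2 _ a2).imp (fun k => Or.inr ⟨a, j, a1, k⟩) fun k =>
      Or.inr ⟨by simp [a], j, fun i hi => by rw [inv i hi.le, a1 i hi, inv_one], by rwa [inv j le_rfl]⟩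

/-- `P` is the pull back of a cone on the quotient by `M`. -/
structure RC (M : Subgroup G) (P : Set G) : Prop where
  nm : M.Normal
  ns : NS Set.univ P
  tri : ∀ g, g ∉ M → g ∈ P ∨ g⁻¹ ∈ P
  dis : ∀ g ∈ P, g ∉ M
  ab : ∀ g ∈ P, ∀ h ∈ M, g * h ∈ P

theorem RC.comap {G' : Type} [Group G'] {M : Subgroup G'} {P : Set G'} (h : RC M P) (f : G →* G') :
    RC (M.comap f) (f ⁻¹' P) :=
  ⟨h.nm.comap f, ⟨fun a ha b hb => by simpa using h.ns.mul _ ha _ hb,
    fun x _ a ha => by simpa using h.ns.cj (f x) trivial _ ha⟩,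
    fun g hg => by simpa using h.tri _ hg, fun g hg => h.dis _ hg,
    fun g hg k hk => by simpa using h.ab _ hg _ hk⟩

theorem rc_of {r : G → G → Prop} (h : BO r) {H : Subgroup G} (hn : H.Normal)
    (hc : ∀ a ∈ H, ∀ b ∈ H, ∀ g, r a g → r g b → g ∈ H) : RC H {g | r 1 g ∧ g ∉ H} := by
  obtain ⟨i, h⟩ := h
  refine ⟨hn, ⟨?_, ?_⟩, fun g hg => ?_, fun g hg => hg.2, ?_⟩
  · rintro a ⟨a1, a2⟩ b ⟨b1, -⟩
    have k : r a (a * b) := by simpa using (h _ _ a b1).1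
    exact ⟨i.trans _ _ _ a1 k, fun e => a2 (hc 1 (one_mem _) _ e a a1 k)⟩
  · rintro x - a ⟨a1, a2⟩
    exact ⟨by simpa using (h _ _ x⁻¹ (h _ _ x a1).1).2, fun e => a2 (by simpa [mul_assoc] using hn.conj_mem _ e x⁻¹)⟩
  · exact (i.total 1 g).imp (fun k => ⟨k, hg⟩) fun k =>
      ⟨by simpa using (h _ _ g⁻¹ k).1, by simpa using hg⟩
  · rintro g ⟨a1, a2⟩ k hk
    refine ⟨(i.total 1 _).resolve_right fun e => a2 (hc 1 (one_mem _) _ (inv_mem hk) g a1 ?_),
      fun e => a2 (by simpa using mul_mem e (inv_mem hk))⟩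
    simpa using (h _ _ k⁻¹ e).2

theorem RC.cone {M : Subgroup G} [M.Normal] {P : Set G} (h : RC M P) :
    QuotientGroup.mk' M '' P ∈ Cone (G ⧸ M) := by
  refine ⟨⟨?_, ?_⟩, ?_, fun g hg => ?_⟩
  · rintro _ ⟨a, ha, rfl⟩ _ ⟨b, hb, rfl⟩
    exact ⟨_, h.ns.mul _ ha _ hb, map_mul _ _ _⟩
  · rintro x - _ ⟨a, ha, rfl⟩
    obtain ⟨x, rfl⟩ := QuotientGroup.mk'_surjective M x
    exact ⟨_, h.ns.cj x trivial _ ha, by simp⟩
  · rintro ⟨a, ha, e⟩
    exact h.dis a ha ((QuotientGroup.eq_one_iff a).1 e)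
  · obtain ⟨g, rfl⟩ := QuotientGroup.mk'_surjective M g
    exact (h.tri g fun k => hg ((QuotientGroup.eq_one_iff g).2 k)).imp (fun k => ⟨g, k, rfl⟩)
      fun k => ⟨_, k, map_inv _ _⟩

theorem RC.root {M : Subgroup G} {P : Set G} (h : RC M P) {x : G} {j : ℤ} (hj : j ≠ 0)
    (hx : x ^ j ∈ M) : x ∈ M := by
  have key : ∀ x : G, ∀ n : ℕ, x ^ (n + 1) ∈ M → x ∈ M := fun x n k => by
    by_contra e
    rcases h.tri x e with a | a
    · exact h.dis _ (h.ns.pow a n) k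
    · exact h.dis _ (h.ns.pow a n) (by rw [inv_pow]; exact inv_mem k)
  obtain ⟨n, rfl | rfl⟩ := j.eq_nat_or_neg <;> obtain ⟨n, rfl⟩ : ∃ i, n = i + 1 := ⟨n - 1, by omega⟩
  · exact key x n (by rwa [zpow_natCast] at hx)
  · exact key x n (by rwa [zpow_neg, inv_mem_iff, zpow_natCast] at hx)

theorem exmax (h : (Cone G).Nonempty) {g0 : G} (h0 : g0 ≠ 1) : ∃ M : Subgroup G, (∃ P, RC M P) ∧
    g0 ∉ M ∧ ∀ M' : Subgroup G, (∃ P, RC M' P) → M ≤ M' → g0 ∉ M' → M' = M := by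
  obtain ⟨P0, p1, p2, p3⟩ := h
  obtain ⟨M, -, hM⟩ := zorn_le_nonempty₀ {M : Subgroup G | (∃ P, RC M P) ∧ g0 ∉ M} (fun C hC ch y hy => by
    have : Nonempty C := ⟨⟨y, hy⟩⟩
    have dir : DirectedOn (· ≤ ·) C := ch.directedOn
    have : IsDirectedOrder C := ⟨dir.directed_val⟩
    have mem : ∀ g, g ∈ sSup C ↔ ∃ M ∈ C, g ∈ M := fun g => Subgroup.mem_sSup_of_directedOn ⟨y, hy⟩ dir
    choose P hP using fun M : C => (hC M.2).1
    obtain ⟨U, hU⟩ := Ultrafilter.exists_le (atTop : Filter C)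
    have ev : ∀ g ∈ sSup C, ∀ᶠ M : C in U, g ∈ M.1 := fun g hg => by
      obtain ⟨M, hM, k⟩ := (mem g).1 hg
      exact hU ((eventually_ge_atTop ⟨M, hM⟩).mono fun N hN => hN k)
    refine ⟨sSup C, ⟨⟨{g | ∀ᶠ M : C in U, g ∈ P M}, ⟨fun g hg x => ?_⟩, ⟨fun a ha b hb => ?_,
      fun x _ a ha => ?_⟩, fun g hg => ?_, fun g hg k => ?_, fun g hg k hk => ?_⟩, fun k => ?_⟩,
      fun M hM => le_sSup hM⟩
    · obtain ⟨M, hM, k⟩ := (mem g).1 hg
      exact (mem _).2 ⟨M, hM, (hP ⟨M, hM⟩).nm.conj_mem _ k x⟩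
    · filter_upwards [ha, hb] with M a1 a2 using (hP M).ns.mul _ a1 _ a2
    · filter_upwards [ha] with M a1 using (hP M).ns.cj x trivial _ a1
    · exact Ultrafilter.eventually_or.1 (Eventually.of_forall fun M =>
        (hP M).tri g fun k => hg ((mem g).2 ⟨M, M.2, k⟩))
    · obtain ⟨M, a1, a2⟩ := (Eventually.and hg (ev g k)).exists
      exact (hP M).dis g a1 a2
    · filter_upwards [hg, ev k hk] with M a1 a2 using (hP M).ab _ a1 _ a2
    · obtain ⟨M, hM, k⟩ := (mem _).1 k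
      exact (hC hM).2 k) ⊥ ⟨⟨P0, inferInstance, p1, fun g hg => p3 g (by simpa using hg),
        fun g hg k => p2 (by rwa [Subgroup.mem_bot.1 k] at hg),
        fun g hg k hk => by rwa [Subgroup.mem_bot.1 hk, mul_one]⟩, by simpa using h0⟩
  exact ⟨M, hM.1.1, hM.1.2, fun M' a b c => le_antisymm (hM.2 ⟨a, c⟩ b) b⟩

theorem fin {n : ℕ} (h : (Cone G).Nonempty) (m : G →* Multiplicative ℤ) {x e y : G}
    (hx : m x = Multiplicative.ofAdd 1) (he : m e = 1) (h0 : e * (y * e * y⁻¹) ≠ 1)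
    (k1 : ∀ M : Subgroup G, M.Normal → ∀ h ∈ M, m h ≠ 1 → e * (y * e * y⁻¹) ∈ M)
    (k2 : ∀ M : Subgroup G, M.Normal → e ∈ M → ∀ g, g * (x ^ (m g).toAdd)⁻¹ ∈ M)
    (d1 : derivedSeries G (n + 1) = ⊥) (d2 : e * (y * e * y⁻¹) ∈ derivedSeries G n) :
    ∃ (Γ : Type) (_ : Group Γ), derivedSeries Γ (n + 1) = ⊥ ∧ derivedSeries Γ n ≠ ⊥ ∧
      (∃ r : Γ → Γ → Prop, BO r) ∧ ∃! H : Subgroup Γ, H ≠ ⊥ ∧ H ≠ ⊤ ∧ H.Normal ∧
        ∃ r : Γ → Γ → Prop, BO r ∧ ∀ a ∈ H, ∀ b ∈ H, ∀ g, r a g → r g b → g ∈ H := by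
  obtain ⟨M, ⟨P, hP⟩, g1, mx⟩ := exmax h h0
  have := hP.nm
  have le : M ≤ m.ker := fun g hg => by_contra fun k => g1 (k1 M this g hg k)
  have sj := QuotientGroup.mk'_surjective M
  have ne : QuotientGroup.mk' M (e * (y * e * y⁻¹)) ≠ 1 := fun k => g1 ((QuotientGroup.eq_one_iff _).1 k)
  let m' := QuotientGroup.lift M m le
  have em : ∀ g, m' (QuotientGroup.mk' M g) = m g := fun _ => rfl
  refine ⟨G ⧸ M, inferInstance, ?_, fun k => ne ?_, ⟨_, bo_of hP.cone⟩, m'.ker, ⟨fun k => ne ?_,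
    fun k => ?_, inferInstance, ?_⟩, ?_⟩
  · rw [← map_derivedSeries_eq sj, d1, Subgroup.map_bot]
  · rw [← Subgroup.mem_bot, ← k]
    exact map_derivedSeries_le_derivedSeries _ _ ⟨_, d2, rfl⟩
  · rw [← Subgroup.mem_bot, ← k, MonoidHom.mem_ker, em]
    simp [he]
  · have : QuotientGroup.mk' M x ∈ m'.ker := k ▸ Subgroup.mem_top _
    rw [MonoidHom.mem_ker, em, hx] at this
    simp at this
  · obtain ⟨⟨c1, c2⟩, c3, c4⟩ := hP.cone
    have : {g | 0 < (m' g).toAdd ∨ m' g = 1 ∧ g ∈ QuotientGroup.mk' M '' P} ∈ Cone (G ⧸ M) := by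
      refine ⟨⟨?_, ?_⟩, by simpa using c3, fun g hg => ?_⟩
      · rintro a (a1 | ⟨a1, a2⟩) b (b1 | ⟨b1, b2⟩)
        · left; rw [map_mul, toAdd_mul]; exact add_pos a1 b1
        · left; rwa [map_mul, b1, mul_one]
        · left; rwa [map_mul, a1, one_mul]
        · exact Or.inr ⟨by rw [map_mul, a1, b1, one_mul], c1 _ a2 _ b2⟩
      · rintro z - a (a1 | ⟨a1, a2⟩)
        · left; simpa using a1
        · exact Or.inr ⟨by simp [a1], c2 z trivial _ a2⟩
      · rcases lt_trichotomy (m' g).toAdd 0 with k | k | k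
        · exact Or.inr (Or.inl (by simpa using k))
        · have k' : m' g = 1 := toAdd_eq_zero.1 k
          exact (c4 g hg).imp (fun a => Or.inr ⟨k', a⟩) fun a => Or.inr ⟨by simp [k'], a⟩
        · exact Or.inl (Or.inl k)
    refine ⟨_, bo_of this, fun a ha b hb g h1 h2 => ?_⟩
    rw [MonoidHom.mem_ker] at ha hb ⊢
    have u1 : 0 ≤ (m' g).toAdd := by
      rcases h1 with rfl | k | k
      · simp [ha]
      · simpa [ha] using k.le
      · simpa [ha] using (toAdd_eq_zero.2 k.1).ge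
    have u2 : (m' g).toAdd ≤ 0 := by
      rcases h2 with rfl | k | k
      · simp [hb]
      · simpa [hb] using k.le
      · simpa [hb] using (toAdd_eq_zero.2 k.1).ge
    exact toAdd_eq_zero.1 (le_antisymm u2 u1)
  · rintro H ⟨h1, h2, h3, r, h4, h5⟩
    have rc := (rc_of h4 h3 h5).comap (QuotientGroup.mk' M)
    have g2 : e * (y * e * y⁻¹) ∈ H.comap (QuotientGroup.mk' M) := by
      by_contra k
      have := mx _ ⟨_, rc⟩ (fun g hg => by
        rw [Subgroup.mem_comap, show QuotientGroup.mk' M g = 1 from (QuotientGroup.eq_one_iff g).2 hg]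
        exact one_mem _) k
      refine h1 (eq_bot_iff.2 fun g hg => ?_)
      obtain ⟨g, rfl⟩ := sj g
      exact (QuotientGroup.eq_one_iff g).2 (this.le hg)
    have g3 : e ∈ H.comap (QuotientGroup.mk' M) := by
      by_contra k
      rcases rc.tri e k with a | a
      · exact rc.dis _ (rc.ns.mul _ a _ (rc.ns.cj y trivial _ a)) g2
      · refine rc.dis _ (rc.ns.mul _ (rc.ns.cj y trivial _ a) _ a) ?_
        convert inv_mem g2 using 1
        group
    have g4 := k2 _ rc.nm g3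
    ext g
    obtain ⟨g, rfl⟩ := sj g
    rw [MonoidHom.mem_ker, em]
    refine ⟨fun k => by_contra fun k' => h2 (eq_top_iff.2 fun z _ => ?_), fun k => by simpa [k] using g4 g⟩
    obtain ⟨z, rfl⟩ := sj z
    have : x ∈ H.comap (QuotientGroup.mk' M) := rc.root (j := (m g).toAdd) (by simpa using k')
      (by simpa using mul_mem (inv_mem (g4 g)) (show g ∈ H.comap _ from k))
    have := mul_mem (g4 z) (zpow_mem this (m z).toAdd)
    rwa [inv_mul_cancel_right] at this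

end Pool.Agent.H.MP_afa6c5_al
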