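import Pool.Agent.H.MP_afa6c5_al.HA

set_option autoImplicit false

namespace Pool.Agent.H.MP_afa6c5_al

open scoped commutatorElement
open Pool.Agent.H.MP_23b8d1_al Pool.Agent.H.MP_7c6b96_al

theorem ds_anti {G : Type} [Group G] {i j : ℕ} (h : i ≤ j) : derivedSeries G j ≤ derivedSeries G i := by
  induction j, h using Nat.le_induction with
  | base => exact le_rfl
  | succ j _ ih => exact (Subgroup.commutator_le_self _).trans ih

theorem ds_sq {G : Type} [Group G] {c v : G} {j : ℕ} (hc : c ∈ derivedSeries G j)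
    (h : c * v * c⁻¹ = v * v) : v ∈ derivedSeries G (j + 1) := by
  have : ∀ i, i ≤ j + 1 → v ∈ derivedSeries G i := fun i hi => by
    induction i with
    | zero => trivial
    | succ i ih =>
      have := Subgroup.commutator_mem_commutator (ds_anti (by omega : i ≤ j) hc) (ih (by omega))
      rwa [commutatorElement_def, h, mul_inv_cancel_right] at this
  exact this _ le_rfl

/-- An ordered split extension with abelian kernel and a character of the kernel. -/
structure St (j : ℕ) (Z : Type) [Group Z] where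
  P : Set Z
  hP : P ∈ Cone Z
  pr : Z →* Z
  idem : ∀ z, pr (pr z) = pr z
  l : Z → ℝ
  add : ∀ a b, pr a = 1 → pr b = 1 → l (a * b) = l a + l b
  v : Z
  pv : pr v = 1
  lv : l v = 1
  dv : v ∈ derivedSeries Z j
  d : derivedSeries Z (j + 1) = ⊥

theorem coneR : {x : Multiplicative ℝ | 0 < x.toAdd} ∈ Cone (Multiplicative ℝ) :=
  ⟨⟨fun a ha b hb => show 0 < a.toAdd + b.toAdd from add_pos ha hb, fun x _ a ha => by simpa using ha⟩, by simp, fun g hg => by
    simpa [or_comm] using lt_or_gt_of_ne (show g.toAdd ≠ 0 by simpa using hg)⟩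

def st0 : St 0 (Multiplicative ℝ) where
  P := _
  hP := coneR
  pr := 1
  idem _ := rfl
  l x := x.toAdd
  add _ _ _ _ := rfl
  v := Multiplicative.ofAdd 1
  pv := rfl
  lv := rfl
  dv := trivial
  d := eq_bot_iff.2 (Subgroup.commutator_le.2 fun a _ b _ =>
    Subgroup.mem_bot.2 (commutatorElement_eq_one_iff_mul_comm.2 (mul_comm a b)))

namespace St

variable {j : ℕ} {Z : Type} [Group Z] (D : St j Z)

noncomputable def w (z u : Z) : ℝ := (2 : ℝ) ^ D.l (u⁻¹ * (z * (D.pr z)⁻¹) * u)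

theorem w_pos (z u : Z) : 0 < D.w z u := Real.rpow_pos_of_pos two_pos _

theorem w_mul (z z' u : Z) : D.w (z * z') u = D.w z u * D.w z' ((D.pr z)⁻¹ * u) := by
  rw [w, w, w, ← Real.rpow_add two_pos, ← D.add _ _ (by simp [D.idem]) (by simp [D.idem]), map_mul]
  congr 2
  group

theorem w_one (u : Z) : D.w 1 u = 1 := by
  have := D.add 1 1 (map_one _) (map_one _)
  simp only [mul_one, left_eq_add] at this
  simp [w, this]

/-- The next storey. -/
@[ext] structure W (D : St j Z) where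
  f : Z → ℝ
  z : Z
  fin : (Function.support f).Finite

theorem fin_tr {f : Z → ℝ} (h : (Function.support f).Finite) (a : Z → ℝ) (y : Z) :
    (Function.support fun u => a u * f (y⁻¹ * u)).Finite :=
  (h.image (y * ·)).subset fun u hu => ⟨y⁻¹ * u, right_ne_zero_of_mul hu, by simp⟩

noncomputable instance : Mul D.W := ⟨fun x y => ⟨fun u => x.f u + D.w x.z u * y.f ((D.pr x.z)⁻¹ * u),
  x.z * y.z, (x.fin.union (fin_tr y.fin _ _)).subset (Function.support_add _ _)⟩⟩
instance : One D.W := ⟨⟨0, 1, by simp⟩⟩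
noncomputable instance : Inv D.W := ⟨fun x => ⟨fun u => -D.w x.z⁻¹ u * x.f ((D.pr x.z⁻¹)⁻¹ * u),
  x.z⁻¹, fin_tr x.fin _ _⟩⟩

theorem mul_f (x y : D.W) (u : Z) :
    (x * y).f u = x.f u + D.w x.z u * y.f ((D.pr x.z)⁻¹ * u) := rfl
@[simp] theorem mul_z (x y : D.W) : (x * y).z = x.z * y.z := rfl
@[simp] theorem one_f : (1 : D.W).f = 0 := rfl
@[simp] theorem one_z : (1 : D.W).z = 1 := rfl
@[simp] theorem inv_z (x : D.W) : (x⁻¹).z = x.z⁻¹ := rfl

noncomputable instance : Group D.W := Group.ofLeftAxioms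
  (fun x y z => by
    ext u
    · simp only [mul_f, mul_z, w_mul, map_mul, mul_inv_rev, mul_assoc]; ring
    · simp [mul_assoc])
  (fun x => by ext u <;> simp [mul_f, w_one])
  (fun x => by
    ext u
    · show -D.w x.z⁻¹ u * x.f ((D.pr x.z⁻¹)⁻¹ * u) + D.w x.z⁻¹ u * x.f ((D.pr x.z⁻¹)⁻¹ * u) = 0
      ring
    · simp)

noncomputable def π : D.W →* Z := MonoidHom.mk' W.z fun _ _ => rfl

noncomputable def ι : Z →* D.W := MonoidHom.mk' (fun z => ⟨0, z, by simp⟩) fun _ _ => by ext u <;> simp [mul_f]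

theorem add_f {x : D.W} (h : x.z = 1) (y : D.W) (u : Z) : (x * y).f u = x.f u + y.f u := by
  simp [mul_f, h, w_one]

theorem cone : (Cone D.W).Nonempty := by
  obtain ⟨i, hi⟩ := exLO D.hP
  refine lead_cone coneR D.hP D.π (fun u x => Multiplicative.ofAdd (x.f u))
    (fun u g h k _ => congrArg Multiplicative.ofAdd (D.add_f k h u)) (fun g hg k => ?_)
    (fun x => ⟨(D.pr x.z * ·), fun a b h => by rw [hi] at h ⊢; simpa [mul_assoc] using h,
      fun a => ⟨(D.pr x.z)⁻¹ * a, by simp⟩, fun u g k _ => ?_⟩) fun _ => rfl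
  · obtain ⟨u, hu, mx⟩ := g.fin.exists_maximal (Function.support_nonempty_iff.2 fun e => hg (W.ext e k))
      |>.imp fun u h => And.intro h.1 h.2
    exact ⟨u, fun i hi => by_contra fun e => absurd (mx (show g.f i ≠ 0 by simpa using e) hi.le)
      (not_le.2 hi), by simpa using hu⟩
  · have k' : g.z = 1 := k
    have e : (x * g * x⁻¹).f (D.pr x.z * u) = D.w x.z (D.pr x.z * u) * g.f u := by
      have := congrFun (congrArg W.f (mul_inv_cancel x)) (D.pr x.z * u)
      simp only [mul_f, mul_z, k', mul_one, inv_mul_cancel_left, one_f, Pi.zero_apply] at this ⊢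
      linarith
    simp only [e, ofAdd_eq_one, Set.mem_setOf_eq, toAdd_ofAdd]
    exact ⟨fun h => by rw [h, mul_zero], mul_pos (D.w_pos _ _)⟩

open Classical in
noncomputable def v' : D.W := ⟨Pi.single 1 1, 1, (Set.finite_singleton 1).subset Pi.support_single_subset⟩

theorem sq : D.ι D.v * D.v' * (D.ι D.v)⁻¹ = D.v' * D.v' := by
  classical
  rw [mul_inv_eq_iff_eq_mul]
  ext u
  · by_cases h : u = 1 <;> simp [mul_f, ι, v', D.pv, h, w, D.lv]
    have := D.w_one 1
    simp only [w, map_one, inv_one, mul_one] at this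
    rw [this]; norm_num
  · simp [ι, v']

noncomputable def next : St (j + 1) D.W where
  P := D.cone.some
  hP := D.cone.some_mem
  pr := D.ι.comp D.π
  idem _ := rfl
  l x := x.f 1
  add a b h _ := D.add_f (x := a) (congrArg W.z h) b 1
  v := D.v'
  pv := rfl
  lv := by simp [v']
  dv := ds_sq (map_derivedSeries_le_derivedSeries D.ι j ⟨_, D.dv, rfl⟩) D.sq
  d := eq_bot_iff.2 (Subgroup.commutator_le.2 fun a ha b hb => by
    have k : ∀ a ∈ derivedSeries D.W (j + 1), a.z = 1 := fun a ha =>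
      Subgroup.mem_bot.1 (D.d ▸ map_derivedSeries_le_derivedSeries D.π _ ⟨a, ha, rfl⟩)
    refine Subgroup.mem_bot.2 (commutatorElement_eq_one_iff_mul_comm.2 (W.ext (funext fun u => ?_) ?_))
    · rw [D.add_f (k a ha), D.add_f (k b hb), add_comm]
    · simp [k a ha, k b hb])

end St

theorem exSt (j : ℕ) : ∃ (Z : Type) (_ : Group Z) (D : St (j + 1) Z) (c : Z),
    D.pr c = c ∧ c ∈ derivedSeries Z j ∧ c * D.v * c⁻¹ = D.v * D.v := by
  have : ∀ j, ∃ (Z : Type) (_ : Group Z), Nonempty (St j Z) := fun j => by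
    induction j with
    | zero => exact ⟨_, _, ⟨st0⟩⟩
    | succ j ih =>
      obtain ⟨Z, _, ⟨D⟩⟩ := ih
      exact ⟨_, _, ⟨D.next⟩⟩
  obtain ⟨Z, _, ⟨D⟩⟩ := this j
  exact ⟨_, _, D.next, D.ι D.v, rfl, map_derivedSeries_le_derivedSeries D.ι j ⟨_, D.dv, rfl⟩, D.sq⟩

end Pool.Agent.H.MP_afa6c5_al
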