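import Pool.Agent.H.MP_afa6c5_al.HB

set_option autoImplicit false

namespace Pool.Agent.H.MP_afa6c5_al

open scoped commutatorElement
open Pool.Agent.H.MP_23b8d1_al Pool.Agent.H.MP_7c6b96_al

def ε (i : ℤ) : ℤ := i.negOnePow

@[simp] theorem ε_add (a b : ℤ) : ε (a + b) = ε a * ε b := by simp [ε, Int.negOnePow_add]
@[simp] theorem ε_neg (a : ℤ) : ε (-a) = ε a := by simp [ε]
@[simp] theorem ε_zero : ε 0 = 1 := rfl
@[simp] theorem ε_one : ε 1 = -1 := rfl
theorem ε_or (a : ℤ) : ε a = 1 ∨ ε a = -1 := by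
  rcases Int.units_eq_one_or a.negOnePow with h | h <;> simp [ε, h]
@[simp] theorem ε_mul (a b : ℤ) : ε (ε a * b) = ε b := by rcases ε_or a with h | h <;> simp [h]
@[simp] theorem ε_sq (a : ℤ) : ε a * ε a = 1 := by rcases ε_or a with h | h <;> simp [h]
@[simp] theorem ε_sq' (a b : ℤ) : ε a * (ε a * b) = b := by rw [← mul_assoc, ε_sq, one_mul]

/-- The infinite Tararin tower extended by the shift. -/
@[ext] structure Q where
  a : ℤ → ℤ
  m : ℤ
  bd : ∃ R, ∀ i, R ≤ i → a i = 0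

instance : Mul Q := ⟨fun x y => ⟨fun i => x.a i + ε (x.a (i + 1)) * y.a (i - x.m), x.m + y.m, by
  obtain ⟨R, h⟩ := x.bd
  obtain ⟨R', h'⟩ := y.bd
  exact ⟨max R (R' + x.m), fun i hi => by rw [h i (by omega), h' _ (by omega)]; simp⟩⟩⟩
instance : One Q := ⟨⟨0, 0, 0, fun _ _ => rfl⟩⟩
instance : Inv Q := ⟨fun x => ⟨fun i => -(ε (x.a (i + x.m + 1)) * x.a (i + x.m)), -x.m, by
  obtain ⟨R, h⟩ := x.bd
  exact ⟨R - x.m, fun i hi => by rw [h (i + x.m) (by omega)]; simp⟩⟩⟩

@[simp] theorem qmul_a (x y : Q) (i : ℤ) : (x * y).a i = x.a i + ε (x.a (i + 1)) * y.a (i - x.m) := rfl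
@[simp] theorem qmul_m (x y : Q) : (x * y).m = x.m + y.m := rfl
@[simp] theorem qone_a (i : ℤ) : (1 : Q).a i = 0 := rfl
@[simp] theorem qone_m : (1 : Q).m = 0 := rfl
@[simp] theorem qinv_a (x : Q) (i : ℤ) : (x⁻¹).a i = -(ε (x.a (i + x.m + 1)) * x.a (i + x.m)) := rfl
@[simp] theorem qinv_m (x : Q) : (x⁻¹).m = -x.m := rfl

instance : Group Q := Group.ofLeftAxioms
  (fun x y z => by
    ext i
    · simp only [qmul_a, qmul_m, ε_add, ε_mul, sub_add_eq_sub_sub, sub_add_eq_add_sub]; ring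
    · simp [add_assoc])
  (fun x => by ext <;> simp)
  (fun x => by
    ext i
    · simp [add_right_comm i 1]
    · simp)

def mq : Q →* Multiplicative ℤ := MonoidHom.mk' (fun q => Multiplicative.ofAdd q.m) fun _ _ => rfl

theorem dsQ : derivedSeries Q 3 = ⊥ := by
  have h1 : ∀ q ∈ derivedSeries Q 1, q.m = 0 := fun q hq => by
    have : derivedSeries Q 1 ≤ mq.ker := Subgroup.commutator_le.2 fun a _ b _ => by
      rw [MonoidHom.mem_ker, map_commutatorElement, commutatorElement_eq_one_iff_mul_comm, mul_comm]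
    exact ofAdd_eq_one.1 (this hq)
  let H : Subgroup Q :=
    { carrier := {q | ∀ i, ε (q.a i) = 1}
      one_mem' := fun _ => rfl
      mul_mem' := fun a b i => by simp [a _, b _]
      inv_mem' := fun a i => by simp [a _] }
  have h2 : derivedSeries Q 2 ≤ H := Subgroup.commutator_le.2 fun a ha b hb i => by
    have k1 : ∀ x y : Q, ε ((x * y).a i) = ε (x.a i) * ε (y.a (i - x.m)) := fun x y => by simp
    have k2 : ∀ (x : Q) (i : ℤ), ε (x⁻¹.a i) = ε (x.a (i + x.m)) := fun x i => by simp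
    simp only [commutatorElement_def, k1, k2, qmul_m, qinv_m, h1 a ha, h1 b hb, add_zero, sub_zero,
      neg_zero]
    rcases ε_or (a.a i) with h | h <;> rcases ε_or (b.a i) with h' | h' <;> simp [h, h']
  have h3 : ∀ q ∈ derivedSeries Q 2, q.m = 0 := fun q hq => h1 q (ds_anti one_le_two hq)
  refine eq_bot_iff.2 (Subgroup.commutator_le.2 fun a ha b hb => Subgroup.mem_bot.2
    (commutatorElement_eq_one_iff_mul_comm.2 ?_))
  ext i
  · simp [h2 ha _, h2 hb _, h3 a ha, h3 b hb, add_comm]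
  · simp [add_comm]

abbrev S := ℕ →₀ ℤ

noncomputable def act (q : Q) (k : ℤ) (s : S) : S :=
  Finsupp.ofSupportFinite (fun i => s i + ε (q.a (k + i + 1) + s (i + 1)) * q.a (k + i)) (by
    obtain ⟨R, h⟩ := q.bd
    refine (s.hasFiniteSupport.union (Set.finite_lt_nat (R - k).toNat)).subset fun i hi => ?_
    by_contra e
    simp only [Set.mem_union, Function.mem_support, Set.mem_ofPred_eq, not_or, not_not, not_lt] at e
    exact hi (by simp [e.1, h (k + i) (by omega)]))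

theorem act_apply (q : Q) (k : ℤ) (s : S) (i : ℕ) :
    act q k s i = s i + ε (q.a (k + i + 1) + s (i + 1)) * q.a (k + i) := rfl

theorem act_fix {q : Q} {k : ℤ} (h : ∀ i, k ≤ i → q.a i = 0) (s : S) : act q k s = s := by
  ext i; simp [act_apply, h (k + i) (by omega)]

theorem act_mul (q r : Q) (k : ℤ) (s : S) : act (q * r) k s = act q k (act r (k - q.m) s) := by
  ext i
  simp only [act_apply, qmul_a, ε_add, ε_mul, mul_assoc, Nat.cast_succ, ← add_assoc,
    sub_add_eq_add_sub, mul_add, ε_sq']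
  rcases ε_or (q.a (k + i + 1)) with h | h <;> simp only [h] <;> ring

theorem act_bij (q : Q) (k : ℤ) : Function.Bijective (act q k) :=
  Function.bijective_iff_has_inverse.2 ⟨act q⁻¹ (k - q.m), fun s => by
    have := act_mul q⁻¹ q (k - q.m) s
    rw [inv_mul_cancel, act_fix fun _ _ => rfl] at this
    simpa using this.symm, fun s => by rw [← act_mul, mul_inv_cancel, act_fix fun _ _ => rfl]⟩

theorem act_lt (q : Q) (k : ℤ) {s t : S} (h : toColex s < toColex t) :
    toColex (act q k s) < toColex (act q k t) := by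
  obtain ⟨i, h1, h2⟩ : ∃ i, (∀ j, i < j → s j = t j) ∧ s i < t i := h
  refine ⟨i, fun j hj => ?_, ?_⟩
  · show act q k s j = act q k t j
    rw [act_apply, act_apply, h1 j hj, h1 (j + 1) (by omega)]
  · show act q k s i < act q k t i
    rw [act_apply, act_apply, h1 (i + 1) (by omega)]
    linarith

/-- Points: a level, a row and a position in the row. -/
@[ext] structure Pt where
  k : ℤ
  s : S
  n : ℤ

noncomputable instance : MulAction Q Pt where
  smul q p := ⟨p.k + q.m, act q (p.k + q.m + 1) p.s, p.n + ε (q.a (p.k + q.m + 1) + p.s 0) * q.a (p.k + q.m)⟩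
  one_smul p := Pt.ext (add_zero _) (act_fix (fun _ _ => rfl) _) (by show _ + _ * 0 = _; simp)
  mul_smul q r p := by
    refine Pt.ext (show p.k + (q.m + r.m) = p.k + r.m + q.m by ring) ?_ ?_
    · show act (q * r) (p.k + (q.m + r.m) + 1) p.s = act q (p.k + r.m + q.m + 1) (act r (p.k + r.m + 1) p.s)
      rw [act_mul, show p.k + (q.m + r.m) + 1 - q.m = p.k + r.m + 1 by ring,
        show p.k + (q.m + r.m) = p.k + r.m + q.m by ring]
    · show p.n + ε ((q * r).a (p.k + (q.m + r.m) + 1) + p.s 0) * (q * r).a (p.k + (q.m + r.m)) =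
        p.n + ε (r.a (p.k + r.m + 1) + p.s 0) * r.a (p.k + r.m) +
          ε (q.a (p.k + r.m + q.m + 1) + act r (p.k + r.m + 1) p.s 0) * q.a (p.k + r.m + q.m)
      simp only [act_apply, qmul_a, ε_add, ε_mul, mul_assoc, mul_add, Nat.cast_zero, add_zero,
        show p.k + (q.m + r.m) = p.k + r.m + q.m by ring, add_sub_cancel_right,
        show p.k + r.m + q.m + 1 - q.m = p.k + r.m + 1 by ring]
      rcases ε_or (q.a (p.k + r.m + q.m + 1)) with h | h <;> simp only [h] <;> ring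

@[simp] theorem smul_k (q : Q) (p : Pt) : (q • p).k = p.k + q.m := rfl
theorem smul_s (q : Q) (p : Pt) : (q • p).s = act q (p.k + q.m + 1) p.s := rfl
theorem smul_n (q : Q) (p : Pt) :
    (q • p).n = p.n + ε (q.a (p.k + q.m + 1) + p.s 0) * q.a (p.k + q.m) := rfl

theorem fix {q : Q} {p : Pt} (h : q.m = 0) (h' : ∀ i, p.k ≤ i → q.a i = 0) : q • p = p :=
  Pt.ext (by simp [h]) (act_fix (fun i hi => h' i (by omega)) _) (by simp [smul_n, h, h'])

/-- The index chain. -/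
@[ext] structure J where
  k : ℤ
  b : Bool
  s : S
  n : ℤ

noncomputable instance : LinearOrder J :=
  LinearOrder.lift' (fun j => toLex (j.k, toLex (j.b, toLex (toColex j.s, j.n)))) fun i j h => by
    simp only [toLex_inj, Prod.mk.injEq, toColex_inj] at h
    exact J.ext h.1 h.2.1 h.2.2.1 h.2.2.2

theorem J.lt_iff (i j : J) : i < j ↔ i.k < j.k ∨ i.k = j.k ∧ (i.b < j.b ∨ i.b = j.b ∧
    (toColex i.s < toColex j.s ∨ i.s = j.s ∧ i.n < j.n)) := by
  show toLex (i.k, toLex (i.b, toLex (toColex i.s, i.n))) <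
    toLex (j.k, toLex (j.b, toLex (toColex j.s, j.n))) ↔ _
  simp only [Prod.Lex.toLex_lt_toLex, toColex_inj]

def pt (j : J) : Pt := ⟨j.k, j.s, if j.b then -j.n else j.n⟩
def idx (b : Bool) (p : Pt) : J := ⟨p.k, b, p.s, if b then -p.n else p.n⟩

theorem pt_idx (b : Bool) (p : Pt) : pt (idx b p) = p := by cases b <;> simp [pt, idx]
theorem idx_pt (j : J) : idx j.b (pt j) = j := by
  obtain ⟨k, b, s, n⟩ := j
  cases b <;> simp [pt, idx]

theorem ρ_sm (q : Q) : StrictMono fun j : J => idx j.b (q • pt j) := by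
  rintro ⟨k, b, s, n⟩ ⟨k', b', s', n'⟩ h
  rw [J.lt_iff] at h ⊢
  rcases h with h | ⟨rfl, h | ⟨rfl, h | ⟨rfl, h⟩⟩⟩
  · exact Or.inl (add_lt_add_left h _)
  · exact Or.inr ⟨rfl, Or.inl h⟩
  · exact Or.inr ⟨rfl, Or.inr ⟨rfl, Or.inl (act_lt _ _ h)⟩⟩
  · refine Or.inr ⟨rfl, Or.inr ⟨rfl, Or.inr ⟨rfl, ?_⟩⟩⟩
    cases b <;> simpa [idx, pt, smul_n] using h

variable {Z : Type} [Group Z]

abbrev B (Z : Type) [Group Z] := (Pt → Z) ⋊[mulAutArrow] Q

theorem mul_l (x y : B Z) (p : Pt) : (x * y).left p = x.left p * y.left (x.right⁻¹ • p) := rfl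
theorem inv_l (x : B Z) (p : Pt) : (x⁻¹).left p = (x.left (x.right • p))⁻¹ := by
  show (x.left (x.right⁻¹⁻¹ • p))⁻¹ = _
  rw [inv_inv]

theorem conj_l (x g : B Z) {p : Pt} (h : g.right • p = p) : (x * g * x⁻¹).left (x.right • p) =
    x.left (x.right • p) * g.left p * (x.left (x.right • p))⁻¹ := by
  rw [mul_l, mul_l, inv_l, inv_smul_smul, SemidirectProduct.mul_right, mul_inv_rev, mul_smul,
    inv_smul_smul, inv_smul_eq_iff.2 h.symm]

theorem dsB {d : ℕ} (h : derivedSeries Z d = ⊥) : derivedSeries (B Z) (d + 3) = ⊥ := by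
  have : ∀ i, derivedSeries (B Z) (i + 3) ≤ (derivedSeries (Pt → Z) i).map SemidirectProduct.inl := by
    intro i
    induction i with
    | zero =>
      intro x hx
      have := map_derivedSeries_le_derivedSeries SemidirectProduct.rightHom 3 ⟨x, hx, rfl⟩
      rw [dsQ] at this
      exact ⟨x.left, trivial, SemidirectProduct.ext rfl (Subgroup.mem_bot.1 this).symm⟩
    | succ i ih =>
      rw [derivedSeries_succ (Pt → Z), Subgroup.map_commutator]
      exact Subgroup.commutator_mono ih ih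
  refine eq_bot_iff.2 fun x hx => ?_
  obtain ⟨f, hf, rfl⟩ := this d hx
  obtain rfl : f = 1 := funext fun p => Subgroup.mem_bot.1
    (h ▸ map_derivedSeries_le_derivedSeries (Pi.evalMonoidHom (fun _ => Z) p) d ⟨f, hf, rfl⟩)
  exact map_one _

namespace St

variable {j : ℕ} (D : St j Z)

theorem vz {i : ℤ} (h : D.v ^ i = 1) : i = 0 := by
  by_contra k
  have ne : D.v ≠ 1 := fun e => by
    have := D.add _ _ D.pv D.pv
    have l := D.lv
    rw [e] at l
    rw [e, one_mul, l] at this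
    norm_num at this
  obtain ⟨b, hb⟩ := cone_zpow D.hP ne
  rcases sg_tri b (x := i) (by exact_mod_cast k) with a | a
  · exact D.hP.2.1 (h ▸ hb i a)
  · exact D.hP.2.1 (by simpa [h] using hb (-i) (by simpa using a))

/-- Admissible functions with alternating tails `c`. -/
structure Tl (g : Pt → Z) (c : ℤ → S → ℤ) : Prop where
  fin : {r : ℤ × S | ∃ n, g ⟨r.1, r.2, n⟩ ≠ 1}.Finite
  lo : ∀ k s, ∃ n0, ∀ n, n < n0 → g ⟨k, s, n⟩ = D.v ^ (ε n * c k s)
  hi : ∀ k s, ∃ n1, ∀ n, n1 < n → D.pr (g ⟨k, s, n⟩) = g ⟨k, s, n⟩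

variable {D}

theorem Tl.zero {g : Pt → Z} {c : ℤ → S → ℤ} (h : D.Tl g c) {k : ℤ} {s : S}
    (e : ∀ n, g ⟨k, s, n⟩ = 1) : c k s = 0 := by
  obtain ⟨n, hn⟩ := h.lo k s
  have := D.vz ((hn (n - 1) (by omega)).symm.trans (e _))
  rcases ε_or (n - 1) with a | a <;> simpa [a] using this

theorem Tl.cfin {g : Pt → Z} {c : ℤ → S → ℤ} (h : D.Tl g c) (k : ℤ) : (c k).HasFiniteSupport :=
  (h.fin.image Prod.snd).subset fun s hs => ⟨(k, s), by
    by_contra e
    exact hs (h.zero (by simpa using e)), rfl⟩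

theorem Tl.tr {g : Pt → Z} {c : ℤ → S → ℤ} (h : D.Tl g c) (q : Q) : D.Tl (fun p => g (q • p))
    fun k s => ε (q.a (k + q.m)) * c (k + q.m) (act q (k + q.m + 1) s) := by
  refine ⟨(h.fin.preimage (f := fun r : ℤ × S => (r.1 + q.m, act q (r.1 + q.m + 1) r.2)) ?_).subset
    fun r ⟨n, hn⟩ => ⟨_, hn⟩, fun k s => ?_, fun k s => ?_⟩
  · rintro ⟨k, s⟩ - ⟨k', s'⟩ - e
    simp only [Prod.mk.injEq, add_left_inj] at e
    obtain ⟨rfl, e⟩ := e
    rw [(act_bij _ _).1 e]
  · obtain ⟨n0, hn⟩ := h.lo (k + q.m) (act q (k + q.m + 1) s)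
    refine ⟨n0 - ε (q.a (k + q.m + 1) + s 0) * q.a (k + q.m), fun n hn' => (hn _ ?_).trans ?_⟩
    · exact lt_sub_iff_add_lt.1 hn'
    · simp only [ε_add n, ε_mul, mul_assoc]
  · obtain ⟨n0, hn⟩ := h.hi (k + q.m) (act q (k + q.m + 1) s)
    exact ⟨n0 - ε (q.a (k + q.m + 1) + s 0) * q.a (k + q.m), fun n hn' => hn _ (sub_lt_iff_lt_add.1 hn')⟩

theorem Tl.mul {g g' : Pt → Z} {c c' : ℤ → S → ℤ} (h : D.Tl g c) (h' : D.Tl g' c') :
    D.Tl (fun p => g p * g' p) fun k s => c k s + c' k s := by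
  refine ⟨(h.fin.union h'.fin).subset fun r ⟨n, hn⟩ => ?_, fun k s => ?_, fun k s => ?_⟩
  · by_contra e
    simp only [Set.mem_union, Set.mem_ofPred_eq, not_or, not_exists, not_not] at e
    exact hn (by simp [e.1, e.2])
  · obtain ⟨a, ha⟩ := h.lo k s
    obtain ⟨b, hb⟩ := h'.lo k s
    exact ⟨min a b, fun n hn => by rw [ha n (by omega), hb n (by omega), mul_add, zpow_add]⟩
  · obtain ⟨a, ha⟩ := h.hi k s
    obtain ⟨b, hb⟩ := h'.hi k s
    exact ⟨max a b, fun n hn => by rw [map_mul, ha n (by omega), hb n (by omega)]⟩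

theorem Tl.inv {g : Pt → Z} {c : ℤ → S → ℤ} (h : D.Tl g c) :
    D.Tl (fun p => (g p)⁻¹) fun k s => -c k s :=
  ⟨by simpa using h.fin, fun k s => (h.lo k s).imp fun a ha n hn => by rw [ha n hn, mul_neg, zpow_neg],
    fun k s => (h.hi k s).imp fun a ha n hn => by rw [map_inv, ha n hn]⟩

theorem sum_tr (c : S → ℤ) (q : Q) (k a : ℤ) : ∑ᶠ s, a * c (act q k s) = a * ∑ᶠ s, c s := by
  rw [← mul_finsum, finsum_eq_of_bijective _ (act_bij q k) fun _ => rfl]

variable (D)

/-- The ordered group. -/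
def Gh : Subgroup (B Z) where
  carrier := {b | ∃ c, D.Tl b.left c ∧ ∀ k, b.right.a k = ∑ᶠ s, c (k + 1) s}
  one_mem' := ⟨0, ⟨by simp, fun _ _ => ⟨0, by simp⟩, fun _ _ => ⟨0, by simp⟩⟩, by simp⟩
  mul_mem' := by
    rintro x y ⟨c, h1, h2⟩ ⟨c', h3, h4⟩
    refine ⟨_, h1.mul (h3.tr x.right⁻¹), fun k => ?_⟩
    rw [finsum_add_distrib (h1.cfin _) ((h3.tr x.right⁻¹).cfin _), sum_tr, ← h2,
      show k + 1 + x.right⁻¹.m = k - x.right.m + 1 by simp; ring, ← h4]
    simp [show k - x.right.m + 1 + x.right.m = k + 1 by ring]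
  inv_mem' := by
    rintro x ⟨c, h1, h2⟩
    refine ⟨_, funext (inv_l x) ▸ (h1.tr x.right).inv, fun k => ?_⟩
    rw [finsum_neg_distrib, sum_tr, add_right_comm, ← h2]
    rfl

def val (i : J) (b : B Z) : Z := if i.b then D.pr (b.left (pt i)) else b.left (pt i)

theorem lev {b : B Z} (hb : b ∈ D.Gh) {i : J} (h : ∀ i', i < i' → D.val i' b = 1) (k : ℤ)
    (hk : i.k ≤ k) : b.right.a k = 0 := by
  obtain ⟨c, h1, h2⟩ := hb
  rw [h2]
  exact finsum_eq_zero_of_forall_eq_zero fun s => h1.zero fun n =>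
    h ⟨k + 1, false, s, n⟩ ((J.lt_iff _ _).2 (Or.inl (by simp; omega)))

noncomputable def mB : B Z →* Multiplicative ℤ := mq.comp SemidirectProduct.rightHom

theorem coneG : (Cone D.Gh).Nonempty := by
  have cZ : {x : Multiplicative ℤ | 0 < x.toAdd} ∈ Cone (Multiplicative ℤ) :=
    ⟨⟨fun a ha b hb => show 0 < a.toAdd + b.toAdd from add_pos ha hb, fun x _ a ha => by simpa using ha⟩,
      by simp, fun g hg => by
        simpa [or_comm] using lt_or_gt_of_ne (show g.toAdd ≠ 0 by simpa using hg)⟩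
  refine lead_cone D.hP cZ (mB.comp D.Gh.subtype) (fun i g => D.val i g) (fun i g h k k' => ?_)
    (fun g hg k => ?_) (fun x => ⟨_, ρ_sm x.1.right, fun i => ⟨idx i.b (x.1.right⁻¹ • pt i), ?_⟩,
      fun i g k k' => ?_⟩) fun i => by simp [val]
  · have := fix (q := g.1.right) (p := pt i) (ofAdd_eq_one.1 k) (D.lev g.2 k')
    simp only [val, Subgroup.coe_mul, mul_l, inv_smul_eq_iff.2 this.symm, map_mul]
    split_ifs <;> rfl
  · obtain ⟨c, h1, h2⟩ := g.2
    let T : Set J := {i | i.n = 0 ∧ ∃ n, D.val ⟨i.k, i.b, i.s, n⟩ g ≠ 1}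
    have Tf : T.Finite := by
      refine ((h1.fin.prod (Set.toFinite (Set.univ : Set Bool))).image
        fun r => (⟨r.1.1, r.2, r.1.2, 0⟩ : J)).subset ?_
      rintro ⟨k, b, s, _⟩ ⟨rfl, n, hn⟩
      refine ⟨((k, s), b), ⟨⟨if b then -n else n, fun e => hn ?_⟩, trivial⟩, rfl⟩
      simp only [val, pt]
      rw [e]; simp
    have Tn : T.Nonempty := by
      by_contra e
      have : ∀ p, g.1.left p = 1 := fun p => by_contra fun k => e ⟨⟨p.k, false, p.s, 0⟩, rfl, p.n, k⟩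
      refine hg (Subtype.ext (SemidirectProduct.ext (funext this) (Q.ext (funext fun i => ?_)
        (ofAdd_eq_one.1 k))))
      rw [h2, finsum_eq_zero_of_forall_eq_zero fun s => h1.zero fun n => this _]
      rfl
    obtain ⟨⟨k, b, s, _⟩, ⟨rfl, hn⟩, mx⟩ := Set.exists_max_image T id Tf Tn
    obtain ⟨n, n1, n2⟩ := Int.exists_greatest_of_bdd (P := fun n => D.val ⟨k, b, s, n⟩ g ≠ 1) (by
      cases b
      · obtain ⟨n1, e⟩ := h1.hi k s
        refine ⟨n1, fun n hn => not_lt.1 fun h => (mx ⟨k, true, s, 0⟩ ⟨rfl, -n, ?_⟩).not_gt ?_⟩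
        · simpa [val, pt, e n h] using hn
        · simp [J.lt_iff]
      · obtain ⟨n0, e⟩ := h1.lo k s
        exact ⟨-n0, fun n hn => not_lt.1 fun h => hn (by simp [val, pt, e (-n) (by omega), D.pv])⟩) hn
    refine ⟨⟨k, b, s, n⟩, fun ⟨k', b', s', n'⟩ hi => by_contra fun e => ?_, n1⟩
    have := (mx ⟨k', b', s', 0⟩ ⟨rfl, n', e⟩).not_gt
    simp only [id, J.lt_iff] at this hi
    obtain ⟨rfl, rfl, rfl, h⟩ : k = k' ∧ b = b' ∧ s = s' ∧ n < n' := by tauto
    exact (n2 n' e).not_gt h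
  · show idx i.b (_ • pt (idx _ _)) = i
    rw [pt_idx, smul_inv_smul, idx_pt]
  · have := conj_l x.1 g.1 (fix (p := pt i) (ofAdd_eq_one.1 k) (D.lev g.2 k'))
    obtain ⟨z, e⟩ : ∃ z, D.val (idx i.b (x.1.right • pt i)) (x * g * x⁻¹ : D.Gh) = z * D.val i g * z⁻¹ := by
      simp only [val, pt_idx, Subgroup.coe_mul, Subgroup.coe_inv, this, map_mul, map_inv,
        show (idx i.b (x.1.right • pt i)).b = i.b from rfl]
      split_ifs <;> exact ⟨_, rfl⟩
    simp only [e]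
    exact ⟨fun h => by simp [h], D.hP.1.cj z trivial _⟩

end St

end Pool.Agent.H.MP_afa6c5_al
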