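import Pool.Agent.H.MP_afa6c5_al.HC

set_option autoImplicit false

namespace Pool.Agent.H.MP_afa6c5_al

open scoped commutatorElement
open Pool.Agent.H.MP_23b8d1_al Pool.Agent.H.MP_7c6b96_al SemidirectProduct

variable {Z : Type} [Group Z]

def sol (f : ℤ → Z) (n0 : ℤ) (t : ℕ) (n : ℤ) : Z :=
  if n < n0 then 1 else (f n)⁻¹ * sol f n0 t (n - (t + 1))
termination_by (n - n0 + 1).toNat
decreasing_by omega

theorem exsol (f : ℤ → Z) {n0 t : ℤ} (ht : 0 < t) (h : ∀ n, n < n0 → f n = 1) :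
    ∃ f' : ℤ → Z, (∀ n, n < n0 → f' n = 1) ∧ ∀ n, f' (n - t) * (f' n)⁻¹ = f n := by
  obtain ⟨t, rfl⟩ : ∃ u : ℕ, t = u + 1 := ⟨(t - 1).toNat, by omega⟩
  have z : ∀ n, n < n0 → sol f n0 t n = 1 := fun n hn => by rw [sol, if_pos hn]
  refine ⟨sol f n0 t, z, fun n => ?_⟩
  by_cases k : n < n0
  · rw [z n k, z _ (by omega), h n k]; simp
  · conv_lhs => enter [2]; rw [sol, if_neg k]
    simp

def yq (i : ℤ) : Q := ⟨Pi.single i 1, 0, i + 1, fun j hj => Pi.single_eq_of_ne (by omega) _⟩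
def xq : Q := ⟨0, 1, 0, fun _ _ => rfl⟩

theorem xy (i : ℤ) : xq * yq i * xq⁻¹ = yq (i + 1) := by
  ext k <;> simp [xq, yq, Pi.single_apply, sub_eq_iff_eq_add]

/-- `q` moves the basic row by `t`. -/
def Qs (q : Q) (t : ℤ) : Prop := q.m = 0 ∧ (∀ i, 1 ≤ i → q.a i = 0) ∧ q.a 0 = t

theorem Qs.comm {q u : Q} {t : ℤ} (h : Qs q t) (h1 : u.m = 0) (h2 : ε (u.a 1) = -1) :
    Qs ⁅q, u⁆ (t + t) := by
  obtain ⟨a, b, c⟩ := h
  refine ⟨by simp [commutatorElement_def, h1], fun i hi => ?_, ?_⟩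
  · simp [commutatorElement_def, a, h1, b i hi, b (i + 1) (by omega), b (i + 1 + 1) (by omega)]
  · simp [commutatorElement_def, a, h1, b 1 le_rfl, b 2 (by omega), c, h2]
    ring

open Classical in
/-- Functions on the basic row. -/
noncomputable def rw : (ℤ → Z) →* B Z := inl.comp (MonoidHom.mk'
  (fun f p => if p.k = 0 ∧ p.s = 0 then f p.n else 1) fun f g => by
    ext p; by_cases h : p.k = 0 ∧ p.s = 0 <;> simp [h])

open Classical in
theorem rw_l (f : ℤ → Z) (p : Pt) : (rw f).left p = if p.k = 0 ∧ p.s = 0 then f p.n else 1 := rfl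
@[simp] theorem rw_r (f : ℤ → Z) : (rw f).right = 1 := rfl

/-- Trivial on the levels `≤ t`. -/
def L (t : ℤ) : Subgroup (B Z) where
  carrier := {b | b.right.m = 0 ∧ ∀ p : Pt, p.k ≤ t → b.left p = 1}
  one_mem' := ⟨rfl, fun _ _ => rfl⟩
  mul_mem' := fun {a b} ha hb => ⟨by simp [ha.1, hb.1], fun p hp => by
    rw [mul_l, ha.2 p hp, hb.2 _ (by simpa [ha.1] using hp), one_mul]⟩
  inv_mem' := fun {a} ha => ⟨by simp [ha.1], fun p hp => by
    rw [inv_l, ha.2 _ (by simpa [ha.1] using hp), inv_one]⟩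

noncomputable def X : B Z := inr xq

theorem L_x {t : ℤ} {b : B Z} (h : b ∈ L t) : X * b * X⁻¹ ∈ L (t + 1) :=
  ⟨by simp [X, h.1], fun p hp => by
    rw [mul_l, mul_l, inv_l, h.2 _ (by simp [X, xq]; omega)]; simp [X]⟩

theorem L_mono {t u : ℤ} (h : t ≤ u) : (L u : Subgroup (B Z)) ≤ L t :=
  fun _ hb => ⟨hb.1, fun p hp => hb.2 p (hp.trans h)⟩

theorem sh {w : B Z} (h : w ∈ L 0) {t : ℤ} (k : Qs w.right t) (f : ℤ → Z) :
    w * rw f * w⁻¹ = rw fun n => f (n - t) := by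
  refine SemidirectProduct.ext (funext fun P => ?_) (by simp)
  obtain ⟨p, rfl⟩ := MulAction.surjective w.right P
  rw [conj_l _ _ (one_smul _ _), rw_l, rw_l, smul_k, k.1, add_zero]
  by_cases e : p.k = 0
  · rw [h.2 _ (by simp [k.1, e]), smul_s, act_fix fun i hi => k.2.1 i (by have := k.1; omega), smul_n]
    by_cases e' : p.s = 0 <;> simp [e, e', k.1, k.2.1, k.2.2]
  · simp [e]

theorem k1abs {Γ : Type} [Group Γ] {M : Subgroup Γ} (hM : M.Normal) {h v c : Γ} (h1 : h ∈ M)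
    (k : Commute (h * v * h⁻¹) c) (cv : c * v * c⁻¹ = v * v) : v ∈ M := by
  have m1 := mul_mem h1 (hM.conj_mem _ (inv_mem h1) v)
  convert mul_mem (inv_mem (hM.conj_mem _ m1 c)) m1 using 1
  calc v = (h * v * h⁻¹ * (c * v * c⁻¹)⁻¹)⁻¹ * (h * (v * h⁻¹ * v⁻¹)) := by rw [cv]; group
    _ = (h * v * h⁻¹ * c * v⁻¹ * c⁻¹)⁻¹ * (h * (v * h⁻¹ * v⁻¹)) := by group
    _ = _ := by rw [k.eq]; group

theorem k2abs {Γ : Type} [Group Γ] {s : Set Γ} {G : Subgroup Γ} (e : G = Subgroup.closure s)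
    {M : Subgroup G} (hM : M.Normal) (m : G →* Multiplicative ℤ) (x : G)
    (h : ∀ g : G, g.1 ∈ s → g * (x ^ (m g).toAdd)⁻¹ ∈ M) (g : G) :
    g * (x ^ (m g).toAdd)⁻¹ ∈ M := by
  subst e
  obtain ⟨g, hg⟩ := g
  induction hg using Subgroup.closure_induction with
  | mem b hb => exact h _ hb
  | one => simpa [show (⟨1, one_mem _⟩ : Subgroup.closure s) = 1 from rfl] using one_mem M
  | mul a b ha hb h1 h2 =>
    convert mul_mem h1 (hM.conj_mem _ h2 (x ^ (m ⟨a, ha⟩).toAdd)) using 1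
    rw [show (⟨a * b, mul_mem ha hb⟩ : Subgroup.closure s) = ⟨a, ha⟩ * ⟨b, hb⟩ from rfl, map_mul,
      toAdd_mul]
    group
  | inv a ha h1 =>
    convert hM.conj_mem _ (inv_mem h1) (x ^ (m ⟨a, ha⟩).toAdd)⁻¹ using 1
    rw [show (⟨a⁻¹, inv_mem ha⟩ : Subgroup.closure s) = ⟨a, ha⟩⁻¹ from rfl, map_inv, toAdd_inv]
    group

namespace St

variable {j : ℕ} (D : St j Z)

noncomputable def E : B Z := rw (fun n => if n ≤ 0 then D.v ^ ε n else 1) * inr (yq (-1))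

def F0 : Set (B Z) := {b | ∃ (f : ℤ → Z) (n0 : ℤ), (∀ n, n < n0 → f n = 1) ∧ b = rw fun n => D.pr (f n)}

noncomputable def G : Subgroup (B Z) := Subgroup.closure (insert X (insert D.E D.F0))

theorem XG : X ∈ D.G := Subgroup.subset_closure (Or.inl rfl)
theorem EG : D.E ∈ D.G := Subgroup.subset_closure (Or.inr (Or.inl rfl))
theorem FG {b : B Z} (h : b ∈ D.F0) : b ∈ D.G := Subgroup.subset_closure (Or.inr (Or.inr h))

theorem rw_fin (f : ℤ → Z) : {r : ℤ × S | ∃ n, (rw f).left ⟨r.1, r.2, n⟩ ≠ 1}.Finite :=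
  (Set.finite_singleton (0, 0)).subset fun r ⟨n, hn⟩ => by
    by_contra e
    exact hn (if_neg fun k => e (Prod.ext k.1 k.2))

theorem G_le : D.G ≤ D.Gh := by
  classical
  rw [G, Subgroup.closure_le]
  rintro b (rfl | rfl | ⟨f, n0, h, rfl⟩)
  · exact ⟨0, ⟨by simp [X], fun _ _ => ⟨0, by simp [X]⟩, fun _ _ => ⟨0, by simp [X]⟩⟩, by simp [X, xq]⟩
  · have e : D.E.left = (rw fun n => if n ≤ 0 then D.v ^ ε n else 1).left := by simp [E]
    refine ⟨fun k s => if k = 0 ∧ s = 0 then 1 else 0, e ▸ ⟨rw_fin _, fun k s => ⟨0, fun n hn => ?_⟩,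
      fun k s => ⟨0, fun n hn => ?_⟩⟩, fun k => ?_⟩
    · by_cases h : k = 0 ∧ s = 0 <;> simp [rw_l, h, hn.le]
    · simp [rw_l, hn.not_ge]
    · rw [finsum_eq_single _ 0 fun s hs => by simp [hs]]
      simp [E, yq, Pi.single_apply, eq_neg_iff_add_eq_zero]
  · refine ⟨0, ⟨rw_fin _, fun k s => ⟨n0, fun n hn => by simp [rw_l, h n hn]⟩,
      fun k s => ⟨0, fun n _ => ?_⟩⟩, by simp⟩
    rw [rw_l]
    split_ifs <;> simp [D.idem]

theorem E_r : D.E.right = yq (-1) := by simp [E]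

theorem E_L : D.E ∈ L (-1) := ⟨rfl, fun p hp => by
  simp only [E, mul_l, rw_l]
  rw [if_neg fun k => by omega]; simp⟩

theorem step {w : B Z} (h : w ∈ L 0) {t : ℤ} (k : Qs w.right t) (ht : 0 < t) {b : B Z}
    (hb : b ∈ D.F0) : ∃ b' ∈ D.F0, b = ⁅w, b'⁆ := by
  obtain ⟨f, n0, h1, rfl⟩ := hb
  obtain ⟨f', h2, h3⟩ := exsol f ht h1
  refine ⟨_, ⟨f', n0, h2, rfl⟩, ?_⟩
  rw [commutatorElement_def, sh h k, ← map_inv, ← map_mul]
  congr 1
  ext n
  simp [← h3]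

theorem y0 : Qs (X * D.E * X⁻¹).right 1 := by
  rw [mul_right, mul_right, inv_right, E_r, X, right_inr, xy]
  exact ⟨rfl, fun i hi => Pi.single_eq_of_ne (by omega) _, by simp [yq]⟩

theorem g0 : D.E * (X * D.E * X⁻¹ * D.E * (X * D.E * X⁻¹)⁻¹) = rw (Pi.mulSingle 1 D.v) := by
  have h := L_x D.E_L
  have h' := D.y0
  have h'' : (X * D.E * X⁻¹).right = yq 0 := by rw [mul_right, mul_right, inv_right, E_r, X, right_inr, xy]; rfl
  generalize X * D.E * X⁻¹ = w at *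
  have fx : ∀ p : Pt, 0 ≤ p.k → yq (-1) • p = p := fun p hp =>
    fix rfl fun i hi => Pi.single_eq_of_ne (by omega) _
  have e1 : w * inr (yq (-1)) * w⁻¹ = (inr (yq (-1)))⁻¹ := by
    have e : yq 0 * yq (-1) * (yq 0)⁻¹ = (yq (-1))⁻¹ := by
      ext i
      · by_cases a : i = 0 <;> by_cases b : i = -1 <;> by_cases c : i = -2 <;>
          simp [yq, Pi.single_apply, a, b, c, ← eq_neg_iff_add_eq_zero, ← eq_sub_iff_add_eq]
      · rfl
    refine SemidirectProduct.ext (funext fun p => ?_) (by simp [h'', e])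
    rw [mul_l, mul_l, inv_l, inv_l, mul_right, right_inr, left_inr, ← mul_smul, h'',
      show yq 0 * (yq 0 * yq (-1))⁻¹ = yq (-1) by rw [mul_inv_rev, ← mul_assoc, ← conj_inv, e, inv_inv]]
    rcases le_or_gt 0 p.k with k | k
    · simp [fx p k]
    · simp [h.2 p (by omega), h.2 (yq (-1) • p) (by simp [yq]; omega)]
  have e2 : ∀ f : ℤ → Z, inr (yq (-1)) * rw f * (inr (yq (-1)))⁻¹ = rw f := fun f => by
    refine SemidirectProduct.ext (funext fun P => ?_) (by simp)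
    obtain ⟨p, rfl⟩ := MulAction.surjective (inr (yq (-1)) : B Z).right P
    rw [conj_l _ _ (one_smul _ _), right_inr]
    rcases le_or_gt 0 p.k with k | k
    · simp [fx p k]
    · simp [rw_l, yq, k.ne]
  calc _ = rw (fun n => if n ≤ 0 then D.v ^ ε n else 1) * (inr (yq (-1)) *
      (w * rw (fun n => if n ≤ 0 then D.v ^ ε n else 1) * w⁻¹) * (w * inr (yq (-1)) * w⁻¹)) := by
        rw [E]; group
    _ = _ := by
      rw [sh h h', e1, e2, ← map_mul]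
      congr 1
      ext n
      rcases lt_trichotomy n 1 with k | rfl | k
      · simp [Pi.mulSingle_eq_of_ne k.ne, show n ≤ 0 by omega, k.le, sub_eq_add_neg]
      · simp
      · simp [Pi.mulSingle_eq_of_ne k.ne', show ¬ n ≤ 0 by omega, k.not_ge]

theorem dF (z : Z) : rw (Pi.mulSingle 1 (D.pr z)) ∈ D.F0 :=
  ⟨Pi.mulSingle 1 z, 1, fun n hn => Pi.mulSingle_eq_of_ne hn.ne _, congrArg rw (funext fun n => by
    by_cases h : n = 1 <;> simp [h])⟩

theorem main {j : ℕ} (D : St (j + 1) Z) {c : Z} (c1 : D.pr c = c) (c2 : c ∈ derivedSeries Z j)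
    (c3 : c * D.v * c⁻¹ = D.v * D.v) :
    ∃ (Γ : Type) (_ : Group Γ), derivedSeries Γ (j + 4 + 1) = ⊥ ∧ derivedSeries Γ (j + 4) ≠ ⊥ ∧
      (∃ r : Γ → Γ → Prop, BO r) ∧ ∃! H : Subgroup Γ, H ≠ ⊥ ∧ H ≠ ⊤ ∧ H.Normal ∧
        ∃ r : Γ → Γ → Prop, BO r ∧ ∀ a ∈ H, ∀ b ∈ H, ∀ g, r a g → r g b → g ∈ H := by
  let d : Z →* B Z := rw.comp (MonoidHom.mulSingle (fun _ : ℤ => Z) 1)
  have y0G := mul_mem (mul_mem D.XG D.EG) (inv_mem D.XG)
  have cG : d c ∈ D.G := c1 ▸ D.FG (D.dF c)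
  have vG : d D.v ∈ D.G := D.g0 ▸ mul_mem D.EG (mul_mem (mul_mem y0G D.EG) (inv_mem y0G))
  have cv : d c * d D.v * (d c)⁻¹ = d D.v * d D.v := by rw [← map_inv, ← map_mul, ← map_mul, c3, map_mul]
  have e0 : (⟨_, D.EG⟩ * (⟨_, y0G⟩ * ⟨_, D.EG⟩ * ⟨_, y0G⟩⁻¹) : D.G) = ⟨_, vG⟩ := Subtype.ext D.g0
  refine fin ?_ (mB.comp D.G.subtype) (x := ⟨_, D.XG⟩) (e := ⟨_, D.EG⟩) (y := ⟨_, y0G⟩) rfl rfl ?_
    (fun M hM h h1 h2 => ?_) (fun M hM h g => ?_) ?_ ?_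
  · obtain ⟨P, ⟨p1, p2⟩, p3, p4⟩ := D.coneG
    let i := Subgroup.inclusion D.G_le
    exact ⟨i ⁻¹' P, ⟨fun a ha b hb => p1 _ ha _ hb, fun x _ a ha => p2 (i x) trivial _ ha⟩, p3,
      fun g hg => p4 (i g) fun e => hg (Subgroup.inclusion_injective _ e)⟩
  · rw [e0]
    intro e
    have := congrFun (congrArg (fun g : D.G => g.1.left) e) ⟨0, 0, 1⟩
    exact one_ne_zero (D.vz (i := 1) (by simpa [d, rw_l] using this))
  · rw [e0]
    have k : Commute (h.1 * d D.v * h.1⁻¹) (d c) := by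
      refine SemidirectProduct.ext (funext fun P => ?_) (by simp [d])
      obtain ⟨p, rfl⟩ := MulAction.surjective h.1.right P
      rw [mul_l, mul_l (d c), show (h.1 * d D.v * h.1⁻¹).right = 1 by simp [d],
        show (d c).right = 1 from rfl, inv_one, one_smul, conj_l _ _ (one_smul _ _)]
      by_cases e : p.k = 0
      · have : h.1.right.m ≠ 0 := fun e => h2 (congrArg Multiplicative.ofAdd e)
        simp [d, rw_l, e, this]
      · simp [d, rw_l, e]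
    exact k1abs (c := ⟨_, cG⟩) hM h1 (Subtype.ext k.eq) (Subtype.ext cv)
  · refine k2abs (s := insert X (insert D.E D.F0)) (G := D.G) rfl hM _ _ ?_ g
    rintro ⟨b, hb'⟩ (rfl | rfl | hb)
    · rw [show mB.comp D.G.subtype ⟨X, hb'⟩ = Multiplicative.ofAdd 1 from rfl, toAdd_ofAdd, zpow_one,
        mul_inv_cancel]
      exact one_mem M
    · rw [show mB.comp D.G.subtype ⟨D.E, hb'⟩ = 1 from rfl, toAdd_one, zpow_zero, inv_one, mul_one]
      exact h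
    · obtain ⟨b', h1, e⟩ := D.step (L_x D.E_L) D.y0 one_pos hb
      have := hM.conj_mem _ h ⟨_, D.XG⟩
      have := mul_mem this (hM.conj_mem _ (inv_mem this) ⟨_, D.FG h1⟩)
      obtain ⟨f, -, -, rfl⟩ := hb
      rw [show mB.comp D.G.subtype ⟨_, hb'⟩ = 1 from rfl, toAdd_one, zpow_zero, inv_one, mul_one]
      refine Set.mem_of_eq_of_mem (Subtype.ext (e.trans ?_)) this
      simp [commutatorElement_def, mul_assoc]
  · rw [← Subgroup.map_eq_bot_iff_of_injective _ D.G.subtype_injective, eq_bot_iff, ← dsB D.d]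
    exact map_derivedSeries_le_derivedSeries _ _
  · rw [e0]
    let DS : ℕ → Subgroup (B Z) := fun i => (derivedSeries D.G i).map D.G.subtype
    have s0 : ∀ b ∈ D.G, b ∈ DS 0 := fun b hb => ⟨⟨b, hb⟩, trivial, rfl⟩
    have s1 : ∀ i, DS (i + 1) = ⁅DS i, DS i⁆ := fun i => Subgroup.map_commutator _ _ _
    have cm : ∀ i a b, a ∈ DS i → b ∈ DS i → ⁅a, b⁆ ∈ DS (i + 1) := fun i a b ha hb =>
      s1 i ▸ Subgroup.commutator_mem_commutator ha hb
    have nx : ∀ i, ∀ w ∈ DS i, w ∈ L 0 → ∀ t, Qs w.right t → 0 < t → (∀ b ∈ D.F0, b ∈ DS i) →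
        ∀ b ∈ D.F0, b ∈ DS (i + 1) := fun i w h1 h2 t h3 h4 h5 b hb => by
      obtain ⟨b', h6, rfl⟩ := D.step h2 h3 h4 hb
      exact cm i _ _ h1 (h5 _ h6)
    have l0 := L_x D.E_L
    have l1 := L_x l0
    have l2 := L_x l1
    have r1 : (X * (X * D.E * X⁻¹) * X⁻¹).right = yq 1 := by
      simp only [mul_right, inv_right, E_r, X, right_inr, xy]; rfl
    have q0 := D.y0
    generalize X * D.E * X⁻¹ = y at *
    have y1G := mul_mem (mul_mem D.XG y0G) (inv_mem D.XG)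
    generalize X * y * X⁻¹ = y' at *
    have l1' := L_mono (by norm_num : (0 : ℤ) ≤ -1 + 1 + 1) l1
    have cl : ∀ a b : B Z, a ∈ L 0 → b ∈ L 0 → ⁅a, b⁆ ∈ L 0 := fun a b ha hb =>
      mul_mem (mul_mem (mul_mem ha hb) (inv_mem ha)) (inv_mem hb)
    have cr : ∀ a b : B Z, ⁅a, b⁆.right = ⁅a.right, b.right⁆ := fun _ _ => rfl
    have q1 : Qs ⁅y, y'⁆.right (1 + 1) := q0.comm l1.1 (by simp [r1, yq])
    have lu : ⁅(X : B Z), y'⁆ ∈ L 0 := mul_mem (L_mono (by norm_num) l2) (inv_mem l1')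
    have q2 : Qs ⁅⁅y, y'⁆, ⁅X, y'⁆⁆.right (1 + 1 + (1 + 1)) := q1.comm lu.1 (by
      rw [cr, commutatorElement_def, r1, X, right_inr, xy]
      simp [yq])
    have w1 := cm 0 _ _ (s0 _ y0G) (s0 _ y1G)
    have f3 := nx 2 _ (cm 1 _ _ w1 (cm 0 _ _ (s0 _ D.XG) (s0 _ y1G))) (cl _ _ (cl _ _ l0 l1') lu) _ q2
      (by norm_num) (nx 1 _ w1 (cl _ _ l0 l1') _ q1 (by norm_num)
        (nx 0 _ (s0 _ y0G) l0 _ q0 one_pos fun b hb => s0 b (D.FG hb)))
    have th : ∀ i, (derivedSeries Z i).map (d.comp D.pr) ≤ DS (i + 3) := fun i => by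
      induction i with
      | zero =>
        rintro _ ⟨z, -, rfl⟩
        exact f3 _ (D.dF z)
      | succ i ih =>
        rw [derivedSeries_succ, Subgroup.map_commutator, Nat.add_right_comm, s1]
        exact Subgroup.commutator_mono ih ih
    obtain ⟨g, h1, h2⟩ := th j ⟨c, c2, rfl⟩
    obtain rfl : g = ⟨_, cG⟩ := Subtype.ext (h2.trans (congrArg d c1))
    exact ds_sq h1 (Subtype.ext cv)

end St

theorem final (n : ℕ) (hn : 4 < n) :
    ∃ (Γ : Type) (_ : Group Γ), derivedSeries Γ n = ⊥ ∧ derivedSeries Γ (n - 1) ≠ ⊥ ∧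
      (∃ r : Γ → Γ → Prop, BO r) ∧ ∃! H : Subgroup Γ, H ≠ ⊥ ∧ H ≠ ⊤ ∧ H.Normal ∧
        ∃ r : Γ → Γ → Prop, BO r ∧ ∀ a ∈ H, ∀ b ∈ H, ∀ g, r a g → r g b → g ∈ H := by
  obtain ⟨j, rfl⟩ : ∃ j, n = j + 4 + 1 := ⟨n - 5, by omega⟩
  obtain ⟨Z, _, D, c, c1, c2, c3⟩ := exSt j
  exact D.main c1 c2 c3

end Pool.Agent.H.MP_afa6c5_al
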