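import Pool.Agent.H.MP_afa6c5_al.F

set_option autoImplicit false
set_option linter.unusedSimpArgs false

namespace Pool.Agent.H.MP_afa6c5_al

open scoped commutatorElement
open Filter

lemma order_of_RC {K : Type} [Group K] {P : K → Prop} (h : RC ⊥ P) :
    ∃ o : LinearOrder K, (∀ a b c, o.le a b → o.le (c * a) (c * b) ∧ o.le (a * c) (b * c)) ∧
      ∀ a b, o.le a b ↔ a = b ∨ P (a⁻¹ * b) := by
  classical
  let r : K → K → Prop := fun u v => P (u⁻¹ * v)
  have : IsStrictTotalOrder K r :=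
    { trichotomous := by
        intro u v h1 h2
        rcases h.tri (u⁻¹ * v) with h | h | h
        · exact inv_mul_eq_one.mp h
        · exact absurd h h1
        · exact absurd (by simpa [r] using h) h2
      irrefl := fun u h1 => h.excl 1 (one_mem _) (by simpa [r] using h1)
      trans := fun u v w h1 h2 => by simpa [r, mul_assoc] using h.mul _ _ h1 h2 }
  have e : ∀ a b, (linearOrderOfSTO r).le a b ↔ a = b ∨ P (a⁻¹ * b) := fun a b => Iff.rfl
  refine ⟨linearOrderOfSTO r, fun a b c hab => ?_, e⟩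
  rw [e] at hab
  rw [e, e]
  rcases hab with rfl | hab
  · exact ⟨Or.inl rfl, Or.inl rfl⟩
  · exact ⟨Or.inr (by simpa [mul_assoc] using hab),
      Or.inr (by simpa [mul_assoc] using h.conj _ c⁻¹ hab)⟩

lemma RC_of_order {K : Type} [Group K] (o : LinearOrder K)
    (ho : ∀ a b c, o.le a b → o.le (c * a) (c * b) ∧ o.le (a * c) (b * c)) (M : Subgroup K)
    (hM : M.Normal) (hc : ∀ h₁ ∈ M, ∀ h₂ ∈ M, ∀ g, o.le h₁ g → o.le g h₂ → g ∈ M) :
    RC M (fun a => o.le 1 a ∧ a ∉ M) where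
  mul := by
    rintro a b ⟨a1, a2⟩ ⟨b1, -⟩
    have h1 : o.le a (a * b) := by simpa using (ho 1 b a b1).1
    exact ⟨o.le_trans _ _ _ a1 h1, fun h => a2 (hc 1 (one_mem _) _ h a a1 h1)⟩
  conj := by
    rintro a h ⟨a1, a2⟩
    refine ⟨by simpa using (ho _ _ h⁻¹ (ho 1 a h a1).1).2, fun h1 => a2 ?_⟩
    simpa [mul_assoc] using hM.conj_mem _ h1 h⁻¹
  tri := by
    intro a
    by_cases h : a ∈ M
    · exact Or.inl h
    · rcases o.le_total 1 a with h1 | h1
      · exact Or.inr (Or.inl ⟨h1, h⟩)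
      · exact Or.inr (Or.inr ⟨by simpa using (ho a 1 a⁻¹ h1).1, fun h2 => h (inv_mem_iff.mp h2)⟩)
  excl := fun a h1 h2 => h2.2 h1

lemma exists_max {K : Type} [Group K] (A : Subgroup K) (h0 : ∃ P, RC (⊥ : Subgroup K) P) :
    ∃ M : Subgroup K, Maximal (fun M => M.Normal ∧ M ≤ A ∧ ∃ P, RC M P) M := by
  refine zorn_le₀ {M : Subgroup K | M.Normal ∧ M ≤ A ∧ ∃ P, RC M P} fun c hc hch => ?_
  rcases c.eq_empty_or_nonempty with rfl | hne
  · exact ⟨⊥, ⟨inferInstance, bot_le, h0⟩, by simp⟩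
  have hdir : DirectedOn (· ≤ ·) c := hch.directedOn
  have : Nonempty c := hne.to_subtype
  have : IsDirectedOrder c := hdir.isDirectedOrder
  have mem : ∀ x, x ∈ sSup c ↔ ∃ M ∈ c, x ∈ M := fun x =>
    Subgroup.mem_sSup_of_directedOn hne hdir
  choose P hP using fun M : c => (hc M.2).2.2
  let U : Ultrafilter c := Ultrafilter.of atTop
  have ev : ∀ x ∈ sSup c, ∀ᶠ M : c in U, x ∈ M.1 := by
    intro x hx
    obtain ⟨M, hM, hx⟩ := (mem x).1 hx
    exact (Ultrafilter.of_le atTop) ((eventually_ge_atTop (⟨M, hM⟩ : c)).mono fun M' h => h hx)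
  refine ⟨sSup c, ⟨⟨fun x hx y => ?_⟩, sSup_le fun M hM => (hc hM).2.1,
    fun x => ∀ᶠ M : c in U, P M x, ?_, ?_, ?_, ?_⟩, fun M hM => le_sSup hM⟩
  · obtain ⟨M, hM, hx⟩ := (mem x).1 hx
    exact (mem _).2 ⟨M, hM, (hc hM).1.conj_mem x hx y⟩
  · intro a b ha hb
    filter_upwards [ha, hb] with M h1 h2 using (hP M).mul _ _ h1 h2
  · intro a h ha
    filter_upwards [ha] with M h1 using (hP M).conj _ _ h1
  · intro a
    by_cases h : a ∈ sSup c
    · exact Or.inl h
    · right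
      rw [← Ultrafilter.eventually_or]
      exact Eventually.of_forall fun M =>
        ((hP M).tri a).resolve_left fun h1 => h ((mem a).2 ⟨M.1, M.2, h1⟩)
  · intro a ha h
    obtain ⟨M, h1, h2⟩ := ((ev a ha).and h).exists
    exact (hP M).excl a h1 h2

variable {s : ℕ}

def pQ : G s →* Q s where
  toFun x := x.1.q
  map_one' := rfl
  map_mul' _ _ := rfl

lemma pQ_surj : Function.Surjective (pQ : G s →* Q s) := fun q => by
  obtain ⟨x, hx⟩ := pG_surj q.2
  exact ⟨x, Subtype.ext hx⟩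

noncomputable def τG : G s →* Multiplicative ℤ where
  toFun x := Multiplicative.ofAdd (pG x).τ
  map_one' := rfl
  map_mul' a b := by rw [map_mul, mul_τ]; rfl

theorem main (s : ℕ) : ∃ (K : Type) (_ : Group K), (∃ P, RC (⊥ : Subgroup K) P) ∧
    derivedSeries K (s + 4) = ⊥ ∧ derivedSeries K (s + 3) ≠ ⊥ ∧
    ∃ H : Subgroup K, H ≠ ⊥ ∧ H ≠ ⊤ ∧ H.Normal ∧
      (∃ P, RC (⊥ : Subgroup K) P ∧ ∀ g, ∀ h ∈ H, P g → P (g⁻¹ * h) → g ∈ H) ∧
      ∀ L : Subgroup K, L ≠ ⊥ → L ≠ ⊤ → L.Normal → (∃ P, RC L P) → L = H := by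
  obtain ⟨M, ⟨Mn, MA, P, hP⟩, hmax⟩ := exists_max (pG : G s →* Af s).ker
    ⟨PosG, PosG_mul, PosG_conj, PosG_tri, fun a ha => by
      rw [Subgroup.mem_bot.mp ha]; exact PosG_one⟩
  have hK := hP.quot
  let φ := QuotientGroup.mk' M
  have φs : Function.Surjective φ := QuotientGroup.mk'_surjective M
  have φ1 : ∀ x, φ x = 1 ↔ x ∈ M := fun x => QuotientGroup.eq_one_iff x
  have nH : ¬ ∀ x ∈ HH s, φ x = 1 := by
    intro h
    obtain ⟨e, e1, -⟩ := ex_lift (bot s 0)
    have := MA ((φ1 e).1 (h e (by rw [mem_HH, e1]; rfl)))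
    rw [MonoidHom.mem_ker, e1] at this
    simpa using congrFun (congrArg Af.d this) (bot s 0)
  let τ' : (G s ⧸ M) →* Multiplicative ℤ := QuotientGroup.lift M τG fun x hx => by
    have : pG x = 1 := MA hx
    show Multiplicative.ofAdd (pG x).τ = 1
    rw [this]; rfl
  have τe : ∀ x, Multiplicative.toAdd (τ' (φ x)) = (pG x).τ := fun x => rfl
  have kerH : ∀ x, φ x ∈ τ'.ker ↔ x ∈ HH s := fun x => Iff.rfl
  have dmap : ∀ n, (derivedSeries (G s) n).map φ = derivedSeries (G s ⧸ M) n :=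
    map_derivedSeries_eq φs
  refine ⟨G s ⧸ M, inferInstance, ⟨_, hK⟩, ?_, fun h => nH ?_, τ'.ker, fun h => nH ?_,
    fun h => ?_, inferInstance, ?_, fun L L1 L2 L3 ⟨P', hP'⟩ => ?_⟩
  · rw [← dmap, derivedSeries_succ, eq_bot_iff, Subgroup.map_le_iff_le_comap,
      Subgroup.commutator_le]
    have k : ∀ a ∈ derivedSeries (G s) (s + 3), pG a = 1 := by
      intro a ha
      have : pQ a ∈ derivedSeries (Q s) (s + 3) := map_derivedSeries_le_derivedSeries pQ _ ⟨a, ha, rfl⟩
      rw [upper, Subgroup.mem_bot] at this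
      exact congrArg Subtype.val this
    intro a ha b hb
    rw [commutatorElement_eq_one_iff_mul_comm.mpr (ker_comm (k a ha) (k b hb))]
    exact one_mem _
  · have := lower (s := s)
    rw [← map_derivedSeries_eq pQ_surj, Subgroup.ne_bot_iff_exists_ne_one] at this
    obtain ⟨⟨_, c, hc, rfl⟩, h1⟩ := this
    refine main3 hK φ (derivedSeries (G s) (s + 2)) (fun a ha b hb => ?_) hc
      (fun h2 => h1 (Subtype.ext (Subtype.ext h2)))
    have : φ ⁅a, b⁆ ∈ derivedSeries (G s ⧸ M) (s + 3) := by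
      rw [← dmap]
      exact ⟨_, Subgroup.commutator_mem_commutator ha hb, rfl⟩
    rw [h, Subgroup.mem_bot, map_commutatorElement] at this
    exact commutatorElement_eq_one_iff_mul_comm.mp this
  · intro x hx
    have := (kerH x).2 hx
    rwa [h, Subgroup.mem_bot] at this
  · have : φ (tG 1) ∈ τ'.ker := h ▸ Subgroup.mem_top _
    rw [kerH, mem_HH] at this
    exact one_ne_zero this
  · let t : G s ⧸ M → ℤ := fun x => Multiplicative.toAdd (τ' x)
    have tm : ∀ a b, t (a * b) = t a + t b := fun a b => by simp [t]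
    have ti : ∀ a, t a⁻¹ = -t a := fun a => by simp [t]
    have tk : ∀ a, a ∈ τ'.ker ↔ t a = 0 := fun a => Iff.rfl
    refine ⟨fun x => 0 < t x ∨ (t x = 0 ∧ ∃ a : G s, (a : G s ⧸ M) = x ∧ P a), ⟨?_, ?_, ?_, ?_⟩, ?_⟩
    · rintro a b (ha | ⟨a1, a2⟩) (hb | ⟨b1, b2⟩)
      · left; rw [tm]; omega
      · left; rw [tm]; omega
      · left; rw [tm]; omega
      · right; exact ⟨by rw [tm]; omega, hK.mul _ _ a2 b2⟩
    · rintro a h (ha | ⟨a1, a2⟩)
      · left; rw [tm, tm, ti]; omega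
      · right; exact ⟨by rw [tm, tm, ti]; omega, hK.conj _ _ a2⟩
    · intro a
      rcases lt_trichotomy (t a) 0 with h | h | h
      · exact Or.inr (Or.inr (Or.inl (by rw [ti]; omega)))
      · rcases hK.tri a with h1 | h1 | h1
        · exact Or.inl h1
        · exact Or.inr (Or.inl (Or.inr ⟨h, h1⟩))
        · exact Or.inr (Or.inr (Or.inr ⟨by rw [ti]; omega, h1⟩))
      · exact Or.inr (Or.inl (Or.inl h))
    · rintro a ha (h | ⟨-, h⟩)
      · rw [Subgroup.mem_bot.mp ha] at h; simp [t] at h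
      · exact hK.excl a ha h
    · intro g h hh h1 h2
      rw [tk] at hh ⊢
      rw [tm, ti] at h2
      rcases h1 with h1 | ⟨h1, -⟩
      · rcases h2 with h2 | ⟨h2, -⟩ <;> omega
      · exact h1
  · have hR : RC (L.comap φ) (fun x => P' (φ x)) :=
      ⟨fun a b ha hb => by rw [map_mul]; exact hP'.mul _ _ ha hb,
       fun a h ha => by rw [map_mul, map_mul, map_inv]; exact hP'.conj _ _ ha,
       fun a => by rw [map_inv]; exact hP'.tri _, fun a ha => hP'.excl _ ha⟩
    have Ln : (L.comap φ).Normal := L3.comap φ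
    have hex : ∃ c ∈ L.comap φ, pG c ≠ 1 := by
      by_contra hc
      push Not at hc
      have := hmax ⟨Ln, hc, _, hR⟩ (fun x hx => by
        rw [Subgroup.mem_comap, (φ1 x).2 hx]; exact one_mem _)
      apply L1
      rw [eq_bot_iff]
      intro y hy
      obtain ⟨x, rfl⟩ := φs y
      exact (φ1 x).2 (this hy)
    obtain ⟨c, c1, c2⟩ := hex
    have HL : ∀ x ∈ HH s, x ∈ L.comap φ := fun x hx =>
      (QuotientGroup.eq_one_iff x).1 (main1 hR.quot (QuotientGroup.mk' (L.comap φ)) c2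
        (fun a _ => by
          rw [show QuotientGroup.mk' (L.comap φ) c = 1 from (QuotientGroup.eq_one_iff c).2 c1]
          exact Commute.one_left _) x hx)
    have tz : ∀ m : ℤ, (pG (tG 1 ^ m : G s)).τ = m := fun m => by
      have : τG (tG 1 ^ m : G s) = Multiplicative.ofAdd m := by
        rw [map_zpow, show τG (tG 1 : G s) = Multiplicative.ofAdd 1 from rfl, ← ofAdd_zsmul]
        simp
      exact this
    apply le_antisymm
    · intro y hy
      obtain ⟨x, rfl⟩ := φs y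
      rw [kerH, mem_HH]
      by_contra h0
      apply L2
      have a1 : tG 1 ^ (pG x).τ ∈ L.comap φ := by
        have := mul_mem (HL (tG 1 ^ (pG x).τ * x⁻¹) (by
          rw [mem_HH, map_mul, map_inv, mul_τ, inv_τ, tz]; simp)) (show x ∈ L.comap φ from hy)
        simpa using this
      have a2 : tG 1 ∈ L.comap φ := by
        refine hR.root (n := (pG x).τ.natAbs) (Int.natAbs_pos.mpr h0) ?_
        rcases Int.natAbs_eq (pG x).τ with h2 | h2
        · rw [h2, zpow_natCast] at a1; exact a1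
        · rw [h2, zpow_neg, zpow_natCast] at a1; exact inv_mem_iff.mp a1
      rw [eq_top_iff]
      intro y _
      obtain ⟨z, rfl⟩ := φs y
      have := mul_mem (HL (z * (tG 1 ^ (pG z).τ)⁻¹) (by
        rw [mem_HH, map_mul, map_inv, mul_τ, inv_τ, tz]; simp)) (zpow_mem a2 (pG z).τ)
      simpa using this
    · intro y hy
      obtain ⟨x, rfl⟩ := φs y
      exact HL x hy

end Pool.Agent.H.MP_afa6c5_al
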